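import Mathlib
import Pool.Agent.Lib.MP_98022b_UM.FinalDefs
import Pool.Agent.Lib.UP25.ClassT

/-!
# UNil forms and reversed segments: definitions
-/

set_option autoImplicit false

open MonoidAlgebra Pool.Agent.Lib.MP_98022b_UM.UF Pool.Agent.UP25

namespace Pool.Agent.MIX

universe u v w

section
variable {A : Type u} {G : Type v} [CommRing A] [StarRing A] [Group G]

/-- The `ε`-quadratic forms `θ` and `θ'` over `A[G]` (matrices modulo the matrices `y - ε y*`) are
isometric: there is an invertible matrix `U` such that `U θ' U*` and `θ` are equal modulo the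
matrices `y - ε y*`. -/
def Isometric (χ : G →* ℤˣ) (ε : ℤ) {I J : Type} [Fintype I] [DecidableEq I] [Fintype J]
    [DecidableEq J] (θ : Matrix I I (MonoidAlgebra A G)) (θ' : Matrix J J (MonoidAlgebra A G)) :
    Prop :=
  ∃ (U : Matrix I J (MonoidAlgebra A G)) (V : Matrix J I (MonoidAlgebra A G))
    (y : Matrix I I (MonoidAlgebra A G)), U * V = 1 ∧ V * U = 1 ∧
      U * θ' * conj χ U = θ + (y - ε • conj χ y)

/-- the hyperbolic form on `A[G]^m ⊕ A[G]^m` -/
noncomputable def hyperbolic (A : Type u) (G : Type v) [CommRing A] [Group G] (m : ℕ) :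
    Matrix (Fin m ⊕ Fin m) (Fin m ⊕ Fin m) (MonoidAlgebra A G) :=
  Matrix.fromBlocks 0 1 0 0

/-- the form `θ` becomes hyperbolic after adding a hyperbolic form -/
def StablyHyperbolic (χ : G →* ℤˣ) (ε : ℤ) {I : Type} [Fintype I] [DecidableEq I]
    (θ : Matrix I I (MonoidAlgebra A G)) : Prop :=
  ∃ m k : ℕ, Isometric χ ε (Matrix.fromBlocks θ 0 0 (hyperbolic A G m)) (hyperbolic A G k)

/-- the `ε`-quadratic form over `A[G]` induced by a UNil form -/
noncomputable def induced {V : Type w} [MulAction G V] {χ : G →* ℤˣ} {ε : ℤ} {p q : V} {n : Type}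
    [Fintype n] [DecidableEq n] (x : QForm A χ ε p q n) :
    Matrix (n ⊕ n) (n ⊕ n) (MonoidAlgebra A G) :=
  Matrix.fromBlocks (ε • x.α) (1 - x.β) 0 x.γ

end

/-- `A` has the vanishing property: let `G` act on a tree, let `{p, q}` be an edge which is not
inverted, such that the vertex groups `G_p` and `G_q` have no elements of order two, and such that
for some `k ≥ 1` and all segments `[u, v]` consisting of `2 k` translates of the edge `{p, q}`
**which are reversed by an element of `G`**, all finitely generated subgroups of `G_u ∩ G_v` are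
torsion-free and have a subgroup of finite index which acts on a locally finite tree with virtually
poly-`ℤ` stabilisers of bounded length.  Then every `ε`-quadratic UNil form of this edge over
`A[G_p ∩ G_q]` becomes hyperbolic over `A[G]` after adding a hyperbolic form. -/
def UNilVanishesR (A : Type u) [CommRing A] [StarRing A] : Prop :=
  ∀ (G : Type v) [Group G] (V : Type w) [MulAction G V] (Γ : SimpleGraph V), Γ.IsTree →
    (∀ (g : G) (x y : V), Γ.Adj x y → Γ.Adj (g • x) (g • y)) →
    ∀ p q : V, Γ.Adj p q → (∀ g : G, ¬ (g • p = q ∧ g • q = p)) →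
    (∀ g : G, g • p = p → g * g = 1 → g = 1) → (∀ g : G, g • q = q → g * g = 1 → g = 1) →
    ∀ k : ℕ, 1 ≤ k →
    (∀ (u v : V) (W : Γ.Walk u v), W.IsPath → W.length = 2 * k →
      (∀ e ∈ W.edges, ∃ g : G, e = s(g • p, g • q)) → (∃ g : G, g • u = v ∧ g • v = u) →
      ∀ H : Subgroup G, H ≤ MulAction.stabilizer G u ⊓ MulAction.stabilizer G v → H.FG →
        IsVT H) →
    ∀ (χ : G →* ℤˣ) (ε : ℤ), (ε = 1 ∨ ε = -1) → ∀ (n : Type) [Fintype n] [DecidableEq n]
      (x : QForm A χ ε p q n), StablyHyperbolic χ ε (induced x)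

end Pool.Agent.MIX
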