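import Mathlib
import Pool.Agent.Lib.MIX.FinalDefs

/-!
# UNil forms and reversible lines: definitions
-/

set_option autoImplicit false

open MonoidAlgebra Pool.Agent.Lib.MP_98022b_UM.UF Pool.Agent.UP25

namespace Pool.Agent.MIX

universe u v w

/-- `u` and `v` are the two halves of a reversible line: `u 0 = v 0`, the sequences `u` and `v` are
rays which consist of translates of the edge `{p, q}`, the distance of `u k` and `v k` is `2 k`, and
for every `k` the segment `[u k, v k]` is reversed by an element of `G`. -/
structure ReversibleLine (G : Type v) [Group G] {V : Type w} [MulAction G V] (Γ : SimpleGraph V)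
    (p q : V) (u v : ℕ → V) : Prop where
  start : u 0 = v 0
  adjU : ∀ k, Γ.Adj (u k) (u (k + 1))
  adjV : ∀ k, Γ.Adj (v k) (v (k + 1))
  edgeU : ∀ k, ∃ g : G, s(u k, u (k + 1)) = s(g • p, g • q)
  edgeV : ∀ k, ∃ g : G, s(v k, v (k + 1)) = s(g • p, g • q)
  dist : ∀ k, Γ.dist (u k) (v k) = 2 * k
  rev : ∀ k, ∃ g : G, g • u k = v k ∧ g • v k = u k

/-- `A` has the vanishing property: let `G` act on a tree, let `{p, q}` be an edge which is not
inverted, such that the vertex groups `G_p` and `G_q` have no elements of order two, and such that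
**every reversible line of translates of `{p, q}` has a central segment `[u, v]`** (whose length may
depend on the line) such that all finitely generated subgroups of `G_u ∩ G_v` are torsion-free and
have a subgroup of finite index which acts on a locally finite tree with virtually poly-`ℤ`
stabilisers of bounded length.  Then every `ε`-quadratic UNil form of this edge over
`A[G_p ∩ G_q]` becomes hyperbolic over `A[G]` after adding a hyperbolic form. -/
def UNilVanishesL (A : Type u) [CommRing A] [StarRing A] : Prop :=
  ∀ (G : Type v) [Group G] (V : Type w) [MulAction G V] (Γ : SimpleGraph V), Γ.IsTree →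
    (∀ (g : G) (x y : V), Γ.Adj x y → Γ.Adj (g • x) (g • y)) →
    ∀ p q : V, Γ.Adj p q → (∀ g : G, ¬ (g • p = q ∧ g • q = p)) →
    (∀ g : G, g • p = p → g * g = 1 → g = 1) → (∀ g : G, g • q = q → g * g = 1 → g = 1) →
    (∀ u v : ℕ → V, ReversibleLine G Γ p q u v → ∃ k, 1 ≤ k ∧
      ∀ H : Subgroup G, H ≤ MulAction.stabilizer G (u k) ⊓ MulAction.stabilizer G (v k) → H.FG →
        IsVT H) →
    ∀ (χ : G →* ℤˣ) (ε : ℤ), (ε = 1 ∨ ε = -1) → ∀ (n : Type) [Fintype n] [DecidableEq n]
      (x : QForm A χ ε p q n), StablyHyperbolic χ ε (induced x)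

end Pool.Agent.MIX
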