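import Mathlib
import Pool.Agent.Lib.MIX.LineDefs

/-!
# UNil forms and reversible lines, all coefficient rings: definitions
-/

set_option autoImplicit false

open MonoidAlgebra Pool.Agent.Lib.MP_98022b_UM.UF Pool.Agent.UP25

namespace Pool.Agent.MIX

universe u v w

/-- `A` is a Noetherian domain such that either (a Dedekind domain) images of maps between finitely
generated free modules are projective, or `A` is factorial and kernels of maps between finitely
generated free modules are projective -/
structure GoodRing (A : Type u) [CommRing A] : Prop where
  dom : IsDomain A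
  noeth : IsNoetherianRing A
  reg : (∀ (k l : ℕ) (f : (Fin k → A) →ₗ[A] (Fin l → A)),
      Module.Projective A (LinearMap.range f)) ∨
    (UniqueFactorizationMonoid A ∧ ∀ (k l : ℕ) (f : (Fin k → A) →ₗ[A] (Fin l → A)),
      Module.Projective A (LinearMap.ker f))

/-- `A` has the vanishing property: let `G` act on a tree, let `{p, q}` be an edge which is not
inverted, such that the vertex groups `G_p` and `G_q` have no elements of order two.  Suppose that,
**if there are reversible lines of translates of `{p, q}` at all**, `A` is good and every reversible
line has a central segment `[u, v]` (whose length may depend on the line) such that all finitely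
generated subgroups of `G_u ∩ G_v` are torsion-free and have a subgroup of finite index which acts
on a locally finite tree with virtually poly-`ℤ` stabilisers of bounded length.  Then every
`ε`-quadratic UNil form of this edge over `A[G_p ∩ G_q]` becomes hyperbolic over `A[G]` after adding
a hyperbolic form. -/
def UNilVanishesA (A : Type u) [CommRing A] [StarRing A] : Prop :=
  ∀ (G : Type v) [Group G] (V : Type w) [MulAction G V] (Γ : SimpleGraph V), Γ.IsTree →
    (∀ (g : G) (x y : V), Γ.Adj x y → Γ.Adj (g • x) (g • y)) →
    ∀ p q : V, Γ.Adj p q → (∀ g : G, ¬ (g • p = q ∧ g • q = p)) →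
    (∀ g : G, g • p = p → g * g = 1 → g = 1) → (∀ g : G, g • q = q → g * g = 1 → g = 1) →
    (∀ u v : ℕ → V, ReversibleLine G Γ p q u v → GoodRing A ∧ ∃ k, 1 ≤ k ∧
      ∀ H : Subgroup G, H ≤ MulAction.stabilizer G (u k) ⊓ MulAction.stabilizer G (v k) → H.FG →
        IsVT H) →
    ∀ (χ : G →* ℤˣ) (ε : ℤ), (ε = 1 ∨ ε = -1) → ∀ (n : Type) [Fintype n] [DecidableEq n]
      (x : QForm A χ ε p q n), StablyHyperbolic χ ε (induced x)

end Pool.Agent.MIX
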