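import Mathlib
import Pool.Agent.Lib.MP_98022b_UM.BFL
import Pool.Agent.Lib.MP_98022b_UM.Red

/-!
# Reversed segments: definitions

`Λ = MonoidAlgebra A G`, matrices act on rows.  Quadratic forms are matrices modulo the matrices
`y - ε y*`.
-/

set_option autoImplicit false

open MonoidAlgebra Pool.Agent.Lib.MP_98022b_UN Pool.Agent.Lib.MP_98022b_UM

namespace Pool.Agent.MIX

universe u v w w'

section
variable {A : Type u} {G : Type v} [CommRing A] [Group G]

/-- equality of quadratic forms -/
def QEq (β : BarStr A G) (ε : ℤ) {I : Type} (θ θ' : Matrix I I (MonoidAlgebra A G)) : Prop :=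
  ∃ y : Matrix I I (MonoidAlgebra A G), θ = θ' + (y - ε • adj β y)

/-- isometry of quadratic forms -/
def Iso (β : BarStr A G) (ε : ℤ) {I J : Type} [Fintype I] [DecidableEq I] [Fintype J]
    [DecidableEq J] (θ : Matrix I I (MonoidAlgebra A G)) (θ' : Matrix J J (MonoidAlgebra A G)) :
    Prop :=
  ∃ (U : Matrix I J (MonoidAlgebra A G)) (V : Matrix J I (MonoidAlgebra A G)),
    U * V = 1 ∧ V * U = 1 ∧ QEq β ε (U * θ' * adj β U) θ

/-- the hyperbolic form -/
noncomputable def hyp (A : Type u) (G : Type v) [CommRing A] [Group G] (J : Type)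
    [DecidableEq J] : Matrix (J ⊕ J) (J ⊕ J) (MonoidAlgebra A G) :=
  Matrix.fromBlocks 0 1 0 0

/-- stably hyperbolic forms -/
def SHyp (β : BarStr A G) (ε : ℤ) {I : Type} [Fintype I] [DecidableEq I]
    (θ : Matrix I I (MonoidAlgebra A G)) : Prop :=
  ∃ m n : ℕ, Iso β ε (Matrix.fromBlocks θ 0 0 (hyp A G (Fin m))) (hyp A G (Fin n))

end

section
variable {A : Type u} {Ω : Type w} {G : Type v} [CommRing A] [Group G] {E : BSys Ω G}
  {β : BarStr A G} {ε : ℤ}

/-- typed halves of the matrices of a form -/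
structure Halves (X : BF E β ε) (H : Bool → Matrix X.K X.K (MonoidAlgebra A G)) : Prop where
  on : ∀ b, OnS E b X.t X.t (H b)
  eq : ∀ b, X.M b = H b + ε • adj β (H b)

/-- the form `[[M true, 1], [ε, M false]]` over `Λ` is stably hyperbolic -/
def WT (X : BF E β ε) : Prop :=
  ∃ H : Bool → Matrix X.K X.K (MonoidAlgebra A G), Halves X H ∧
    SHyp β ε (Matrix.fromBlocks (H true) 1 0 (H false))

open Classical in
/-- the projector on the indices whose label belongs to `U` -/
noncomputable def dl (A : Type u) (G : Type v) [CommRing A] [Group G] {K : Type} [DecidableEq K]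
    (t : K → Ω) (U : Ω → Prop) : Matrix K K (MonoidAlgebra A G) :=
  Matrix.diagonal fun k => if U (t k) then 1 else 0

/-- alternating products with label projectors inserted -/
noncomputable def wP {K : Type} [Fintype K] [DecidableEq K] (t : K → Ω)
    (M : Bool → Matrix K K (MonoidAlgebra A G)) : (ℕ → Ω → Prop) → ℕ → Bool →
    Matrix K K (MonoidAlgebra A G)
  | _, 0, _ => 1
  | U, n + 1, b => dl A G t (U 0) * M b * wP t M (fun i => U (i + 1)) n (!b)

end

section
variable {Ω : Type w} {G : Type v} [Group G]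

/-- a word determines its length -/
def Len (E : BSys Ω G) : Prop := ∀ (m m' : ℕ) (b : Bool) (ω ω' : Ω) (g : G),
  g ∈ E.W m b ω ω' → g ∈ E.W m' b ω ω' → m = m'

/-- the letters of side `b` exchange the two halves of the set of objects -/
def Spl (E : BSys Ω G) (b : Bool) (h : Ω → Bool) : Prop :=
  ∀ (ω ω' : Ω) (g : G), g ∈ E.S b ω ω' → h ω' = !(h ω)

/-- words `f t f t ... f` (`f` of side `false`, `t` of side `true`) whose inner objects
satisfy `N` -/
def inW (E : BSys Ω G) (N : Ω → Prop) : ℕ → Ω → Ω → Set G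
  | 0, ω, ω' => E.S false ω ω'
  | k + 1, ω, ω' => {g | ∃ ρ ρ', N ρ ∧ N ρ' ∧ ∃ s ∈ E.S false ω ρ, ∃ t ∈ E.S true ρ ρ',
      ∃ u ∈ inW E N k ρ' ω', s * t * u = g}

end

end Pool.Agent.MIX
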