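import Mathlib
import Pool.Agent.Lib.MIX.Defs

/-! API of the label projectors. -/

set_option autoImplicit false

open MonoidAlgebra Pool.Agent.Lib.MP_98022b_UN Pool.Agent.Lib.MP_98022b_UM

namespace Pool.Agent.MIX

universe u v w w'

section
variable {A : Type u} {Ω : Type w} {G : Type v} [CommRing A] [Group G]
  {J K : Type} [Fintype K] [DecidableEq K] {t : K → Ω}

theorem dl_apply (U : Ω → Prop) (i j : K) [Decidable (i = j ∧ U (t i))] :
    dl A G t U i j = if i = j ∧ U (t i) then 1 else 0 := by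
  unfold dl
  rw [Matrix.diagonal_apply]
  by_cases h : i = j
  · subst h
    by_cases h1 : U (t i)
    · rw [if_pos rfl, if_pos h1, if_pos ⟨rfl, h1⟩]
    · rw [if_pos rfl, if_neg h1, if_neg fun h2 => h1 h2.2]
  · rw [if_neg h, if_neg fun h2 => h h2.1]

theorem dl_mul_apply (U : Ω → Prop) (M : Matrix K J (MonoidAlgebra A G)) (i : K) (j : J)
    [Decidable (U (t i))] : (dl A G t U * M) i j = if U (t i) then M i j else 0 := by
  unfold dl
  rw [Matrix.diagonal_mul]
  by_cases h : U (t i)
  · rw [if_pos h, if_pos h, one_mul]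
  · rw [if_neg h, if_neg h, zero_mul]

theorem mul_dl_apply (U : Ω → Prop) (M : Matrix J K (MonoidAlgebra A G)) (i : J) (j : K)
    [Decidable (U (t j))] : (M * dl A G t U) i j = if U (t j) then M i j else 0 := by
  unfold dl
  rw [Matrix.mul_diagonal]
  by_cases h : U (t j)
  · rw [if_pos h, if_pos h, mul_one]
  · rw [if_neg h, if_neg h, mul_zero]

theorem adj_dl (β : BarStr A G) (U : Ω → Prop) : adj β (dl A G t U) = dl A G t U := by
  classical
  funext i j
  show β.bar (dl A G t U j i) = dl A G t U i j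
  rw [dl_apply, dl_apply]
  by_cases h : i = j
  · subst h
    by_cases h1 : U (t i)
    · rw [if_pos ⟨rfl, h1⟩, bar_one]
    · rw [if_neg fun h2 => h1 h2.2, bar_zero]
  · rw [if_neg fun h2 => h h2.1.symm, if_neg fun h2 => h h2.1, bar_zero]

theorem dl_mul_dl (U U' : Ω → Prop) :
    dl A G t U * dl A G t U' = dl A G t (fun ω => U ω ∧ U' ω) := by
  classical
  funext i j
  rw [dl_mul_apply, dl_apply, dl_apply]
  by_cases h : i = j
  · subst h
    by_cases h1 : U (t i) <;> by_cases h2 : U' (t i) <;> simp [h1, h2]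
  · simp [h]

/-- moving a projector through a matrix -/
theorem mul_dl_eq {J : Type} [Fintype J] [DecidableEq J] {s : J → Ω}
    {M : Matrix K J (MonoidAlgebra A G)} {U U' : Ω → Prop}
    (h : ∀ i j g, (M i j).coeff g ≠ 0 → (U (s j) ↔ U' (t i))) :
    M * dl A G s U = dl A G t U' * M := by
  classical
  funext i j
  rw [mul_dl_apply, dl_mul_apply]
  by_cases h0 : M i j = 0
  · rw [h0]
    simp
  · have : ∃ g, (M i j).coeff g ≠ 0 := by
      by_contra hc
      push Not at hc
      exact h0 (by ext g; simpa using hc g)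
    obtain ⟨g, hg⟩ := this
    by_cases h1 : U (s j)
    · rw [if_pos h1, if_pos ((h i j g hg).1 h1)]
    · rw [if_neg h1, if_neg fun h2 => h1 ((h i j g hg).2 h2)]

theorem dl_or {U U' : Ω → Prop} (h : ∀ ω, ¬ (U ω ∧ U' ω)) :
    dl A G t U + dl A G t U' = dl A G t (fun ω => U ω ∨ U' ω) := by
  classical
  funext i j
  rw [Matrix.add_apply, dl_apply, dl_apply, dl_apply]
  by_cases h0 : i = j
  · by_cases h1 : U (t i)
    · have h2 : ¬ U' (t i) := fun h2 => h _ ⟨h1, h2⟩
      simp [h0, h1, h2]
      subst h0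
      simp [h1, h2]
    · subst h0
      by_cases h2 : U' (t i) <;> simp [h1, h2]
  · simp [h0]

theorem dl_true : dl A G t (fun _ => True) = 1 := by
  classical
  funext i j
  rw [dl_apply]
  by_cases h : i = j
  · subst h
    rw [if_pos ⟨rfl, trivial⟩, Matrix.one_apply_eq]
  · rw [if_neg fun h2 => h h2.1, Matrix.one_apply_ne h]

end

section
variable {A : Type u} {Ω : Type w} {G : Type v} [CommRing A] [Group G] {E : BSys Ω G}
  {I K : Type} [Fintype K] [DecidableEq K] {t : K → Ω} {s : I → Ω}

theorem OnS.dl_mul {b : Bool} {U : Ω → Prop} {M : Matrix K I (MonoidAlgebra A G)}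
    (h : OnS E b t s M) : OnS E b t s (dl A G t U * M) := by
  classical
  intro i j g hg
  rw [dl_mul_apply] at hg
  by_cases h1 : U (t i)
  · rw [if_pos h1] at hg
    exact h i j g hg
  · rw [if_neg h1] at hg
    exact absurd rfl hg

end

end Pool.Agent.MIX
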