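import Pool.Agent.Lib.MP_98022b_UN.AdjL
import Pool.Agent.Lib.MIX.Defs

/-!
# Elimination formula for quadratic forms (row M2 of MIX, helper15)

Quadratic forms over `Λ = A[G]` are square matrices `θ`, taken modulo `x - ε x*`; a change of basis
`U` acts by `U θ U*` (row convention). `EIso β ε θ θ'` says that `θ` and `θ'` are isometric
(`Iso` with the two forms exchanged).
If `φ' = θ' + ε θ'*` has the inverse `ψ`, then
`θ' ⊕ [[σ, 1], [0, D]] ≅ (θ' + V σ V*) ⊕ [[σ, 1], [0, 0]]`, where `D = - V* ψ* θ' ψ V`.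
-/

set_option autoImplicit false

open MonoidAlgebra Pool.Agent.Lib.MP_98022b_UN

namespace Pool.Agent.MIX

universe u v

section

variable {A : Type u} {G : Type v} [CommRing A] [Group G] {β : BarStr A G} {ε : ℤ}

/-- isometry of quadratic forms over `A[G]` -/
def EIso (β : BarStr A G) (ε : ℤ) {I J : Type} [Fintype I] [DecidableEq I] [Fintype J]
    [DecidableEq J] (θ : Matrix I I (MonoidAlgebra A G)) (θ' : Matrix J J (MonoidAlgebra A G)) :
    Prop :=
  ∃ (U : Matrix J I (MonoidAlgebra A G)) (U' : Matrix I J (MonoidAlgebra A G))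
    (x : Matrix J J (MonoidAlgebra A G)), U * U' = 1 ∧ U' * U = 1 ∧
    U * θ * adj β U = θ' + (x - ε • adj β x)

section
variable {I J K : Type} [Fintype I] [DecidableEq I] [Fintype J] [DecidableEq J] [Fintype K]
  [DecidableEq K]

theorem EIso.refl (θ : Matrix I I (MonoidAlgebra A G)) : EIso β ε θ θ :=
  ⟨1, 1, 0, by simp, by simp, by rw [adj_one, adj_zero]; simp⟩

theorem EIso.of_eq {θ θ' x : Matrix I I (MonoidAlgebra A G)} (h : θ = θ' + (x - ε • adj β x)) :
    EIso β ε θ θ' :=
  ⟨1, 1, x, by simp, by simp, by rw [adj_one, Matrix.one_mul, Matrix.mul_one, h]⟩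

theorem EIso.conj {θ : Matrix I I (MonoidAlgebra A G)} {θ' : Matrix J J (MonoidAlgebra A G)}
    (U : Matrix J I (MonoidAlgebra A G)) (U' : Matrix I J (MonoidAlgebra A G)) (h1 : U * U' = 1)
    (h2 : U' * U = 1) (h : U * θ * adj β U = θ') : EIso β ε θ θ' :=
  ⟨U, U', 0, h1, h2, by rw [h, adj_zero]; simp⟩

theorem EIso.trans {θ : Matrix I I (MonoidAlgebra A G)} {θ' : Matrix J J (MonoidAlgebra A G)}
    {θ'' : Matrix K K (MonoidAlgebra A G)} (h : EIso β ε θ θ') (h' : EIso β ε θ' θ'') :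
    EIso β ε θ θ'' := by
  obtain ⟨U, U', x, e1, e2, e3⟩ := h
  obtain ⟨V, V', y, f1, f2, f3⟩ := h'
  refine ⟨V * U, U' * V', y + V * x * adj β V, ?_, ?_, ?_⟩
  · calc V * U * (U' * V') = V * (U * U') * V' := by simp only [Matrix.mul_assoc]
      _ = 1 := by rw [e1, Matrix.mul_one, f1]
  · calc U' * V' * (V * U) = U' * (V' * V) * U := by simp only [Matrix.mul_assoc]
      _ = 1 := by rw [f2, Matrix.mul_one, e2]
  · have h1 : adj β (V * x * adj β V) = V * adj β x * adj β V := by
      rw [adj_mul, adj_mul, adj_adj, Matrix.mul_assoc]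
    calc V * U * θ * adj β (V * U) = V * (U * θ * adj β U) * adj β V := by
          rw [adj_mul]; simp only [Matrix.mul_assoc]
      _ = V * θ' * adj β V + (V * x * adj β V - ε • (V * adj β x * adj β V)) := by
          rw [e3, Matrix.mul_add, Matrix.add_mul, Matrix.mul_sub, Matrix.sub_mul, Matrix.mul_smul,
            Matrix.smul_mul]
      _ = θ'' + (y + V * x * adj β V - ε • adj β (y + V * x * adj β V)) := by
          rw [f3, adj_add, h1, smul_add]; abel

theorem EIso.symm {θ : Matrix I I (MonoidAlgebra A G)} {θ' : Matrix J J (MonoidAlgebra A G)}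
    (h : EIso β ε θ θ') : EIso β ε θ' θ := by
  obtain ⟨U, U', x, e1, e2, e3⟩ := h
  refine ⟨U', U, -(U' * x * adj β U'), e2, e1, ?_⟩
  have h2 : adj β U * adj β U' = 1 := by rw [← adj_mul, e2, adj_one]
  have h3 : U' * (U * θ * adj β U) * adj β U' = θ := by
    calc U' * (U * θ * adj β U) * adj β U' = (U' * U) * θ * (adj β U * adj β U') := by
          simp only [Matrix.mul_assoc]
      _ = θ := by rw [e2, h2, Matrix.one_mul, Matrix.mul_one]
  have h4 : adj β (-(U' * x * adj β U')) = -(U' * adj β x * adj β U') := by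
    rw [adj_neg, adj_mul, adj_mul, adj_adj, Matrix.mul_assoc]
  rw [e3, Matrix.mul_add, Matrix.add_mul, Matrix.mul_sub, Matrix.sub_mul, Matrix.mul_smul,
    Matrix.smul_mul] at h3
  rw [h4, smul_neg, ← h3]; abel

/-- the off-diagonal blocks of a quadratic form may be moved to the upper right block -/
theorem EIso.upper {L : Type} [Fintype L] [DecidableEq L] (a : Matrix I I (MonoidAlgebra A G))
    (b : Matrix I L (MonoidAlgebra A G)) (c : Matrix L I (MonoidAlgebra A G))
    (d : Matrix L L (MonoidAlgebra A G)) :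
    EIso β ε (Matrix.fromBlocks a b c d) (Matrix.fromBlocks a (b + ε • adj β c) 0 d) := by
  refine EIso.of_eq (x := Matrix.fromBlocks 0 0 c 0) ?_
  rw [adj_fromBlocks, adj_zero, adj_zero, adj_zero, Matrix.fromBlocks_smul]
  funext i j
  rcases i with i | i <;> rcases j with j | j <;> simp [-zsmul_eq_mul]

theorem EIso.dsum {I' J' : Type} [Fintype I'] [DecidableEq I'] [Fintype J'] [DecidableEq J']
    {θ : Matrix I I (MonoidAlgebra A G)} {θ' : Matrix J J (MonoidAlgebra A G)}
    {η : Matrix I' I' (MonoidAlgebra A G)} {η' : Matrix J' J' (MonoidAlgebra A G)}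
    (h : EIso β ε θ θ') (h' : EIso β ε η η') :
    EIso β ε (Matrix.fromBlocks θ 0 0 η) (Matrix.fromBlocks θ' 0 0 η') := by
  obtain ⟨U, U', x, e1, e2, e3⟩ := h
  obtain ⟨V, V', y, f1, f2, f3⟩ := h'
  refine ⟨Matrix.fromBlocks U 0 0 V, Matrix.fromBlocks U' 0 0 V', Matrix.fromBlocks x 0 0 y,
    ?_, ?_, ?_⟩
  · rw [Matrix.fromBlocks_multiply, e1, f1]; simp
  · rw [Matrix.fromBlocks_multiply, e2, f2]; simp
  · rw [adj_fromBlocks, adj_fromBlocks, adj_zero, adj_zero, adj_zero, adj_zero,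
      Matrix.fromBlocks_multiply, Matrix.fromBlocks_multiply]
    simp only [Matrix.mul_zero, Matrix.zero_mul, add_zero, zero_add]
    rw [e3, f3, Matrix.fromBlocks_smul]
    funext i j
    rcases i with i | i <;> rcases j with j | j <;> simp [-zsmul_eq_mul]

/-- the sum of a form with a metabolic plane is the sum with a hyperbolic plane -/
theorem EIso.plane (σ : Matrix J J (MonoidAlgebra A G)) :
    EIso β ε (Matrix.fromBlocks σ (1 : Matrix J J (MonoidAlgebra A G)) 0 0)
      (Matrix.fromBlocks 0 (1 : Matrix J J (MonoidAlgebra A G)) 0 0) := by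
  refine EIso.conj (Matrix.fromBlocks 1 (-adj β σ) 0 1) (Matrix.fromBlocks 1 (adj β σ) 0 1)
    ?_ ?_ ?_
  · rw [Matrix.fromBlocks_multiply]; simp
  · rw [Matrix.fromBlocks_multiply]; simp
  · rw [adj_fromBlocks, adj_neg, adj_adj, adj_one, adj_zero, Matrix.fromBlocks_multiply,
      Matrix.fromBlocks_multiply]
    simp

/-- **Elimination formula.** -/
theorem eiso_elim (hε : ε = 1 ∨ ε = -1) {θ ψ : Matrix I I (MonoidAlgebra A G)}
    (h1 : (θ + ε • adj β θ) * ψ = 1) (h2 : ψ * (θ + ε • adj β θ) = 1)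
    (V : Matrix I J (MonoidAlgebra A G)) (σ D : Matrix J J (MonoidAlgebra A G))
    (hD : ∃ y : Matrix J J (MonoidAlgebra A G),
      D = -(adj β V * adj β ψ * θ * ψ * V) + (y - ε • adj β y)) :
    EIso β ε (Matrix.fromBlocks θ 0 0 (Matrix.fromBlocks σ 1 0 D))
      (Matrix.fromBlocks (θ + V * σ * adj β V) 0 0
        (Matrix.fromBlocks σ (1 : Matrix J J (MonoidAlgebra A G)) 0 0)) := by
  have hεε : ε * ε = 1 := by rcases hε with rfl | rfl <;> norm_num
  obtain ⟨y, rfl⟩ := hD
  set a : Matrix J I (MonoidAlgebra A G) := adj β V * adj β ψ with ha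
  have haa : adj β a = ψ * V := by rw [ha, adj_mul, adj_adj, adj_adj]
  set D₀ : Matrix J J (MonoidAlgebra A G) := -(a * θ * ψ * V) with hD₀
  -- replace `D` by `D₀`
  have s0 : EIso β ε (Matrix.fromBlocks θ 0 0 (Matrix.fromBlocks σ 1 0 (D₀ + (y - ε • adj β y))))
      (Matrix.fromBlocks θ 0 0 (Matrix.fromBlocks σ 1 0 D₀)) := by
    refine (EIso.refl θ).dsum (EIso.of_eq (x := Matrix.fromBlocks 0 0 0 y) ?_)
    rw [adj_fromBlocks, adj_zero, Matrix.fromBlocks_smul]
    funext i j
    rcases i with i | i <;> rcases j with j | j <;> simp [-zsmul_eq_mul]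
  refine s0.trans ?_
  -- first step: make the second vector of the plane isotropic
  set r : Matrix (J ⊕ J) I (MonoidAlgebra A G) := Matrix.fromRows 0 a with hr
  have hra : adj β r = Matrix.fromCols 0 (ψ * V) := by rw [hr, adj_fromRows, adj_zero, haa]
  set N : Matrix (J ⊕ J) (J ⊕ J) (MonoidAlgebra A G) := Matrix.fromBlocks σ 1 0 D₀ with hN
  have s1 : EIso β ε (Matrix.fromBlocks θ 0 0 N)
      (Matrix.fromBlocks θ (θ * adj β r) (r * θ) (r * θ * adj β r + N)) := by
    refine EIso.conj (Matrix.fromBlocks 1 0 r 1) (Matrix.fromBlocks 1 0 (-r) 1) ?_ ?_ ?_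
    · rw [Matrix.fromBlocks_multiply]; simp
    · rw [Matrix.fromBlocks_multiply]; simp
    · rw [adj_fromBlocks, adj_zero, adj_one, adj_one, Matrix.fromBlocks_multiply,
        Matrix.fromBlocks_multiply]
      simp
  refine s1.trans ((EIso.upper _ _ _ _).trans ?_)
  have e1 : θ * adj β r + ε • adj β (r * θ) = Matrix.fromCols 0 V := by
    rw [adj_mul, ← Matrix.smul_mul, ← Matrix.add_mul, hra, Matrix.mul_fromCols, Matrix.mul_zero,
      ← Matrix.mul_assoc, h1, Matrix.one_mul]
  have e2 : r * θ * adj β r + N = Matrix.fromBlocks σ 1 0 0 := by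
    have h3 : r * θ * adj β r = Matrix.fromBlocks 0 0 0 (a * θ * (ψ * V)) := by
      rw [hra, hr, Matrix.fromRows_mul, Matrix.zero_mul, Matrix.fromRows_mul_fromCols]
      simp
    rw [h3, hN, Matrix.fromBlocks_add, hD₀, ← Matrix.mul_assoc (a * θ) ψ V]
    simp
  rw [e1, e2]
  -- second step: make the first summand orthogonal to the plane
  set c : Matrix I J (MonoidAlgebra A G) := ε • (V * (σ + ε • adj β σ)) with hc
  set s : Matrix I (J ⊕ J) (MonoidAlgebra A G) := Matrix.fromCols (-V) c with hs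
  set N' : Matrix (J ⊕ J) (J ⊕ J) (MonoidAlgebra A G) := Matrix.fromBlocks σ 1 0 0 with hN'
  set w : Matrix I (J ⊕ J) (MonoidAlgebra A G) := Matrix.fromCols 0 V with hw
  have s2 : EIso β ε (Matrix.fromBlocks θ w 0 N')
      (Matrix.fromBlocks (θ + (w + s * N') * adj β s) (w + s * N') (N' * adj β s) N') := by
    refine EIso.conj (Matrix.fromBlocks 1 s 0 1) (Matrix.fromBlocks 1 (-s) 0 1) ?_ ?_ ?_
    · rw [Matrix.fromBlocks_multiply]; simp
    · rw [Matrix.fromBlocks_multiply]; simp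
    · rw [adj_fromBlocks, adj_zero, adj_one, adj_one, Matrix.fromBlocks_multiply,
        Matrix.fromBlocks_multiply]
      simp
  refine s2.trans ((EIso.upper _ _ _ _).trans ?_)
  have e3 : s * N' = Matrix.fromCols (-(V * σ)) (-V) := by
    rw [hs, hN', Matrix.fromCols_mul_fromBlocks]; simp
  have e4 : w + s * N' + ε • adj β (N' * adj β s) = 0 := by
    have h3 : adj β (N' * adj β s) = Matrix.fromCols (-V * adj β σ + c) 0 := by
      rw [adj_mul, adj_adj, hs, hN', adj_fromBlocks, adj_one, adj_zero,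
        Matrix.fromCols_mul_fromBlocks]
      simp
    rw [e3, h3, hw]
    funext i j
    rcases j with j | j
    · have : V * σ = ε • (-V * adj β σ + c) := by
        rw [hc, smul_add, smul_smul, hεε, one_smul, Matrix.mul_add, Matrix.mul_smul,
          Matrix.neg_mul, smul_neg]
        abel
      simp [this]
    · simp
  have e5 : (w + s * N') * adj β s = V * σ * adj β V := by
    rw [e3, hw, hs, adj_fromCols, adj_neg]
    have h3 : (Matrix.fromCols 0 V + Matrix.fromCols (-(V * σ)) (-V) :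
        Matrix I (J ⊕ J) (MonoidAlgebra A G)) = Matrix.fromCols (-(V * σ)) 0 := by
      funext i j
      rcases j with j | j <;> simp
    rw [h3, Matrix.fromCols_mul_fromRows]
    simp
  rw [e4, e5]
  exact EIso.refl _

theorem EIso.iso {θ : Matrix I I (MonoidAlgebra A G)} {θ' : Matrix J J (MonoidAlgebra A G)}
    (h : EIso β ε θ θ') : Iso β ε θ' θ := by
  obtain ⟨U, U', x, e1, e2, e3⟩ := h
  exact ⟨U, U', e1, e2, x, e3⟩

/-- Row M2. -/
theorem elim (hε : ε = 1 ∨ ε = -1) (θ ψ : Matrix I I (MonoidAlgebra A G))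
    (h1 : (θ + ε • adj β θ) * ψ = 1) (h2 : ψ * (θ + ε • adj β θ) = 1)
    (V : Matrix I J (MonoidAlgebra A G)) (s : Matrix J J (MonoidAlgebra A G)) :
    Iso β ε
      (Matrix.fromBlocks θ 0 0 (Matrix.fromBlocks s 1 0 (-(adj β V * (ψ * θ * adj β ψ) * V))))
      (Matrix.fromBlocks (θ + V * s * adj β V) 0 0
        (Matrix.fromBlocks s (1 : Matrix J J (MonoidAlgebra A G)) 0 0)) := by
  have hεε : ε * ε = 1 := by rcases hε with rfl | rfl <;> norm_num
  -- `ψ* = ε ψ`
  have h3 : adj β ψ * (ε • (θ + ε • adj β θ)) = 1 := by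
    have h := congrArg (adj β) h1
    rw [adj_mul, adj_one, adj_add, adj_zsmul, adj_adj] at h
    rw [smul_add, smul_smul, hεε, one_smul, add_comm, h]
  have h6 : (ε • (θ + ε • adj β θ)) * (ε • ψ) = 1 := by
    rw [Matrix.smul_mul, Matrix.mul_smul, smul_smul, hεε, one_smul, h1]
  have h4 : adj β ψ = ε • ψ := by
    calc adj β ψ = adj β ψ * ((ε • (θ + ε • adj β θ)) * (ε • ψ)) := by
          rw [h6, Matrix.mul_one]
      _ = ε • ψ := by rw [← Matrix.mul_assoc, h3, Matrix.one_mul]
  have h5 : -(adj β V * (ψ * θ * adj β ψ) * V) = -(adj β V * adj β ψ * θ * ψ * V) := by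
    rw [h4]
    simp only [Matrix.mul_smul, Matrix.smul_mul, Matrix.mul_assoc]
  rw [h5]
  exact (eiso_elim hε h1 h2 V s _ ⟨0, by rw [adj_zero]; simp⟩).symm.iso

end

end

end Pool.Agent.MIX
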