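import Mathlib
import Pool.Agent.Lib.MIX.Defs
import Pool.Agent.Lib.MP_98022b_UM.WL
import Pool.Agent.Lib.MP_98022b_UM.Red

/-!
# MIX, row M6: the system of the self-dual objects

`N` is the predicate of the objects which are eliminated (those which are not self-dual).
-/

set_option autoImplicit false

open MonoidAlgebra

namespace Pool.Agent.MIX

open Pool.Agent.Lib.MP_98022b_UM Pool.Agent.Lib.MP_98022b_UN

universe v w w'

section
variable {Ω : Type w} {G : Type v} [Group G]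

variable {E : BSys Ω G} {N : Ω → Prop}

theorem inW_left {k : ℕ} {ω ω' : Ω} {f g : G} (hf : f ∈ E.F ω) (hg : g ∈ inW E N k ω ω') :
    f * g ∈ inW E N k ω ω' := by
  cases k with
  | zero => exact E.left' hf hg
  | succ k =>
    obtain ⟨ρ, ρ', h1, h2, s, hs, t, ht, u, hu, rfl⟩ := hg
    exact ⟨ρ, ρ', h1, h2, f * s, E.left' hf hs, t, ht, u, hu, by simp only [mul_assoc]⟩

theorem inW_snoc {k : ℕ} : ∀ {ω ω' ρ ρ' : Ω} {g t s : G}, g ∈ inW E N k ω ρ → N ρ → N ρ' →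
    t ∈ E.S true ρ ρ' → s ∈ E.S false ρ' ω' → g * t * s ∈ inW E N (k + 1) ω ω' := by
  induction k with
  | zero =>
    intro ω ω' ρ ρ' g t s hg h1 h2 ht hs
    exact ⟨ρ, ρ', h1, h2, g, hg, t, ht, s, hs, rfl⟩
  | succ k ih =>
    intro ω ω' ρ ρ' g t s hg h1 h2 ht hs
    obtain ⟨σ, σ', h3, h4, x, hx, y, hy, u, hu, rfl⟩ := hg
    exact ⟨σ, σ', h3, h4, x, hx, y, hy, u * t * s, ih hu h1 h2 ht hs, by
      simp only [mul_assoc]⟩

theorem inW_inv {k : ℕ} : ∀ {ω ω' : Ω} {g : G}, g ∈ inW E N k ω ω' →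
    g⁻¹ ∈ inW E N k ω' ω := by
  induction k with
  | zero => exact fun hg => E.inv' hg
  | succ k ih =>
    intro ω ω' g hg
    obtain ⟨ρ, ρ', h1, h2, s, hs, t, ht, u, hu, rfl⟩ := hg
    have h := inW_snoc (ih hu) h2 h1 (E.inv' ht) (E.inv' hs)
    have e : (s * t * u)⁻¹ = u⁻¹ * t⁻¹ * s⁻¹ := by group
    rw [e]
    exact h

theorem inW_W {k : ℕ} : ∀ {ω ω' : Ω} {g : G}, g ∈ inW E N k ω ω' →
    g ∈ E.W (2 * k + 1) false ω ω' := by
  induction k with
  | zero => exact fun hg => (W_one E).2 hg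
  | succ k ih =>
    intro ω ω' g hg
    obtain ⟨ρ, ρ', -, -, s, hs, t, ht, u, hu, rfl⟩ := hg
    exact ⟨ρ, s, hs, t * u, ⟨ρ', t, ht, u, ih hu, rfl⟩, (mul_assoc s t u).symm⟩

/-- the system of the objects which do not satisfy `N`: the letters of side `false` are the words
whose inner objects satisfy `N` -/
def hatSys (E : BSys Ω G) (N : Ω → Prop) : BSys {ω // ¬ N ω} G where
  F := fun ω => E.F ω.1
  S := fun b ω ω' => match b with
    | true => E.S true ω.1 ω'.1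
    | false => {g | ∃ k, g ∈ inW E N k ω.1 ω'.1}
  left' := by
    intro b ω ω' f g hf hg
    cases b
    · obtain ⟨k, hk⟩ := hg
      exact ⟨k, inW_left hf hk⟩
    · exact E.left' hf hg
  inv' := by
    intro b ω ω' g hg
    cases b
    · obtain ⟨k, hk⟩ := hg
      exact ⟨k, inW_inv hk⟩
    · exact E.inv' hg

theorem par_two_mul (k : ℕ) (b : Bool) : par (2 * k) b = b := by
  induction k with
  | zero => rfl
  | succ k ih =>
    have : 2 * (k + 1) = 2 * k + 1 + 1 := by ring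
    rw [this, par_succ', par_succ', Bool.not_not, ih]

theorem par_odd (k : ℕ) (b : Bool) : par (2 * k + 1) b = !b := by
  rw [par_succ', par_two_mul]

theorem hat_W {m : ℕ} : ∀ {b : Bool} {ω ω' : {ω // ¬ N ω}} {g : G},
    g ∈ (hatSys E N).W m b ω ω' → ∃ M, g ∈ E.W M b ω.1 ω'.1 := by
  induction m with
  | zero =>
    intro b ω ω' g hg
    exact ⟨0, hg.1, congrArg Subtype.val hg.2⟩
  | succ m ih =>
    intro b ω ω' g hg
    obtain ⟨ρ, s, hs, t, ht, rfl⟩ := hg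
    obtain ⟨M, hM⟩ := ih ht
    cases b
    · obtain ⟨k, hk⟩ := hs
      refine ⟨2 * k + 1 + M, W_mul E (inW_W hk) ?_⟩
      rw [par_odd]
      exact hM
    · exact ⟨M + 1, ρ.1, s, hs, t, hM, rfl⟩

theorem hat_core (hE : E.Geo) (hL : Len E) {ω' : Ω} : ∀ (k k' M M' : ℕ) (ω ρ ρ' : Ω)
    (s s' t t' : G), ¬ N ρ → ¬ N ρ' → s ∈ inW E N k ω ρ → s' ∈ inW E N k' ω ρ' →
    t ∈ E.W M true ρ ω' → t' ∈ E.W M' true ρ' ω' → s * t = s' * t' →
    ρ = ρ' ∧ s⁻¹ * s' ∈ E.F ρ := by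
  intro k
  induction k with
  | zero =>
    intro k' M M' ω ρ ρ' s s' t t' hρ hρ' hs hs' ht ht' e
    cases k' with
    | zero =>
      have h1 : s * t ∈ E.W (M + 1) false ω ω' := ⟨ρ, s, hs, t, ht, rfl⟩
      have h2 : s * t ∈ E.W (M' + 1) false ω ω' := ⟨ρ', s', hs', t', ht', e.symm⟩
      have h3 : M + 1 = M' + 1 := hL _ _ _ _ _ _ h1 h2
      have h4 : M = M' := by omega
      subst h4
      exact hE M false ω ω' ρ ρ' s s' t t' hs ht hs' ht' e
    | succ k' =>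
      exfalso
      obtain ⟨σ, σ', h1, h2, x, hx, y, hy, u, hu, rfl⟩ := hs'
      have h3 : s * t ∈ E.W (M + 1) false ω ω' := ⟨ρ, s, hs, t, ht, rfl⟩
      have h4 : u * t' ∈ E.W (2 * k' + 1 + M') false σ' ω' := by
        refine W_mul E (inW_W hu) ?_
        rw [par_odd]
        exact ht'
      have h5 : y * (u * t') ∈ E.W (2 * k' + 1 + M' + 1) true σ ω' := ⟨σ', y, hy, _, h4, rfl⟩
      have e1 : s * t = x * (y * (u * t')) := by rw [e]; group
      have h6 : s * t ∈ E.W (2 * k' + 1 + M' + 1 + 1) false ω ω' := ⟨σ, x, hx, _, h5, e1.symm⟩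
      have h7 : M + 1 = 2 * k' + 1 + M' + 1 + 1 := hL _ _ _ _ _ _ h3 h6
      have h8 : M = 2 * k' + 1 + M' + 1 := by omega
      subst h8
      obtain ⟨h9, -⟩ := hE _ false ω ω' ρ σ s x t _ hs ht hx h5 e1
      exact hρ (h9 ▸ h1)
  | succ k ih =>
    intro k' M M' ω ρ ρ' s s' t t' hρ hρ' hs hs' ht ht' e
    obtain ⟨σ, σ', h1, h2, x, hx, y, hy, u, hu, rfl⟩ := hs
    have h4 : u * t ∈ E.W (2 * k + 1 + M) false σ' ω' := by
      refine W_mul E (inW_W hu) ?_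
      rw [par_odd]
      exact ht
    have h5 : y * (u * t) ∈ E.W (2 * k + 1 + M + 1) true σ ω' := ⟨σ', y, hy, _, h4, rfl⟩
    have e1 : x * (y * (u * t)) = s' * t' := by rw [← e]; group
    have h6 : s' * t' ∈ E.W (2 * k + 1 + M + 1 + 1) false ω ω' := ⟨σ, x, hx, _, h5, e1⟩
    cases k' with
    | zero =>
      exfalso
      have h3 : s' * t' ∈ E.W (M' + 1) false ω ω' := ⟨ρ', s', hs', t', ht', rfl⟩
      have h7 : M' + 1 = 2 * k + 1 + M + 1 + 1 := hL _ _ _ _ _ _ h3 h6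
      have h8 : M' = 2 * k + 1 + M + 1 := by omega
      subst h8
      obtain ⟨h9, -⟩ := hE _ false ω ω' σ ρ' x s' _ t' hx h5 hs' ht' e1
      exact hρ' (h9 ▸ h1)
    | succ k' =>
      obtain ⟨τ, τ', g1, g2, x', hx', y', hy', u', hu', rfl⟩ := hs'
      have g4 : u' * t' ∈ E.W (2 * k' + 1 + M') false τ' ω' := by
        refine W_mul E (inW_W hu') ?_
        rw [par_odd]
        exact ht'
      have g5 : y' * (u' * t') ∈ E.W (2 * k' + 1 + M' + 1) true τ ω' := ⟨τ', y', hy', _, g4, rfl⟩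
      have e2 : x' * (y' * (u' * t')) = x' * y' * u' * t' := by group
      have g6 : x' * y' * u' * t' ∈ E.W (2 * k' + 1 + M' + 1 + 1) false ω ω' :=
        ⟨τ, x', hx', _, g5, e2⟩
      have g7 : 2 * k + 1 + M + 1 + 1 = 2 * k' + 1 + M' + 1 + 1 := hL _ _ _ _ _ _ h6 g6
      have g8 : 2 * k + 1 + M + 1 = 2 * k' + 1 + M' + 1 := by omega
      rw [g8] at h5
      obtain ⟨rfl, hf⟩ := hE _ false ω ω' σ τ x x' _ _ hx h5 hx' g5 (e1.trans e2.symm)
      have e3 : y * (u * t) = (x⁻¹ * x' * y') * (u' * t') := by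
        have : x⁻¹ * (x * (y * (u * t))) = x⁻¹ * (x' * (y' * (u' * t'))) := by
          rw [e1.trans e2.symm]
        calc y * (u * t) = x⁻¹ * (x * (y * (u * t))) := by group
          _ = x⁻¹ * (x' * (y' * (u' * t'))) := this
          _ = _ := by group
      have g9 : 2 * k + 1 + M = 2 * k' + 1 + M' := by omega
      rw [g9] at h4
      obtain ⟨rfl, hf'⟩ := hE _ true σ ω' σ' τ' y (x⁻¹ * x' * y') _ _ hy h4 (E.left' hf hy') g4 e3
      have e4 : u * t = (y⁻¹ * (x⁻¹ * x' * y') * u') * t' := by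
        have : y⁻¹ * (y * (u * t)) = y⁻¹ * ((x⁻¹ * x' * y') * (u' * t')) := by rw [e3]
        calc u * t = y⁻¹ * (y * (u * t)) := by group
          _ = y⁻¹ * ((x⁻¹ * x' * y') * (u' * t')) := this
          _ = _ := by group
      obtain ⟨rfl, h⟩ := ih k' M M' σ' ρ ρ' u (y⁻¹ * (x⁻¹ * x' * y') * u') t t' hρ hρ' hu
        (inW_left hf' hu') ht ht' e4
      refine ⟨rfl, ?_⟩
      have e5 : (x * y * u)⁻¹ * (x' * y' * u') =
          u⁻¹ * (y⁻¹ * (x⁻¹ * x' * y') * u') := by group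
      rw [e5]
      exact h

/-- the system of the self-dual objects is geodesic -/
theorem hat_geo (hE : E.Geo) (hL : Len E) (N : Ω → Prop) : (hatSys E N).Geo := by
  intro m b ω ω' ρ ρ' s s' t t' hs ht hs' ht' e
  obtain ⟨M, hM⟩ := hat_W ht
  obtain ⟨M', hM'⟩ := hat_W ht'
  cases b
  · obtain ⟨k, hk⟩ := hs
    obtain ⟨k', hk'⟩ := hs'
    obtain ⟨h1, h2⟩ := hat_core hE hL k k' M M' ω.1 ρ.1 ρ'.1 s s' t t' ρ.2 ρ'.2 hk hk' hM hM' e
    exact ⟨Subtype.ext h1, h2⟩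
  · have h1 : s * t ∈ E.W (M + 1) true ω.1 ω'.1 := ⟨ρ.1, s, hs, t, hM, rfl⟩
    have h2 : s * t ∈ E.W (M' + 1) true ω.1 ω'.1 := ⟨ρ'.1, s', hs', t', hM', e.symm⟩
    have h3 : M + 1 = M' + 1 := hL _ _ _ _ _ _ h1 h2
    have h4 : M = M' := by omega
    subst h4
    obtain ⟨h5, h6⟩ := hE M true ω.1 ω'.1 ρ.1 ρ'.1 s s' t t' hs hM hs' hM' e
    exact ⟨Subtype.ext h5, h6⟩

/-- no word of odd length from an object to itself is an involution -/
theorem noInv_W (hE : E.Geo) (hN : E.NoInv) (m : ℕ) : ∀ (b : Bool) (ω : Ω) (g : G),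
    g ∈ E.W (2 * m + 1) b ω ω → g⁻¹ ≠ g := by
  induction m with
  | zero => exact fun b ω g hg => hN b ω g ((W_one E).1 hg)
  | succ m ih =>
    intro b ω g hg hgg
    obtain ⟨ρ, s, hs, w, hw, rfl⟩ := hg
    have hw1 := hw
    have e0 : 2 * (m + 1) = 2 * m + 1 + 1 := by ring
    rw [e0] at hw
    obtain ⟨σ, w', hw', r, hr, rfl⟩ := (W_succ' E).1 hw
    rw [par_odd, Bool.not_not] at hr
    have h1 : w'⁻¹ * s⁻¹ ∈ E.W (2 * m + 1 + 1) (!b) σ ω := by
      refine (W_succ' E).2 ⟨ρ, w'⁻¹, ?_, s⁻¹, ?_, rfl⟩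
      · have h := W_inv E hw'
        rw [par_odd, Bool.not_not] at h
        exact h
      · rw [par_odd, Bool.not_not]
        exact E.inv' hs
    have e1 : s * (w' * r) = r⁻¹ * (w'⁻¹ * s⁻¹) := by
      rw [← hgg]
      group
    obtain ⟨rfl, hf⟩ := hE _ b ω ω ρ σ s r⁻¹ _ _ hs hw (E.inv' hr) h1 e1
    have h2 : w' * (s⁻¹ * r⁻¹)⁻¹ ∈ E.W (2 * m + 1) (!b) ρ ρ :=
      W_right E hw' ((E.F ρ).inv_mem hf)
    refine ih (!b) ρ _ h2 ?_
    have e2 : w' * (s⁻¹ * r⁻¹)⁻¹ = s⁻¹ * (s * (w' * r)) * s := by group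
    rw [e2, mul_inv_rev, mul_inv_rev, hgg]
    group

/-- the system of the self-dual objects has no involutions -/
theorem hat_noInv (hE : E.Geo) (hN : E.NoInv) (N : Ω → Prop) : (hatSys E N).NoInv := by
  intro b ω g hg
  cases b
  · obtain ⟨k, hk⟩ := hg
    exact noInv_W hE hN k false ω.1 g (inW_W hk)
  · exact hN true ω.1 g hg

theorem len_flip (h : Len E) : Len E.flip := by
  intro m m' b ω ω' g h1 h2
  rw [flip_W] at h1 h2
  exact h m m' (!b) ω ω' g h1 h2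

theorem len_hom {Δ : Type w'} {E' : BSys Δ G} {π : Δ → Ω} (hπ : E'.Hom E π) (h : Len E) :
    Len E' := fun m m' b _ _ g h1 h2 => h m m' b _ _ g (hπ.W h1) (hπ.W h2)

theorem len_red {Δ : Type w'} (h : Len E) (R : Reps E Δ) : Len (redSys R) :=
  len_hom (red_hom R) h

end

end Pool.Agent.MIX
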