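import Mathlib
import Pool.Agent.Lib.MP_98022b_UM.WL
import Pool.Agent.Lib.MP_98022b_UM.OnL

/-!
# MIX, row M4: the pattern lemma

If an alternating product of `n` matrices vanishes, then it vanishes with arbitrary projectors on
labels inserted.
-/

set_option autoImplicit false

open MonoidAlgebra

namespace Pool.Agent.MIX

open Pool.Agent.Lib.MP_98022b_UM Pool.Agent.Lib.MP_98022b_UN

universe u v w w'

section
variable {Ω : Type w} {G : Type v} [Group G] {E : BSys Ω G}

/-- the object in the middle of a word is determined by the word -/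
theorem Geo_mid (hE : E.Geo) : ∀ {m n : ℕ} {b : Bool} {ω ω' ρ ρ' : Ω} {u u' x x' : G},
    u ∈ E.W m b ω ρ → x ∈ E.W n (par m b) ρ ω' → u' ∈ E.W m b ω ρ' →
    x' ∈ E.W n (par m b) ρ' ω' → u * x = u' * x' → ρ = ρ'
  | 0, _, _, _, _, _, _, _, _, _, _, hu, _, hu', _, _ => hu.2.symm.trans hu'.2
  | m + 1, n, b, ω, ω', ρ, ρ', u, u', x, x', hu, hx, hu', hx', e => by
    obtain ⟨σ, s, hs, y, hy, rfl⟩ := hu
    obtain ⟨σ', s', hs', y', hy', rfl⟩ := hu'
    have h1 : y * x ∈ E.W (m + n) (!b) σ ω' := W_mul E hy hx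
    have h2 : y' * x' ∈ E.W (m + n) (!b) σ' ω' := W_mul E hy' hx'
    rw [mul_assoc, mul_assoc] at e
    obtain ⟨rfl, h3⟩ := hE (m + n) b ω ω' σ σ' s s' _ _ hs h1 hs' h2 e
    have h4 : s⁻¹ * s' * y' ∈ E.W m (!b) σ ρ' := W_left E h3 hy'
    have e2 : y * x = s⁻¹ * s' * y' * x' := by
      have := congrArg (fun z => s⁻¹ * z) e
      simpa [mul_assoc] using this
    exact Geo_mid hE hy hx h4 hx' e2

end

section
variable {A : Type u} {Ω : Type w} {G : Type v} [CommRing A] [Group G]

open Classical in
/-- the projector on the indices whose label satisfies `P` -/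
noncomputable def prP (A : Type u) (G : Type v) [CommRing A] [Group G] {K : Type}
    (t : K → Ω) (P : Ω → Prop) : Matrix K K (MonoidAlgebra A G) :=
  fun i j => if i = j ∧ P (t i) then 1 else 0

variable {E : BSys Ω G} {I J K : Type} {s : I → Ω} {t : K → Ω} {r : J → Ω} {m n : ℕ} {b : Bool}

theorem prP_mul_apply [Fintype K] (P : Ω → Prop) (Y : Matrix K J (MonoidAlgebra A G)) (k : K)
    (j : J) [Decidable (P (t k))] :
    (prP A G t P * Y) k j = if P (t k) then Y k j else 0 := by
  classical
  rw [Matrix.mul_apply, Finset.sum_eq_single k]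
  · by_cases h : P (t k)
    · simp [prP, h]
    · simp [prP, h]
  · intro l _ hl
    have : prP A G t P k l = 0 := if_neg fun hc => hl hc.1.symm
    rw [this, zero_mul]
  · intro h
    exact absurd (Finset.mem_univ k) h

theorem mul_prP_apply [Fintype K] (P : Ω → Prop) (X : Matrix I K (MonoidAlgebra A G)) (i : I)
    (k : K) [Decidable (P (t k))] :
    (X * prP A G t P) i k = if P (t k) then X i k else 0 := by
  classical
  rw [Matrix.mul_apply, Finset.sum_eq_single k]
  · by_cases h : P (t k)
    · simp [prP, h]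
    · simp [prP, h]
  · intro l _ hl
    have : prP A G t P l k = 0 := if_neg fun hc => hl hc.1
    rw [this, mul_zero]
  · intro h
    exact absurd (Finset.mem_univ k) h

theorem OnW_mul_prP [Fintype K] {X : Matrix I K (MonoidAlgebra A G)} (hX : OnW E m b s t X)
    (P : Ω → Prop) : OnW E m b s t (X * prP A G t P) := by
  classical
  intro i k g hg
  rw [mul_prP_apply] at hg
  by_cases h : P (t k)
  · rw [if_pos h] at hg
    exact hX i k g hg
  · rw [if_neg h] at hg
    exact absurd rfl hg

theorem prP_mul_OnW [Fintype K] {X : Matrix K J (MonoidAlgebra A G)} (hX : OnW E m b t r X)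
    (P : Ω → Prop) : OnW E m b t r (prP A G t P * X) := by
  classical
  intro k j g hg
  rw [prP_mul_apply] at hg
  by_cases h : P (t k)
  · rw [if_pos h] at hg
    exact hX k j g hg
  · rw [if_neg h] at hg
    exact absurd rfl hg

/-- a projector may be inserted into a vanishing product -/
theorem mul_prP_mul_eq_zero [Fintype K] (hE : E.Geo) {X : Matrix I K (MonoidAlgebra A G)}
    {Y : Matrix K J (MonoidAlgebra A G)} (hX : OnW E m b s t X) (hY : OnW E n (par m b) t r Y)
    (h : X * Y = 0) (P : Ω → Prop) : X * prP A G t P * Y = 0 := by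
  classical
  ext i j g
  by_contra hc
  have hc' : ((X * prP A G t P * Y) i j).coeff g ≠ 0 := hc
  rw [Matrix.mul_apply] at hc'
  obtain ⟨k, -, hk⟩ := OnAux.supp_sum hc'
  rw [mul_prP_apply] at hk
  have hP : P (t k) := by
    by_contra hP
    rw [if_neg hP, zero_mul] at hk
    exact hk rfl
  rw [if_pos hP] at hk
  obtain ⟨u, x, hu, hx, e⟩ := OnAux.supp_mul hk
  have key : ∀ l : K, ((X * prP A G t P) i l * Y l j).coeff g = (X i l * Y l j).coeff g := by
    intro l
    rw [mul_prP_apply]
    by_cases hl : P (t l)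
    · rw [if_pos hl]
    · rw [if_neg hl, zero_mul]
      by_contra hne
      have hne' : (X i l * Y l j).coeff g ≠ 0 := fun h0 => hne (by rw [h0]; rfl)
      obtain ⟨u', x', hu', hx', e'⟩ := OnAux.supp_mul hne'
      have := Geo_mid hE (hX i k u hu) (hY k j x hx) (hX i l u' hu') (hY l j x' hx')
        (e.trans e'.symm)
      exact hl (this ▸ hP)
  have e1 : ((X * prP A G t P * Y) i j).coeff g = ((X * Y) i j).coeff g := by
    rw [Matrix.mul_apply, Matrix.mul_apply]
    have hs : ∀ f : K → MonoidAlgebra A G, (∑ l, f l).coeff g = ∑ l, (f l).coeff g := by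
      intro f
      rw [MonoidAlgebra.coeff_sum, Finsupp.finsetSum_apply]
    rw [hs, hs]
    exact Finset.sum_congr rfl fun l _ => key l
  rw [h] at e1
  exact hc e1

/-- the alternating product with projectors: `l = [P₁, .., Pₙ]` gives
`pr P₁ * M b * pr P₂ * M (!b) * ..` -/
noncomputable def wPL {K : Type} [Fintype K] [DecidableEq K] (t : K → Ω)
    (M : Bool → Matrix K K (MonoidAlgebra A G)) :
    List (Ω → Prop) → Bool → Matrix K K (MonoidAlgebra A G)
  | [], _ => 1
  | P :: l, b => prP A G t P * M b * wPL t M l (!b)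

theorem OnW_mul_OnS [Fintype K] {X : Matrix I K (MonoidAlgebra A G)} {c : Bool}
    {Y : Matrix K J (MonoidAlgebra A G)} (hX : OnW E m b s t X) (hc : par m b = c)
    (hY : OnS E c t r Y) : OnW E (m + 1) b s r (X * Y) := by
  subst hc
  exact OnW.mul hX (onS_iff.1 hY)

private theorem pattern_aux [Fintype K] [DecidableEq K] (hE : E.Geo)
    {M : Bool → Matrix K K (MonoidAlgebra A G)} (hM : ∀ b, OnS E b t t (M b)) :
    ∀ (l : List (Ω → Prop)) (m : ℕ) (b c : Bool) (X : Matrix I K (MonoidAlgebra A G)),
      OnW E m b s t X → par m b = c → X * wM M l.length c = 0 → X * wPL t M l c = 0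
  | [], _, _, _, X, _, _, h => h
  | P :: l, m, b, c, X, hX, hc, h => by
    have h1 : X * (M c * wM M l.length (!c)) = 0 := h
    have h2 : OnW E (l.length + 1) (par m b) t t (M c * wM M l.length (!c)) := by
      rw [hc]
      exact wM_on hM (l.length + 1) c
    have h3 := mul_prP_mul_eq_zero hE hX h2 h1 P
    have h4 : OnW E (m + 1) b s t (X * prP A G t P * M c) :=
      OnW_mul_OnS (OnW_mul_prP hX P) hc (hM c)
    have h5 : X * prP A G t P * M c * wM M l.length (!c) = 0 := by
      rw [Matrix.mul_assoc]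
      exact h3
    have h6 : par (m + 1) b = !c := by rw [par_succ', hc]
    have h7 := pattern_aux hE hM l (m + 1) b (!c) _ h4 h6 h5
    show X * (prP A G t P * M c * wPL t M l (!c)) = 0
    rw [← Matrix.mul_assoc, ← Matrix.mul_assoc]
    exact h7

/-- **pattern lemma** -/
theorem pattern [Fintype K] [DecidableEq K] (hE : E.Geo)
    {M : Bool → Matrix K K (MonoidAlgebra A G)} (hM : ∀ b, OnS E b t t (M b))
    (l : List (Ω → Prop)) (b : Bool) (h : wM M l.length b = 0) : wPL t M l b = 0 := by
  have h1 : OnW E 0 b t t (1 : Matrix K K (MonoidAlgebra A G)) := (on0_iff b).1 On0.one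
  have h2 : (1 : Matrix K K (MonoidAlgebra A G)) * wM M l.length b = 0 := by
    rw [Matrix.one_mul]
    exact h
  have := pattern_aux hE hM l 0 b b 1 h1 rfl h2
  rwa [Matrix.one_mul] at this

/-- all long products with projectors of the matrices of a form vanish -/
theorem pattern_nil [Fintype K] [DecidableEq K] (hE : E.Geo)
    {M : Bool → Matrix K K (MonoidAlgebra A G)} (hM : ∀ b, OnS E b t t (M b))
    (hn : ∃ N : ℕ, (M true * M false) ^ N = 0) :
    ∃ N : ℕ, ∀ (l : List (Ω → Prop)) (b : Bool), N ≤ l.length → wPL t M l b = 0 := by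
  obtain ⟨N, hN⟩ := wM_nil hn
  refine ⟨N, fun l b hl => pattern hE hM l b ?_⟩
  obtain ⟨k, hk⟩ := Nat.exists_eq_add_of_le hl
  rw [hk, wM_add, hN, Matrix.zero_mul]

theorem prP_on0 (t : K → Ω) (P : Ω → Prop) : On0 E t t (prP A G t P) := by
  classical
  intro i j g hg
  by_cases h : i = j ∧ P (t i)
  · have h1 : prP A G t P i j = 1 := if_pos h
    rw [h1] at hg
    rw [OnAux.supp_one hg]
    exact ⟨(E.F (t i)).one_mem, by rw [h.1]⟩
  · have h1 : prP A G t P i j = 0 := if_neg h
    rw [h1] at hg
    exact absurd rfl hg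

theorem prP_mul_prP [Fintype K] (t : K → Ω) (P Q : Ω → Prop) :
    prP A G t P * prP A G t Q = prP A G t (fun ω => P ω ∧ Q ω) := by
  classical
  ext1 i j
  rw [prP_mul_apply]
  by_cases hij : i = j
  · subst hij
    by_cases h1 : P (t i) <;> by_cases h2 : Q (t i) <;> simp [prP, h1, h2]
  · simp [prP, hij]

theorem prP_false (t : K → Ω) : prP A G t (fun _ => False) = 0 := by
  ext1 i j
  exact if_neg fun h => h.2

theorem prP_true [DecidableEq K] (t : K → Ω) : prP A G t (fun _ => True) = 1 := by
  ext1 i j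
  by_cases hij : i = j
  · subst hij
    simp [prP]
  · simp [prP, hij]

theorem prP_add_not [DecidableEq K] (t : K → Ω) (P : Ω → Prop) :
    prP A G t P + prP A G t (fun ω => ¬ P ω) = 1 := by
  classical
  ext1 i j
  by_cases hij : i = j
  · subst hij
    by_cases h1 : P (t i) <;> simp [prP, h1]
  · simp [prP, hij]

theorem adj_prP (β : BarStr A G) (t : K → Ω) (P : Ω → Prop) :
    adj β (prP A G t P) = prP A G t P := by
  classical
  ext1 i j
  show β.bar (prP A G t P j i) = prP A G t P i j
  by_cases hij : i = j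
  · subst hij
    by_cases h1 : P (t i)
    · have h2 : prP A G t P i i = 1 := if_pos ⟨rfl, h1⟩
      rw [h2, bar_one]
    · have h2 : prP A G t P i i = 0 := if_neg fun h => h1 h.2
      rw [h2, bar_zero]
  · have h2 : prP A G t P i j = 0 := if_neg fun h => hij h.1
    have h3 : prP A G t P j i = 0 := if_neg fun h => hij h.1.symm
    rw [h2, h3, bar_zero]

end

end Pool.Agent.MIX
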