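import Mathlib
import Pool.Agent.Lib.MIX.Defs
import Pool.Agent.Lib.MIX.Pat

/-! MIX, row M4 in the form of the rows file. -/

set_option autoImplicit false

open MonoidAlgebra Pool.Agent.Lib.MP_98022b_UN Pool.Agent.Lib.MP_98022b_UM

namespace Pool.Agent.MIX

universe u v w w'

section
variable {A : Type u} {Ω : Type w} {G : Type v} [CommRing A] [Group G] {E : BSys Ω G}

theorem dl_eq_prP {K : Type} [DecidableEq K] (t : K → Ω) (U : Ω → Prop) :
    dl A G t U = prP A G t U := by
  classical
  ext1 i j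
  by_cases h : i = j
  · subst h
    by_cases h1 : U (t i) <;> simp [dl, prP, h1]
  · simp [dl, prP, h]

theorem mul_dl_mul {I J K : Type} [Fintype J] [DecidableEq J] (hG : E.Geo) {m n : ℕ} {b : Bool}
    {s : I → Ω} {t : J → Ω} {r : K → Ω} {M : Matrix I J (MonoidAlgebra A G)}
    {M' : Matrix J K (MonoidAlgebra A G)} (h : OnW E m b s t M) (h' : OnW E n (par m b) t r M')
    (h0 : M * M' = 0) (U : Ω → Prop) : M * dl A G t U * M' = 0 := by
  rw [dl_eq_prP]
  exact mul_prP_mul_eq_zero hG h h' h0 U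

private theorem wP_aux (hG : E.Geo) {I K : Type} [Fintype K] [DecidableEq K] {s : I → Ω}
    {t : K → Ω} {M : Bool → Matrix K K (MonoidAlgebra A G)} (h : ∀ b, OnS E b t t (M b)) :
    ∀ (N m : ℕ) (b c : Bool) (X : Matrix I K (MonoidAlgebra A G)) (U : ℕ → Ω → Prop),
      OnW E m b s t X → par m b = c → X * wM M N c = 0 → X * wP t M U N c = 0
  | 0, _, _, _, _, _, _, _, h0 => h0
  | N + 1, m, b, c, X, U, hX, hc, h0 => by
    have h1 : X * (M c * wM M N (!c)) = 0 := h0
    have h2 : OnW E (N + 1) (par m b) t t (M c * wM M N (!c)) := by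
      rw [hc]
      exact wM_on h (N + 1) c
    have h3 := mul_dl_mul hG hX h2 h1 (U 0)
    have h4 : OnW E (m + 1) b s t (X * dl A G t (U 0) * M c) := by
      rw [dl_eq_prP]
      exact OnW_mul_OnS (OnW_mul_prP hX (U 0)) hc (h c)
    have h5 : X * dl A G t (U 0) * M c * wM M N (!c) = 0 := by
      rw [Matrix.mul_assoc]
      exact h3
    have h6 : par (m + 1) b = !c := by rw [par_succ', hc]
    have h7 := wP_aux hG h N (m + 1) b (!c) _ (fun i => U (i + 1)) h4 h6 h5
    show X * (dl A G t (U 0) * M c * wP t M (fun i => U (i + 1)) N (!c)) = 0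
    rw [← Matrix.mul_assoc, ← Matrix.mul_assoc]
    exact h7

theorem wP_eq_zero (hG : E.Geo) {K : Type} [Fintype K] [DecidableEq K] {t : K → Ω}
    {M : Bool → Matrix K K (MonoidAlgebra A G)} (h : ∀ b, OnS E b t t (M b)) {N : ℕ} {b : Bool}
    (h0 : wM M N b = 0) (U : ℕ → Ω → Prop) : wP t M U N b = 0 := by
  have h1 : OnW E 0 b t t (1 : Matrix K K (MonoidAlgebra A G)) := (on0_iff b).1 On0.one
  have h2 : (1 : Matrix K K (MonoidAlgebra A G)) * wM M N b = 0 := by
    rw [Matrix.one_mul]
    exact h0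
  have := wP_aux hG h N 0 b b 1 U h1 rfl h2
  rwa [Matrix.one_mul] at this

theorem ofFn_eq_wP {K : Type} [Fintype K] [DecidableEq K] (t : K → Ω)
    (M : Bool → Matrix K K (MonoidAlgebra A G)) (N : ℕ) : ∀ U : ℕ → Ω → Prop,
    (List.ofFn (n := N) fun i => (dl A G t (U (2 * i)) * M true) *
      (dl A G t (U (2 * i + 1)) * M false)).prod = wP t M U (2 * N) true := by
  induction N with
  | zero => intro U; simp [wP]
  | succ N ih =>
    intro U
    rw [List.ofFn_succ, List.prod_cons]
    have h := ih (fun i => U (i + 2))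
    have e1 : (List.ofFn fun i : Fin N => (dl A G t (U (2 * (i.succ : ℕ))) * M true) *
        (dl A G t (U (2 * (i.succ : ℕ) + 1)) * M false)) =
        List.ofFn fun i : Fin N => (dl A G t ((fun i => U (i + 2)) (2 * (i : ℕ))) * M true) *
        (dl A G t ((fun i => U (i + 2)) (2 * (i : ℕ) + 1)) * M false) := by
      congr 1
    have e2 : wP t M U (2 * (N + 1)) true = dl A G t (U 0) * M true *
        (dl A G t (U 1) * M false * wP t M (fun i => U (i + 2)) (2 * N) true) := rfl
    rw [e1, h, e2, ← Matrix.mul_assoc]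
    simp [Matrix.mul_assoc]

end

end Pool.Agent.MIX
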