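import Mathlib
import Pool.Agent.Lib.MIX.Hat
import Pool.Agent.Lib.MIX.Pattern
import Pool.Agent.Lib.MP_98022b_UM.OnL

/-!
# MIX, row M7: the form over the system of the self-dual objects
-/

set_option autoImplicit false

open MonoidAlgebra Pool.Agent.Lib.MP_98022b_UN Pool.Agent.Lib.MP_98022b_UM

namespace Pool.Agent.MIX

universe u v w w'

namespace HBF

/-! ## words in two letters -/

section words
variable {R : Type*} [Ring R] (f : Bool → R)

/-- the additive group generated by the words of length at least `k` -/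
def wdS (k : ℕ) : AddSubgroup R :=
  AddSubgroup.closure {x | ∃ l : List Bool, k ≤ l.length ∧ x = (l.map f).prod}

variable {f}

lemma wdS_mul {m n : ℕ} {x y : R} (hx : x ∈ wdS f m) (hy : y ∈ wdS f n) :
    x * y ∈ wdS f (m + n) := by
  induction hx using AddSubgroup.closure_induction with
  | mem x hx =>
    obtain ⟨l, hl, rfl⟩ := hx
    induction hy using AddSubgroup.closure_induction with
    | mem y hy =>
      obtain ⟨l', hl', rfl⟩ := hy
      refine AddSubgroup.subset_closure ⟨l ++ l', ?_, ?_⟩
      · rw [List.length_append]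
        omega
      · rw [List.map_append, List.prod_append]
    | zero => rw [mul_zero]; exact AddSubgroup.zero_mem _
    | add y z _ _ hy hz => rw [mul_add]; exact AddSubgroup.add_mem _ hy hz
    | neg y _ hy => rw [mul_neg]; exact AddSubgroup.neg_mem _ hy
  | zero => rw [zero_mul]; exact AddSubgroup.zero_mem _
  | add x z _ _ hx hz => rw [add_mul]; exact AddSubgroup.add_mem _ hx hz
  | neg x _ hx => rw [neg_mul]; exact AddSubgroup.neg_mem _ hx

lemma wdS_one : (1 : R) ∈ wdS f 0 := AddSubgroup.subset_closure ⟨[], le_refl _, by simp⟩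

lemma wdS_letter (b : Bool) : f b ∈ wdS f 1 := AddSubgroup.subset_closure ⟨[b], le_refl _, by simp⟩

lemma wdS_pow {x : R} {m : ℕ} (hx : x ∈ wdS f m) (k : ℕ) : x ^ k ∈ wdS f (k * m) := by
  induction k with
  | zero => rw [pow_zero, zero_mul]; exact wdS_one
  | succ k ih =>
    rw [pow_succ, Nat.succ_mul]
    exact wdS_mul ih hx

lemma wdS_mono {m n : ℕ} (h : n ≤ m) : wdS f m ≤ wdS f n := by
  refine AddSubgroup.closure_mono ?_
  rintro x ⟨l, hl, rfl⟩
  exact ⟨l, h.trans hl, rfl⟩

lemma wdS_eq_zero {n : ℕ} (h : ∀ l : List Bool, n ≤ l.length → (l.map f).prod = 0) {x : R}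
    (hx : x ∈ wdS f n) : x = 0 := by
  induction hx using AddSubgroup.closure_induction with
  | mem x hx =>
    obtain ⟨l, hl, rfl⟩ := hx
    exact h l hl
  | zero => rfl
  | add x y _ _ hx hy => rw [hx, hy, add_zero]
  | neg x _ hx => rw [hx, neg_zero]

end words

/-! ## projectors -/

section
variable {A : Type u} {Ω : Type w} {G : Type v} [CommRing A] [Group G]

section dl
variable {K : Type} [Fintype K] [DecidableEq K] {t : K → Ω} {N : Ω → Prop}

open Classical in
lemma dl_mul_apply (M : Matrix K K (MonoidAlgebra A G)) (i j : K) :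
    (dl A G t N * M) i j = if N (t i) then M i j else 0 := by
  rw [dl, Matrix.diagonal_mul]
  split_ifs
  · rw [one_mul]
  · rw [zero_mul]

open Classical in
lemma mul_dl_apply (M : Matrix K K (MonoidAlgebra A G)) (i j : K) :
    (M * dl A G t N) i j = if N (t j) then M i j else 0 := by
  rw [dl, Matrix.mul_diagonal]
  split_ifs
  · rw [mul_one]
  · rw [mul_zero]

lemma dl_mul_self : dl A G t N * dl A G t N = dl A G t N := by
  classical
  funext i j
  rw [dl_mul_apply]
  split_ifs with h
  · rfl
  · have h1 : dl A G t N i j = 0 := by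
      rw [dl, Matrix.diagonal_apply]
      split_ifs
      rfl
      rfl
    rw [h1]

omit [Fintype K] in
lemma dl_true : dl A G t (fun _ => True) = 1 := by
  classical
  funext i j
  rw [dl, Matrix.diagonal_apply, Matrix.one_apply]
  simp

omit [Fintype K] in
lemma dl_not : dl A G t (fun ω => ¬ N ω) = 1 - dl A G t N := by
  classical
  funext i j
  rw [Matrix.sub_apply, dl, dl, Matrix.diagonal_apply, Matrix.diagonal_apply, Matrix.one_apply]
  by_cases h : i = j
  · subst h
    by_cases h' : N (t i) <;> simp [h']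
  · simp [h]

omit [Fintype K] in
lemma adj_dl (β : BarStr A G) : adj β (dl A G t N) = dl A G t N := by
  classical
  funext i j
  show β.bar (dl A G t N j i) = dl A G t N i j
  rw [dl, Matrix.diagonal_apply, Matrix.diagonal_apply]
  by_cases h : i = j
  · subst h
    by_cases h' : N (t i)
    · simp only [h', if_true]
      exact bar_one β
    · simp only [h', if_true, if_false]
      exact bar_zero β
  · rw [if_neg h, if_neg (Ne.symm h)]
    exact bar_zero β

end dl

/-! ## the pattern of the products -/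

/-- the inserted predicates -/
def patU (N : Ω → Prop) : List Bool → ℕ → Ω → Prop
  | [], _ => fun _ => True
  | b :: _, 0 => fun ω => if b then N ω else ¬ N ω
  | _ :: _, 1 => fun _ => True
  | _ :: l, i + 2 => patU N l i

section
variable {K : Type} [Fintype K] [DecidableEq K]

lemma prod_eq_wP (t : K → Ω) (N : Ω → Prop) (M : Bool → Matrix K K (MonoidAlgebra A G))
    (l : List Bool) :
    (l.map fun b => (if b then dl A G t N else 1 - dl A G t N) * M true * M false).prod
      = wP t M (patU N l) (2 * l.length) true := by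
  induction l with
  | nil => rfl
  | cons b l ih =>
    rw [List.map_cons, List.prod_cons, ih, List.length_cons]
    show _ = dl A G t (patU N (b :: l) 0) * M true * (dl A G t (patU N (b :: l) 1) * M false *
      wP t M (fun i => patU N (b :: l) (i + 1 + 1)) (2 * l.length) true)
    have h1 : dl A G t (patU N (b :: l) 1) = 1 := dl_true
    have h2 : dl A G t (patU N (b :: l) 0) = if b then dl A G t N else 1 - dl A G t N := by
      cases b
      · exact dl_not
      · rfl
    rw [h1, h2, Matrix.one_mul]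
    show _ = _ * M true * (M false * wP t M (patU N l) (2 * l.length) true)
    simp only [Matrix.mul_assoc]

lemma pat_zero {E : BSys Ω G} (hG : E.Geo) {t : K → Ω} (N : Ω → Prop)
    {M : Bool → Matrix K K (MonoidAlgebra A G)} (hM : ∀ b, OnS E b t t (M b)) {n : ℕ}
    (hn : (M true * M false) ^ n = 0) (l : List Bool) (hl : n ≤ l.length) :
    (l.map fun b => (if b then dl A G t N else 1 - dl A G t N) * M true * M false).prod = 0 := by
  rw [prod_eq_wP]
  refine wP_eq_zero hG hM ?_ _
  have h1 : ∀ k : ℕ, wM M (2 * k) true = (M true * M false) ^ k := by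
    intro k
    induction k with
    | zero => rw [mul_zero, wM_zero, pow_zero]
    | succ k ih =>
      rw [show 2 * (k + 1) = 2 * k + 1 + 1 by ring, wM_succ, wM_succ, pow_succ', ← ih,
        Matrix.mul_assoc]
      rfl
  rw [h1, ← Nat.sub_add_cancel hl, pow_add, hn, Matrix.mul_zero]

end

/-! ## supports -/

/-- entry `(i,j)` is supported in the words of the new letters of side `false` -/
def OnI (E : BSys Ω G) (N : Ω → Prop) {I J : Type} (s : I → Ω) (t : J → Ω)
    (M : Matrix I J (MonoidAlgebra A G)) : Prop :=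
  ∀ i j g, (M i j).coeff g ≠ 0 → ∃ k, g ∈ inW E N k (s i) (t j)

section OnI
variable {E : BSys Ω G} {N : Ω → Prop} {I J K L : Type} {s : I → Ω} {t : J → Ω} {r : K → Ω}
  {q : L → Ω}

lemma OnI.of {M : Matrix I J (MonoidAlgebra A G)} (h : OnS E false s t M) : OnI E N s t M :=
  fun i j g hg => ⟨0, h i j g hg⟩

lemma OnI.zero : OnI E N s t (0 : Matrix I J (MonoidAlgebra A G)) := fun _ _ _ h => absurd rfl h

lemma OnI.add {M M' : Matrix I J (MonoidAlgebra A G)} (h : OnI E N s t M)
    (h' : OnI E N s t M') : OnI E N s t (M + M') :=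
  fun i j g hg => (OnAux.supp_add hg).elim (h i j g) (h' i j g)

lemma OnI.sub {M M' : Matrix I J (MonoidAlgebra A G)} (h : OnI E N s t M)
    (h' : OnI E N s t M') : OnI E N s t (M - M') :=
  fun i j g hg => (OnAux.supp_sub hg).elim (h i j g) (h' i j g)

lemma OnI.zsmul {M : Matrix I J (MonoidAlgebra A G)} (h : OnI E N s t M) (k : ℤ) :
    OnI E N s t (k • M) :=
  fun i j g hg => h i j g (OnAux.supp_zsmul hg)

lemma OnI.sum {ι : Type*} (S : Finset ι) (M : ι → Matrix I J (MonoidAlgebra A G))
    (h : ∀ i ∈ S, OnI E N s t (M i)) : OnI E N s t (∑ i ∈ S, M i) := by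
  classical
  induction S using Finset.induction_on with
  | empty => rw [Finset.sum_empty]; exact OnI.zero
  | insert i S hi ih =>
    rw [Finset.sum_insert hi]
    exact (h i (Finset.mem_insert_self i S)).add
      (ih fun j hj => h j (Finset.mem_insert_of_mem hj))

lemma inW_app {k l : ℕ} {ω ω' : Ω} : ∀ {ρ ρ' : Ω} {x y z : G}, x ∈ inW E N k ω ρ → N ρ → N ρ' →
    y ∈ E.S true ρ ρ' → z ∈ inW E N l ρ' ω' → ∃ m, x * y * z ∈ inW E N m ω ω' := by
  induction k generalizing ω with
  | zero =>
    intro ρ ρ' x y z hx h1 h2 hy hz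
    exact ⟨l + 1, ρ, ρ', h1, h2, x, hx, y, hy, z, hz, rfl⟩
  | succ k ih =>
    intro ρ ρ' x y z hx h1 h2 hy hz
    obtain ⟨σ, σ', h3, h4, a, ha, b, hb, u, hu, rfl⟩ := hx
    obtain ⟨m, hm⟩ := ih hu h1 h2 hy hz
    exact ⟨m + 1, σ, σ', h3, h4, a, ha, b, hb, u * y * z, hm, by simp only [mul_assoc]⟩

lemma OnI.mul [Fintype J] [Fintype K] {M : Matrix I J (MonoidAlgebra A G)}
    {B : Matrix J K (MonoidAlgebra A G)} {M' : Matrix K L (MonoidAlgebra A G)}
    (h : OnI E N s t M) (hB : OnS E true t r B)
    (hN : ∀ j k g, (B j k).coeff g ≠ 0 → N (t j) ∧ N (r k)) (h' : OnI E N r q M') :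
    OnI E N s q (M * B * M') := by
  intro i l g hg
  rw [Matrix.mul_apply] at hg
  obtain ⟨k, -, hk⟩ := OnAux.supp_sum hg
  obtain ⟨x, z, hx, hz, rfl⟩ := OnAux.supp_mul hk
  rw [Matrix.mul_apply] at hx
  obtain ⟨j, -, hj⟩ := OnAux.supp_sum hx
  obtain ⟨y, b, hy, hb, rfl⟩ := OnAux.supp_mul hj
  obtain ⟨m, hm⟩ := h i j y hy
  obtain ⟨m', hm'⟩ := h' k l z hz
  obtain ⟨h1, h2⟩ := hN j k b hb
  exact inW_app hm h1 h2 (hB j k b hb) hm'

end OnI

end

/-! ## the form -/

section
variable {A : Type u} {Ω : Type w} {G : Type v} [CommRing A] [Group G]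
  {E : BSys Ω G} {β : BarStr A G} {ε : ℤ}

section sub
variable {K : Type} [Fintype K] [DecidableEq K] {t : K → Ω} {N : Ω → Prop}

/-- the entries whose indices have labels which do not satisfy `N` -/
abbrev sb (t : K → Ω) (N : Ω → Prop) (X : Matrix K K (MonoidAlgebra A G)) :
    Matrix {k : K // ¬ N (t k)} {k : K // ¬ N (t k)} (MonoidAlgebra A G) :=
  X.submatrix Subtype.val Subtype.val

lemma sb_mul_sb [Fintype {k : K // ¬ N (t k)}] (X Y : Matrix K K (MonoidAlgebra A G)) :
    sb t N X * sb t N Y = sb t N (X * (1 - dl A G t N) * Y) := by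
  classical
  refine Matrix.ext fun i j => ?_
  rw [Matrix.mul_apply, ← dl_not]
  show ∑ k : {k : K // ¬ N (t k)}, X i.1 k.1 * Y k.1 j.1
    = (X * dl A G t (fun ω => ¬ N ω) * Y) i.1 j.1
  rw [Matrix.mul_apply]
  simp only [mul_dl_apply]
  rw [← Finset.sum_subtype (Finset.univ.filter fun k => ¬ N (t k)) (by simp)
    (fun k => X i.1 k * Y k j.1), Finset.sum_filter]
  refine Finset.sum_congr rfl fun k _ => ?_
  by_cases h : N (t k)
  · simp [h]
  · simp [h]

omit [Fintype K] [DecidableEq K] in
lemma adj_sb (β : BarStr A G) (X : Matrix K K (MonoidAlgebra A G)) :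
    adj β (sb t N X) = sb t N (adj β X) := rfl

omit [Fintype K] in
lemma sb_one : sb t N (1 : Matrix K K (MonoidAlgebra A G)) = 1 :=
  Matrix.submatrix_one _ Subtype.val_injective

end sub

end

end HBF

section
variable {A : Type u} {Ω : Type w} {G : Type v} [CommRing A] [Group G]
  {E : BSys Ω G} {β : BarStr A G} {ε : ℤ}

open HBF in
theorem hat_bf (hG : E.Geo) (hε : ε = 1 ∨ ε = -1) (X : BF E β ε) (N : Ω → Prop)
    [Fintype {k : X.K // ¬ N (X.t k)}]
    (hc : ∀ (ω ω' : Ω) (g : G), g ∈ E.S true ω ω' → (N ω ↔ N ω'))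
    (a : Matrix X.K X.K (MonoidAlgebra A G)) (ha : a = dl A G X.t N * X.M true) :
    ∃ Z : Matrix X.K X.K (MonoidAlgebra A G), (1 - ε • (a * X.M false)) * Z = 1 ∧
      Z * (1 - ε • (a * X.M false)) = 1 ∧
      IsBF (hatSys E N) β ε (fun k : {k : X.K // ¬ N (X.t k)} => (⟨X.t k.1, k.2⟩ : {ω // ¬ N ω}))
        (fun b => if b then (X.M true).submatrix Subtype.val Subtype.val
          else (X.M false * Z).submatrix Subtype.val Subtype.val) ∧
      ∀ a1 c1 : Matrix X.K X.K (MonoidAlgebra A G), OnS E true X.t X.t a1 →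
        dl A G X.t N * a1 = a1 → OnS E false X.t X.t c1 → a = a1 + ε • adj β a1 →
        OnS (hatSys E N) false (fun k : {k : X.K // ¬ N (X.t k)} => (⟨X.t k.1, k.2⟩ : {ω // ¬ N ω}))
          (fun k : {k : X.K // ¬ N (X.t k)} => (⟨X.t k.1, k.2⟩ : {ω // ¬ N ω}))
          ((X.M false * Z + ε • (X.M false * Z * (a - a1) * (X.M false * Z)) -
            (1 + ε • (X.M false * Z * a)) * c1 * (1 + ε • (a * (X.M false * Z)))).submatrix
              Subtype.val Subtype.val) := by
  classical
  have hεε : ε * ε = 1 := by rcases hε with h | h <;> rw [h] <;> norm_num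
  obtain ⟨n, hn⟩ := X.is.nil
  set P : Matrix X.K X.K (MonoidAlgebra A G) := dl A G X.t N with hP
  set T := X.M true with hT
  set c := X.M false with hcdef
  have hPP : P * P = P := dl_mul_self
  have hTon : OnS E true X.t X.t T := X.is.on true
  have hcon : OnS E false X.t X.t c := X.is.on false
  -- the projector commutes with the letters of side `true`
  have hcomm : ∀ B : Matrix X.K X.K (MonoidAlgebra A G), OnS E true X.t X.t B →
      P * B = B * P := by
    intro B hB
    funext i j
    rw [hP, dl_mul_apply, mul_dl_apply]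
    by_cases h0 : B i j = 0
    · rw [h0]
      simp
    · obtain ⟨g, hg⟩ : ∃ g, (B i j).coeff g ≠ 0 := by
        by_contra h1
        push Not at h1
        exact h0 (by ext g; exact h1 g)
      have h2 := hc _ _ g (hB i j g hg)
      simp only [h2]
  have hPT : P * T = T * P := hcomm T hTon
  have haon : OnS E true X.t X.t a := by
    intro i j g hg
    rw [ha, dl_mul_apply] at hg
    split_ifs at hg with h1
    · exact hTon i j g hg
    · exact absurd rfl hg
  have hPa : P * a = a := by rw [ha, ← Matrix.mul_assoc, hPP]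
  have hasym : adj β a = ε • a := by
    rw [ha, adj_mul, adj_dl, X.is.sym true, Matrix.smul_mul, ← hP, ← hT, hPT]
  have hcsym : adj β c = ε • c := X.is.sym false
  -- words in the two letters
  set f : Bool → Matrix X.K X.K (MonoidAlgebra A G) :=
    fun b => (if b then P else 1 - P) * T * c with hf
  have hword : ∀ l : List Bool, n ≤ l.length → (l.map f).prod = 0 :=
    fun l hl => pat_zero hG N X.is.on hn l hl
  set u : Matrix X.K X.K (MonoidAlgebra A G) := ε • (a * c) with hu
  have hu1 : u ∈ wdS f 1 := by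
    rw [hu, ha]
    exact AddSubgroup.zsmul_mem _ (wdS_letter true) ε
  have hun : u ^ n = 0 := by
    have h1 := wdS_pow hu1 n
    rw [mul_one] at h1
    exact wdS_eq_zero hword h1
  set Z : Matrix X.K X.K (MonoidAlgebra A G) := ∑ k ∈ Finset.range n, u ^ k with hZ
  have hZ1 : (1 - u) * Z = 1 := by
    rw [hZ, mul_neg_geom_sum, hun, sub_zero]
  have hZ2 : Z * (1 - u) = 1 := by
    rw [hZ, geom_sum_mul_neg, hun, sub_zero]
  have hZ0 : Z ∈ wdS f 0 := by
    refine AddSubgroup.sum_mem _ fun k _ => ?_
    exact wdS_mono (Nat.zero_le _) (wdS_pow hu1 k)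
  -- `q = c Z`
  have hadj : adj β u = ε • (c * a) := by
    rw [hu, adj_zsmul, adj_mul, hasym, hcsym, Matrix.smul_mul, Matrix.mul_smul, smul_smul, hεε,
      one_smul]
  have hqsym : adj β (c * Z) = ε • (c * Z) := by
    have h1 : adj β Z * (1 - ε • (c * a)) = 1 := by
      have h2 := congrArg (adj β) hZ1
      rw [adj_mul, adj_sub, adj_one, hadj] at h2
      exact h2
    have h2 : (1 - ε • (c * a)) * c = c * (1 - u) := by
      rw [hu, sub_mul, mul_sub, one_mul, mul_one, smul_mul_assoc, mul_smul_comm, mul_assoc]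
    rw [adj_mul, hcsym, mul_smul_comm]
    congr 1
    calc adj β Z * c = adj β Z * (c * ((1 - u) * Z)) := by rw [hZ1, mul_one]
      _ = adj β Z * (1 - ε • (c * a)) * c * Z := by
        rw [← mul_assoc c, ← h2]
        simp only [mul_assoc]
      _ = c * Z := by rw [h1, one_mul]
  have hainN : ∀ j k g, (a j k).coeff g ≠ 0 → N (X.t j) ∧ N (X.t k) := by
    intro j k g hg
    have h1 : N (X.t j) := by
      by_contra h2
      rw [ha, dl_mul_apply, if_neg h2] at hg
      exact absurd rfl hg
    exact ⟨h1, (hc _ _ g (haon j k g hg)).mp h1⟩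
  have hq : OnI E N X.t X.t (c * Z) := by
    have h1 : ∀ k : ℕ, OnI E N X.t X.t (c * u ^ k) := by
      intro k
      induction k with
      | zero =>
        rw [pow_zero, mul_one]
        exact OnI.of hcon
      | succ k ih =>
        have h2 : c * u ^ (k + 1) = ε • (c * u ^ k * a * c) := by
          rw [pow_succ, hu, mul_smul_comm, mul_smul_comm]
          simp only [mul_assoc]
        rw [h2]
        exact (ih.mul haon hainN (OnI.of hcon)).zsmul ε
    rw [hZ, Finset.mul_sum]
    exact OnI.sum _ _ fun k _ => h1 k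
  refine ⟨Z, hZ1, hZ2, ?_, ?_⟩
  · refine ⟨?_, ?_, ?_⟩
    · intro b
      cases b
      · intro i j g hg
        exact hq i.1 j.1 g hg
      · intro i j g hg
        exact hTon i.1 j.1 g hg
    · intro b
      cases b
      · show adj β (sb X.t N (c * Z)) = ε • sb X.t N (c * Z)
        rw [adj_sb, hqsym]
        rfl
      · show adj β (sb X.t N T) = ε • sb X.t N T
        rw [adj_sb, X.is.sym true]
        rfl
    · refine ⟨n, ?_⟩
      show (sb X.t N T * sb X.t N (c * Z)) ^ n = 0
      have h1 : sb X.t N T * sb X.t N (c * Z) = sb X.t N ((1 - P) * T * c * Z) := by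
        rw [sb_mul_sb, mul_sub, mul_one, ← hP, ← hPT, sub_mul T, sub_mul 1, one_mul]
        simp only [mul_assoc, sub_mul]
      have h2 : ∀ m : ℕ, (sb X.t N ((1 - P) * T * c * Z)) ^ m
          = sb X.t N (((1 - P) * T * c * Z) ^ m) := by
        intro m
        induction m with
        | zero => rw [pow_zero, pow_zero, sb_one]
        | succ m ih =>
          rw [pow_succ, pow_succ, ih, sb_mul_sb, ← hP]
          have h3 : (1 - P) * (1 - P) = 1 - P := by
            rw [sub_mul, mul_sub, mul_sub, hPP]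
            simp
          congr 1
          simp only [mul_assoc]
          rw [← mul_assoc (1 - P) (1 - P), h3]
      have h3 : (1 - P) * T * c * Z ∈ wdS f 1 := by
        have h4 := wdS_mul (wdS_letter (f := f) false) hZ0
        exact h4
      have h4 := wdS_pow h3 n
      rw [mul_one] at h4
      rw [h1, h2, wdS_eq_zero hword h4]
      rfl
  · intro a1 c1 ha1 hPa1 hc1 haa
    have hb1 : OnS E true X.t X.t (a - a1) := haon.sub ha1
    have hb2 : ∀ j k g, ((a - a1) j k).coeff g ≠ 0 → N (X.t j) ∧ N (X.t k) := by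
      intro j k g hg
      have h1 : N (X.t j) := by
        by_contra h2
        have h3 : P * (a - a1) = a - a1 := by rw [mul_sub, hPa, hPa1]
        rw [← h3, hP, dl_mul_apply, if_neg h2] at hg
        exact absurd rfl hg
      exact ⟨h1, (hc _ _ g (hb1 j k g hg)).mp h1⟩
    have h1 : OnI E N X.t X.t (c * Z * (a - a1) * (c * Z)) := hq.mul hb1 hb2 hq
    have hc1' : OnI E N X.t X.t c1 := OnI.of hc1
    have h2 : OnI E N X.t X.t (c * Z * a * c1) := hq.mul haon hainN hc1'
    have h3 : OnI E N X.t X.t (c1 * a * (c * Z)) := hc1'.mul haon hainN hq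
    have h4 : OnI E N X.t X.t (c * Z * a * c1 * a * (c * Z)) := h2.mul haon hainN hq
    have h5 : OnI E N X.t X.t (c * Z + ε • (c * Z * (a - a1) * (c * Z)) -
        (1 + ε • (c * Z * a)) * c1 * (1 + ε • (a * (c * Z)))) := by
      have h6 : (1 + ε • (c * Z * a)) * c1 * (1 + ε • (a * (c * Z)))
          = c1 + ε • (c * Z * a * c1) + ε • (c1 * a * (c * Z))
            + (ε * ε) • (c * Z * a * c1 * a * (c * Z)) := by
        simp only [add_mul, mul_add, one_mul, mul_one, smul_mul_assoc, mul_smul_comm, smul_smul,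
          smul_add, mul_assoc]
        abel
      rw [h6]
      exact (hq.add (h1.zsmul ε)).sub
        (((hc1'.add (h2.zsmul ε)).add (h3.zsmul ε)).add (h4.zsmul _))
    intro i j g hg
    exact h5 i.1 j.1 g hg

end

end Pool.Agent.MIX
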