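import Mathlib
import Pool.Agent.Lib.MIX.Hat
import Pool.Agent.Lib.MP_98022b_UM.TreeSeg

/-!
# MIX, row M5: lengths, the splitting function, the iterated reduction, reversed segments
-/

set_option autoImplicit false

open MonoidAlgebra

namespace Pool.Agent.MIX

open Pool.Agent.Lib.MP_98022b_UM Pool.Agent.Lib.MP_98022b_UN

universe u v w w'

section
variable {G : Type v} [Group G]

/-- the number of turns and the type of the last edge of a reduced path are determined by its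
end -/
def ELen (E : EdgeSys G) : Prop :=
  ∀ (m m' : ℕ) (σ τ τ' : Bool) (g : G), g ∈ E.P m σ τ → g ∈ E.P m' σ τ' → m = m' ∧ τ = τ'

theorem EP_left (E : EdgeSys G) {f g : G} (hf : f ∈ E.F) {m : ℕ} {σ τ : Bool}
    (h : g ∈ E.P m σ τ) : f * g ∈ E.P m σ τ := by
  cases m with
  | zero => exact ⟨E.F.mul_mem hf h.1, h.2⟩
  | succ m =>
    obtain ⟨ρ, s, hs, t, ht, rfl⟩ := h
    exact ⟨ρ, f * s, E.left' hf hs, t, ht, mul_assoc f s t⟩

theorem bi_W (E : EdgeSys G) (m : ℕ) : (∀ (ω ω' : ULift.{v} Bool) (g : G),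
    g ∈ (biSys E).W m true ω ω' → g ∈ E.P ((m + 1) / 2) ω.down (par m ω'.down)) ∧
    ∀ (ω ω' : ULift.{v} Bool) (g : G),
      g ∈ (biSys E).W m false ω ω' → g ∈ E.P (m / 2) (!ω.down) (!(par m ω'.down)) := by
  induction m with
  | zero =>
    constructor
    · intro ω ω' g h
      exact ⟨h.1, by rw [h.2]; rfl⟩
    · intro ω ω' g h
      exact ⟨h.1, by rw [h.2]; rfl⟩
  | succ m ih =>
    constructor
    · intro ω ω' g h
      obtain ⟨ρ, s, hs, t, ht, rfl⟩ := h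
      have e2 : (m + 1 + 1) / 2 = m / 2 + 1 := by omega
      rw [par_succ', e2]
      exact ⟨!ρ.down, s, hs, t, ih.2 ρ ω' t ht, rfl⟩
    · intro ω ω' g h
      obtain ⟨ρ, s, hs, t, ht, rfl⟩ := h
      rw [par_succ', Bool.not_not]
      have hs1 : s ∈ E.F := hs.1
      have hs2 : ρ.down = !ω.down := hs.2
      have h1 := ih.1 ρ ω' t ht
      rw [hs2] at h1
      exact EP_left E hs1 h1

theorem par_inj {m m' : ℕ} {b : Bool} (h : par m b = par m' b) : m % 2 = m' % 2 := by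
  obtain ⟨k, hk⟩ := Nat.even_or_odd' m
  obtain ⟨k', hk'⟩ := Nat.even_or_odd' m'
  rcases hk with rfl | rfl <;> rcases hk' with rfl | rfl
  · omega
  · rw [par_two_mul, par_odd] at h
    cases b <;> simp at h
  · rw [par_two_mul, par_odd] at h
    cases b <;> simp at h
  · omega

theorem biSys_len {E : EdgeSys G} (hE : ELen E) : Len (biSys E) := by
  intro m m' b ω ω' g h h'
  cases b
  · obtain ⟨h1, h2⟩ := hE _ _ _ _ _ _ ((bi_W E m).2 ω ω' g h) ((bi_W E m').2 ω ω' g h')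
    have h3 := par_inj (Bool.not_inj h2)
    omega
  · obtain ⟨h1, h2⟩ := hE _ _ _ _ _ _ ((bi_W E m).1 ω ω' g h) ((bi_W E m').1 ω ω' g h')
    have h3 := par_inj h2
    omega

theorem spl_bi (E₀ : EdgeSys G) : Spl (biSys E₀) false (fun ω => ω.down) :=
  fun _ _ _ hg => hg.2

theorem spl_flip {Ω : Type w} {E : BSys Ω G} {b : Bool} {h : Ω → Bool} (hs : Spl E b h) :
    Spl E.flip (!b) h := by
  intro ω ω' g hg
  have hg' : g ∈ E.S (!(!b)) ω ω' := hg
  rw [Bool.not_not] at hg'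
  exact hs ω ω' g hg'

theorem spl_hom {Ω : Type w} {Δ : Type w'} {E : BSys Ω G} {E' : BSys Δ G} {π : Δ → Ω}
    (hπ : E'.Hom E π) {b : Bool} {h : Ω → Bool} (hs : Spl E b h) :
    Spl E' b (fun δ => h (π δ)) := fun _ _ _ hg => hs _ _ _ (hπ.S hg)

theorem spl_red {Ω : Type w} {Δ : Type w'} {E : BSys Ω G} {b : Bool} {h : Ω → Bool}
    (hs : Spl E b h) (R : Reps E Δ) : Spl (redSys R) b (fun δ => h (R.src δ)) :=
  spl_hom (red_hom R) hs

end

section
variable {V : Type w} {G : Type v} [Group G] [MulAction G V]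

theorem treeSys_eLen {Γ : SimpleGraph V} (hΓ : Γ.IsTree)
    (hadj : ∀ (g : G) (x y : V), Γ.Adj x y → Γ.Adj (g • x) (g • y)) {p q : V}
    (hpq : Γ.Adj p q) (hinv : ∀ g : G, ¬ (g • p = q ∧ g • q = p)) :
    ELen (treeSys p q : EdgeSys G) := by
  intro m m' σ τ τ' g h h'
  obtain ⟨h1, h2⟩ := Tree_dist hΓ hadj hpq hinv m σ τ g h
  obtain ⟨h1', h2'⟩ := Tree_dist hΓ hadj hpq hinv m' σ τ' g h'
  have h3 := (Tree_dist hΓ hadj hpq hinv m (!τ) (!σ) g⁻¹ (P_inv _ h)).2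
  rw [SimpleGraph.dist_comm, ← Tree_dist_smul hΓ hadj g, smul_inv_smul] at h3
  have e1 : ∀ b : Bool, Tree_b p q (!b) = Tree_a p q b := by
    intro b
    cases b <;> rfl
  have e2 : ∀ b : Bool, Tree_a p q (!b) = Tree_b p q b := by
    intro b
    cases b <;> rfl
  rw [e1, e1] at h3
  by_cases hτ : τ = τ'
  · subst hτ
    exact ⟨by omega, rfl⟩
  · exfalso
    have e3 : τ' = !τ := by
      cases τ <;> cases τ' <;> simp at hτ ⊢
    rw [e3, e1] at h1' h2'
    have h4 := (Tree_dist hΓ hadj hpq hinv m' (!(!τ)) (!σ) g⁻¹ (P_inv _ (e3 ▸ h'))).2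
    rw [SimpleGraph.dist_comm, ← Tree_dist_smul hΓ hadj g, smul_inv_smul, e1, Bool.not_not] at h4
    omega

theorem len_tree {Γ : SimpleGraph V} (hΓ : Γ.IsTree)
    (hadj : ∀ (g : G) (x y : V), Γ.Adj x y → Γ.Adj (g • x) (g • y)) {p q : V}
    (hpq : Γ.Adj p q) (hinv : ∀ g : G, ¬ (g • p = q ∧ g • q = p)) :
    Len (biSys (treeSys p q : EdgeSys G)) := biSys_len (treeSys_eLen hΓ hadj hpq hinv)

/-- translation of a walk -/
def trHom {Γ : SimpleGraph V}
    (hadj : ∀ (g : G) (x y : V), Γ.Adj x y → Γ.Adj (g • x) (g • y)) (g : G) : Γ →g Γ :=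
  ⟨fun v => g • v, fun {a b} h => hadj g a b h⟩

theorem trHom_edges {Γ : SimpleGraph V}
    (hadj : ∀ (g : G) (x y : V), Γ.Adj x y → Γ.Adj (g • x) (g • y)) (g : G) {p q x y : V}
    {W : Γ.Walk x y} (hW : ∀ e ∈ W.edges, ∃ h : G, e = s(h • p, h • q)) :
    ∀ e ∈ (W.map (trHom hadj g)).edges, ∃ h : G, e = s(h • p, h • q) := by
  intro e he
  rw [SimpleGraph.Walk.edges_map, List.mem_map] at he
  obtain ⟨e', he', rfl⟩ := he
  obtain ⟨h, rfl⟩ := hW e' he'
  refine ⟨g * h, ?_⟩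
  rw [Sym2.map_mk, mul_smul, mul_smul]
  rfl

/-- the segment of an object, with explicit ends -/
theorem seg_expl {Γ : SimpleGraph V} (hΓ : Γ.IsTree)
    (hadj : ∀ (g : G) (x y : V), Γ.Adj x y → Γ.Adj (g • x) (g • y)) {p q : V}
    (hpq : Γ.Adj p q) (hinv : ∀ g : G, ¬ (g • p = q ∧ g • q = p)) {Ω : Type v} {E : BSys Ω G}
    {L a b : ℕ} {l r : Ω → G} {σ τ : Ω → Bool} (h : Seg (treeSys p q) E L a b l r σ τ) (ω : Ω) :
    (∃ W : Γ.Walk (l ω • Tree_a p q (σ ω)) (r ω • Tree_b p q (τ ω)),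
      W.IsPath ∧ W.length = L + 1 ∧ ∀ e ∈ W.edges, ∃ g : G, e = s(g • p, g • q)) ∧
    E.F ω ≤ MulAction.stabilizer G (l ω • Tree_a p q (σ ω)) ⊓
      MulAction.stabilizer G (r ω • Tree_b p q (τ ω)) := by
  obtain ⟨W, hW1, hW2⟩ := Tree_walk hadj hpq hinv L (σ ω) (τ ω) _ (h.path ω)
  have hy : (trHom hadj (l ω)) (((l ω)⁻¹ * r ω) • Tree_b p q (τ ω)) =
      r ω • Tree_b p q (τ ω) := by
    show l ω • ((l ω)⁻¹ * r ω) • Tree_b p q (τ ω) = r ω • Tree_b p q (τ ω)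
    rw [smul_smul, mul_inv_cancel_left]
  refine ⟨⟨(W.map (trHom hadj (l ω))).copy rfl hy, ?_, ?_, ?_⟩, ?_⟩
  · apply SimpleGraph.Walk.isPath_of_length_eq_dist
    have h1 := (Tree_dist hΓ hadj hpq hinv L (σ ω) (τ ω) _ (h.path ω)).1
    rw [← Tree_dist_smul hΓ hadj (l ω), smul_smul, mul_inv_cancel_left] at h1
    rw [SimpleGraph.Walk.length_copy, SimpleGraph.Walk.length_map, hW1, h1]
  · rw [SimpleGraph.Walk.length_copy, SimpleGraph.Walk.length_map, hW1]
  · intro e he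
    rw [SimpleGraph.Walk.edges_copy] at he
    exact trHom_edges hadj (l ω) hW2 e he
  · intro g hg
    have hl : (l ω)⁻¹ * g * l ω ∈ MulAction.stabilizer G p ⊓ MulAction.stabilizer G q := h.Fl hg
    have hr : (r ω)⁻¹ * g * r ω ∈ MulAction.stabilizer G p ⊓ MulAction.stabilizer G q := h.Fr hg
    rw [Subgroup.mem_inf, MulAction.mem_stabilizer_iff, MulAction.mem_stabilizer_iff] at hl hr
    have ha : ∀ s : Bool, ((l ω)⁻¹ * g * l ω) • Tree_a p q s = Tree_a p q s := by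
      intro s
      cases s
      · exact hl.1
      · exact hl.2
    have hb : ∀ s : Bool, ((r ω)⁻¹ * g * r ω) • Tree_b p q s = Tree_b p q s := by
      intro s
      cases s
      · exact hr.2
      · exact hr.1
    rw [Subgroup.mem_inf, MulAction.mem_stabilizer_iff, MulAction.mem_stabilizer_iff]
    constructor
    · have h1 := congrArg (fun z => l ω • z) (ha (σ ω))
      simp only [smul_smul] at h1
      rw [show l ω * ((l ω)⁻¹ * g * l ω) = g * l ω by group] at h1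
      rw [smul_smul]
      exact h1
    · have h1 := congrArg (fun z => r ω • z) (hb (τ ω))
      simp only [smul_smul] at h1
      rw [show r ω * ((r ω)⁻¹ * g * r ω) = g * r ω by group] at h1
      rw [smul_smul]
      exact h1

/-- the object groups of the self-inverse objects fix a segment reversed by `d δ` -/
theorem seg_rev {Γ : SimpleGraph V} (hΓ : Γ.IsTree)
    (hadj : ∀ (g : G) (x y : V), Γ.Adj x y → Γ.Adj (g • x) (g • y)) {p q : V}
    (hpq : Γ.Adj p q) (hinv : ∀ g : G, ¬ (g • p = q ∧ g • q = p)) {Ω : Type v} {E : BSys Ω G}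
    {L : ℕ} {l r : Ω → G} {σ τ : Ω → Bool} (h : Seg (treeSys p q) E L 1 0 l r σ τ)
    {Δ : Type v} (R : Reps E Δ) (δ : Δ) (hδ : R.inv δ = δ) :
    ∃ (x y : V) (W : Γ.Walk x y), W.IsPath ∧ W.length = L + 2 ∧
      (∀ e ∈ W.edges, ∃ g : G, e = s(g • p, g • q)) ∧ (∃ g : G, g • x = y ∧ g • y = x) ∧
      (redSys R).F δ ≤ MulAction.stabilizer G x ⊓ MulAction.stabilizer G y := by
  obtain ⟨⟨W, h1, h2, h3⟩, h4⟩ := seg_expl hΓ hadj hpq hinv (h.red R) δ
  refine ⟨_, _, W, h1, h2, h3, ⟨R.d δ, ?_, ?_⟩, h4⟩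
  · simp only [hδ]
    rw [mul_smul]
    cases σ (R.src δ) <;> rfl
  · have h5 : R.d δ * R.d (R.inv δ) ∈ (redSys R).F δ := d_mul_redF R δ
    have h6 := (Subgroup.mem_inf.1 (h4 h5)).1
    rw [MulAction.mem_stabilizer_iff, hδ] at h6
    simp only [hδ]
    have e1 : ∀ b : Bool, Tree_b p q (!b) = Tree_a p q b := by
      intro b
      cases b <;> rfl
    rw [e1, smul_smul]
    rw [smul_smul] at h6
    rw [← mul_assoc]
    exact h6

end

section
variable {A : Type u} {G : Type v} [CommRing A] [Group G] {β : BarStr A G} {ε : ℤ}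

/-- `2 j + 1` reductions -/
theorem reduce_iterZ (hε : ε = 1 ∨ ε = -1) (Z : ∀ (Ω : Type v) (E : BSys Ω G), BF E β ε → Prop)
    (hflip : ∀ (Ω : Type v) (E : BSys Ω G) (X : BF E β ε), E.NoInv → Z Ω E.flip X.flip → Z Ω E X)
    (hmove : ∀ (Ω Δ : Type v) (E : BSys Ω G) (R : Reps E Δ) (X : BF E β ε)
      (X' : BF (redSys R) β ε) (u : Matrix X.K X'.K (MonoidAlgebra A G)), E.NoInv →
      On0 E X.t (fun k => R.src (X'.t k)) u → X.M true = u * X'.M true * adj β u →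
      X'.M false = adj β u * X.M false * u → Z Δ (redSys R) X' → Z Ω E X)
    (E₀ : EdgeSys G) (j : ℕ) :
    ∀ (L : ℕ) (Ω : Type v) (E : BSys Ω G) (l r : Ω → G) (σ τ h : Ω → Bool), E.Geo → E.NoInv →
      Len E → Spl E false h → Seg E₀ E L 1 0 l r σ τ →
      (∀ (Ω' : Type v) (E' : BSys Ω' G) (l' r' : Ω' → G) (σ' τ' h' : Ω' → Bool), E'.Geo →
        E'.NoInv → Len E' → Spl E' false h' → Seg E₀ E' (L + 2 * j) 1 0 l' r' σ' τ' →
        ∀ (Δ : Type v) (R : Reps E' Δ) (X : BF (redSys R) β ε), Z Δ (redSys R) X) →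
      ∀ X : BF E β ε, Z Ω E X := by
  induction j with
  | zero =>
    intro L Ω E l r σ τ hb hG hN hL hh hS h X
    obtain ⟨Δ, ⟨R⟩⟩ := exists_reps E
    obtain ⟨X', u, h1, h2, h3⟩ := exists_red hN hε R X
    exact hmove Ω Δ E R X X' u hN h1 h2 h3 (h Ω E l r σ τ hb hG hN hL hh hS Δ R X')
  | succ j ih =>
    intro L Ω E l r σ τ hb hG hN hL hh hS h X
    obtain ⟨Δ, ⟨R⟩⟩ := exists_reps E
    obtain ⟨X', u, h1, h2, h3⟩ := exists_red hN hε R X
    have hG' : (redSys R).flip.Geo := (red_geo R hG).flip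
    have hN' : (redSys R).flip.NoInv := (red_noInv R hN).flip
    have hS' := (hS.red R).flip
    refine hmove Ω Δ E R X X' u hN h1 h2 h3 (hflip _ _ _ (red_noInv R hN) ?_)
    obtain ⟨Δ', ⟨R'⟩⟩ := exists_reps (redSys R).flip
    obtain ⟨X'', u', h1', h2', h3'⟩ := exists_red hN' hε R' X'.flip
    refine hmove _ _ _ R' _ X'' u' hN' h1' h2' h3' (hflip _ _ _ (red_noInv R' hN') ?_)
    have hS'' := (hS'.red R').flip
    refine ih (L + 1 + 1) Δ' (redSys R').flip _ _ _ _ _ (red_geo R' hG').flip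
      (red_noInv R' hN').flip (len_flip (len_red (len_flip (len_red hL R)) R'))
      (spl_flip (spl_red (spl_flip (spl_red hh R)) R')) hS'' ?_ _
    intro Ω' E' l' r' σ' τ' hb' g1 g2 g3 g4 g5
    have e : L + 1 + 1 + 2 * j = L + 2 * (j + 1) := by ring
    rw [e] at g5
    exact h Ω' E' l' r' σ' τ' hb' g1 g2 g3 g4 g5

end

end Pool.Agent.MIX
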