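import Pool.Agent.Lib.MIX.Elim

/-!
# Lemma C (row M3 of MIX): unipotent trivialisation of quadratic nil-perturbations (helper15)

`R` a ring with an anti-involution `dag`, `e + dag e = 1`.  `S` is a set of letters, closed under
`dag`, with `dag s * s = 0` and `dag s * e * s = 0`, such that every product of `N` letters is zero.
For every `z` in the additive span of the nonempty words, the quadratic element `e + z` is isometric
to `e` modulo `x - dag x`.
-/

set_option autoImplicit false

namespace Pool.Agent.MIX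

section lemC

variable {R : Type*} [Ring R]

/-- Products of at least `l` letters. -/
def wordC (S : Set R) (l : ℕ) : Set R :=
  {w | ∃ L : List R, l ≤ L.length ∧ (∀ s ∈ L, s ∈ S) ∧ L.prod = w}

/-- The additive span of the words of length at least `l`. -/
def spanC (S : Set R) (l : ℕ) : AddSubgroup R := AddSubgroup.closure (wordC S l)

theorem spanC_mul {S : Set R} {l m : ℕ} {a b : R} (ha : a ∈ spanC S l) (hb : b ∈ spanC S m) :
    a * b ∈ spanC S (l + m) := by
  unfold spanC at ha
  induction ha using AddSubgroup.closure_induction with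
  | mem x hx =>
    unfold spanC at hb
    induction hb using AddSubgroup.closure_induction with
    | mem y hy =>
      obtain ⟨L, hL, hLS, rfl⟩ := hx
      obtain ⟨L', hL', hLS', rfl⟩ := hy
      refine AddSubgroup.subset_closure ⟨L ++ L', ?_, ?_, by rw [List.prod_append]⟩
      · rw [List.length_append]; omega
      · intro s hs
        rcases List.mem_append.mp hs with h | h
        · exact hLS s h
        · exact hLS' s h
    | zero => rw [mul_zero]; exact zero_mem _
    | add y y' _ _ h h' => rw [mul_add]; exact add_mem h h'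
    | neg y _ h => rw [mul_neg]; exact neg_mem h
  | zero => rw [zero_mul]; exact zero_mem _
  | add x x' _ _ h h' => rw [add_mul]; exact add_mem h h'
  | neg x _ h => rw [neg_mul]; exact neg_mem h

theorem spanC_mono {S : Set R} {l m : ℕ} (h : l ≤ m) : spanC S m ≤ spanC S l := by
  refine AddSubgroup.closure_mono ?_
  rintro w ⟨L, hL, hLS, rfl⟩
  exact ⟨L, h.trans hL, hLS, rfl⟩

variable (dag : R →+ R) (hmul : ∀ a b, dag (a * b) = dag b * dag a)
  (hinv : ∀ a, dag (dag a) = a)

include hmul hinv in
theorem dag_oneC : dag 1 = 1 := by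
  have h : dag (dag 1 * 1) = dag 1 * dag (dag 1) := hmul _ _
  rw [mul_one, hinv, mul_one] at h
  exact h.symm

include hmul hinv in
theorem dag_prodC (L : List R) : dag L.prod = (L.reverse.map dag).prod := by
  induction L with
  | nil => simp [dag_oneC dag hmul hinv]
  | cons a L ih => simp [hmul, ih]

include hmul hinv in
theorem spanC_dag {S : Set R} (hS : ∀ s ∈ S, dag s ∈ S) {l : ℕ} {a : R} (ha : a ∈ spanC S l) :
    dag a ∈ spanC S l := by
  unfold spanC at ha
  induction ha using AddSubgroup.closure_induction with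
  | mem x hx =>
    obtain ⟨L, hL, hLS, rfl⟩ := hx
    refine AddSubgroup.subset_closure ⟨L.reverse.map dag, by simpa using hL, ?_,
      (dag_prodC dag hmul hinv L).symm⟩
    intro s hs
    obtain ⟨t, ht, rfl⟩ := List.mem_map.mp hs
    exact hS t (hLS t (List.mem_reverse.mp ht))
  | zero => rw [map_zero]; exact zero_mem _
  | add x x' _ _ h h' => rw [map_add]; exact add_mem h h'
  | neg x _ h => rw [map_neg]; exact neg_mem h

include hmul hinv in
/-- The quadratic data of an element of the span. -/
theorem spanC_quad {e : R} (he : e + dag e = 1) {S : Set R} (hS : ∀ s ∈ S, dag s ∈ S)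
    (h1 : ∀ s ∈ S, dag s * s = 0) (h2 : ∀ s ∈ S, dag s * e * s = 0) {l : ℕ} (hl : 1 ≤ l) {z : R}
    (hz : z ∈ spanC S l) :
    ∃ y ∈ spanC S (l + l), ∃ x : R, dag z * z = y + dag y ∧ dag z * e * z = y + (x - dag x) := by
  have hz' := hz
  unfold spanC at hz
  induction hz using AddSubgroup.closure_induction with
  | mem x hx =>
    obtain ⟨L, hL, hLS, rfl⟩ := hx
    obtain ⟨s, L', rfl⟩ : ∃ s L', L = s :: L' := by
      cases L with
      | nil => simp at hL; omega
      | cons s L' => exact ⟨s, L', rfl⟩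
    have hs : s ∈ S := hLS s (by simp)
    refine ⟨0, zero_mem _, 0, ?_, ?_⟩
    · rw [List.prod_cons, hmul]
      have : dag L'.prod * dag s * (s * L'.prod) = dag L'.prod * (dag s * s) * L'.prod := by
        noncomm_ring
      rw [this, h1 s hs]; simp
    · rw [List.prod_cons, hmul]
      have : dag L'.prod * dag s * e * (s * L'.prod) = dag L'.prod * (dag s * e * s) * L'.prod := by
        noncomm_ring
      rw [this, h2 s hs]; simp
  | zero => exact ⟨0, zero_mem _, 0, by simp, by simp⟩
  | add a b ha hb iha ihb =>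
    obtain ⟨y, hy, x, e1, e2⟩ := iha ha
    obtain ⟨y', hy', x', e1', e2'⟩ := ihb hb
    have hab : dag a * b ∈ spanC S (l + l) := spanC_mul (spanC_dag dag hmul hinv hS ha) hb
    refine ⟨y + y' + dag a * b, add_mem (add_mem hy hy') hab, x + x' - dag a * dag e * b, ?_, ?_⟩
    · simp only [map_add, hmul, hinv]
      have : (dag a + dag b) * (a + b) = dag a * a + dag b * b + dag a * b + dag b * a := by
        noncomm_ring
      rw [this, e1, e1']; abel
    · simp only [map_add, map_sub, hmul, hinv]
      have : (dag a + dag b) * e * (a + b) =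
        dag a * e * a + dag b * e * b + dag a * e * b + dag b * e * a := by noncomm_ring
      have h3 : dag a * b = dag a * e * b + dag a * dag e * b := by
        rw [← add_mul, ← mul_add, he, mul_one]
      rw [this, e2, e2', h3]; noncomm_ring
  | neg a ha iha =>
    obtain ⟨y, hy, x, e1, e2⟩ := iha ha
    refine ⟨y, hy, x, ?_, ?_⟩
    · rw [map_neg, neg_mul_neg, e1]
    · rw [map_neg, ← e2]; noncomm_ring

include hmul hinv in
theorem lemC_aux {e : R} (he : e + dag e = 1) {S : Set R} (hS : ∀ s ∈ S, dag s ∈ S)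
    (h1 : ∀ s ∈ S, dag s * s = 0) (h2 : ∀ s ∈ S, dag s * e * s = 0) (N : ℕ)
    (hN : spanC S N = ⊥) : ∀ (k l : ℕ), N ≤ l + k → 1 ≤ l → ∀ z ∈ spanC S l,
    ∃ u v x : R, u * v = 1 ∧ v * u = 1 ∧ dag u * (e + z) * u = e + x - dag x := by
  have hone := dag_oneC dag hmul hinv
  intro k
  induction k with
  | zero =>
    intro l hl _ z hz
    have hz0 : z = 0 := by
      have := spanC_mono (S := S) (by omega : N ≤ l) hz
      rw [hN] at this
      simpa using this
    exact ⟨1, 1, 0, by simp, by simp, by simp [hz0, hone]⟩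
  | succ k ih =>
    intro l hl hl1 z hz
    obtain ⟨y, hy, x, e1, e2⟩ := spanC_quad dag hmul hinv he hS h1 h2 hl1 hz
    have hzz : z * z ∈ spanC S (l + l) := spanC_mul hz hz
    have hzzz : dag z * (z * z) ∈ spanC S (l + l) :=
      spanC_mono (by omega) (spanC_mul (spanC_dag dag hmul hinv hS hz) hzz)
    have hz' : -(z * z) - y + dag z * (z * z) ∈ spanC S (l + l) :=
      add_mem (sub_mem (neg_mem hzz) hy) hzzz
    obtain ⟨u, v, x', huv, hvu, hu⟩ := ih (l + l) (by omega) (by omega) _ hz'
    -- `1 - z` is a unit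
    have hpow : ∀ n : ℕ, z ^ n ∈ spanC S n := by
      intro n
      induction n with
      | zero => exact AddSubgroup.subset_closure ⟨[], by simp, by simp, by simp⟩
      | succ n ihn => rw [pow_succ]; exact spanC_mul ihn (spanC_mono hl1 hz)
    have hnil : IsNilpotent z := ⟨N, by have := hpow N; rw [hN] at this; simpa using this⟩
    obtain ⟨w, hw⟩ := hnil.isUnit_one_sub
    -- the first step
    have hstep : dag (1 - z) * (e + z) * (1 - z) =
        e + (-(z * z) - y + dag z * (z * z)) +
          ((x + (y - dag z * e)) - dag (x + (y - dag z * e))) := by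
      have h4 : dag z * (e + z) * z = dag z * e * z + dag z * (z * z) := by noncomm_ring
      have h5 : dag (1 - z) * (e + z) * (1 - z) =
          e + z - e * z - z * z - dag z * e - dag z * z + (dag z * (e + z) * z) := by
        rw [map_sub, hone]; noncomm_ring
      have h6 : dag (dag z * e) = z - e * z := by
        rw [hmul, hinv, eq_sub_iff_add_eq, ← add_mul, add_comm, he, one_mul]
      rw [h5, h4, e1, e2]
      simp only [map_add, map_sub, h6]
      noncomm_ring
    refine ⟨(1 - z) * u, v * ↑w⁻¹, x' + dag u * (x + (y - dag z * e)) * u, ?_, ?_, ?_⟩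
    · rw [← hw]
      calc (w : R) * u * (v * ↑w⁻¹) = (w : R) * (u * v) * ↑w⁻¹ := by noncomm_ring
        _ = 1 := by rw [huv, mul_one, Units.mul_inv]
    · rw [← hw]
      calc v * ↑w⁻¹ * ((w : R) * u) = v * (↑w⁻¹ * (w : R)) * u := by noncomm_ring
        _ = 1 := by rw [Units.inv_mul, mul_one, hvu]
    · set X : R := x + (y - dag z * e) with hX
      set z' : R := -(z * z) - y + dag z * (z * z) with hz'd
      clear_value X z'
      have h7 : dag (x' + dag u * X * u) = dag x' + dag u * dag X * u := by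
        rw [map_add, hmul (dag u * X) u, hmul (dag u) X, hinv]; noncomm_ring
      calc dag ((1 - z) * u) * (e + z) * ((1 - z) * u)
          = dag u * (dag (1 - z) * (e + z) * (1 - z)) * u := by rw [hmul]; noncomm_ring
        _ = dag u * (e + z' + (X - dag X)) * u := by rw [hstep]
        _ = dag u * (e + z') * u + (dag u * X * u - dag u * dag X * u) := by noncomm_ring
        _ = e + (x' + dag u * X * u) - dag (x' + dag u * X * u) := by
          rw [hu, h7]
          noncomm_ring

include hmul hinv in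
/-- **Lemma C.** -/
theorem lemC (e : R) (he : e + dag e = 1) (S : Set R) (hS : ∀ s ∈ S, dag s ∈ S)
    (h1 : ∀ s ∈ S, dag s * s = 0) (h2 : ∀ s ∈ S, dag s * e * s = 0) (N : ℕ)
    (hN : ∀ L : List R, (∀ s ∈ L, s ∈ S) → L.length = N → L.prod = 0) (z : R)
    (hz : z ∈ AddSubgroup.closure {w | ∃ L : List R, L ≠ [] ∧ (∀ s ∈ L, s ∈ S) ∧ L.prod = w}) :
    ∃ u v x : R, u * v = 1 ∧ v * u = 1 ∧ dag u * (e + z) * u = e + x - dag x := by
  have hbot : spanC S N = ⊥ := by
    rw [eq_bot_iff, spanC, AddSubgroup.closure_le]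
    rintro w ⟨L, hL, hLS, rfl⟩
    have h3 : L.prod = (L.take N).prod * (L.drop N).prod := (L.prod_take_mul_prod_drop N).symm
    have h4 : (L.take N).prod = 0 :=
      hN _ (fun s hs => hLS s (List.mem_of_mem_take hs)) (by rw [List.length_take]; omega)
    simp [h3, h4]
  refine lemC_aux dag hmul hinv he hS h1 h2 N hbot N 1 (by omega) le_rfl z ?_
  refine AddSubgroup.closure_mono ?_ hz
  rintro w ⟨L, hL, hLS, rfl⟩
  exact ⟨L, by cases L with
    | nil => exact absurd rfl hL
    | cons a L => simp, hLS, rfl⟩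

end lemC

section words

open MonoidAlgebra Pool.Agent.Lib.MP_98022b_UN Pool.Agent.Lib.MP_98022b_UM

universe u v

variable {A : Type u} {G : Type v} [CommRing A] [Group G] {β : BarStr A G} {ε : ℤ}
  {J : Type} [Fintype J] [DecidableEq J]

/-- products of `n` pairs of letters -/
private noncomputable def pairsC (β : BarStr A G) (ε : ℤ) (a c : Matrix J J (MonoidAlgebra A G))
    (n : ℕ) (f : ℕ → Bool) : Matrix J J (MonoidAlgebra A G) :=
  (List.ofFn (n := n) fun i => (if f (2 * i) then a else ε • adj β a) *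
    (if f (2 * i + 1) then c else ε • adj β c)).prod

private theorem pairsC_succ (a c : Matrix J J (MonoidAlgebra A G)) (n : ℕ) (f : ℕ → Bool) :
    pairsC β ε a c (n + 1) f = ((if f 0 then a else ε • adj β a) *
      (if f 1 then c else ε • adj β c)) * pairsC β ε a c n (fun k => f (k + 2)) := by
  unfold pairsC
  rw [List.ofFn_succ, List.prod_cons]
  congr 2

/-- upper right letter -/
private noncomputable def upC (ε : ℤ) (x : Matrix J J (MonoidAlgebra A G)) :
    Matrix (J ⊕ J) (J ⊕ J) (MonoidAlgebra A G) := Matrix.fromBlocks 0 (ε • x) 0 0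

/-- lower left letter -/
private noncomputable def loC (y : Matrix J J (MonoidAlgebra A G)) :
    Matrix (J ⊕ J) (J ⊕ J) (MonoidAlgebra A G) := Matrix.fromBlocks 0 0 y 0

/-- the letters -/
private def letC (β : BarStr A G) (ε : ℤ) (a c : Matrix J J (MonoidAlgebra A G)) :
    Set (Matrix (J ⊕ J) (J ⊕ J) (MonoidAlgebra A G)) :=
  {s | (∃ b : Bool, s = upC ε (if b then a else ε • adj β a)) ∨
    ∃ b : Bool, s = loC (if b then c else ε • adj β c)}

private theorem prod_evenC (a c : Matrix J J (MonoidAlgebra A G)) : ∀ (n : ℕ)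
    (L : List (Matrix (J ⊕ J) (J ⊕ J) (MonoidAlgebra A G))), (∀ s ∈ L, s ∈ letC β ε a c) →
    L.length = 2 * n → ∃ P Q : Matrix J J (MonoidAlgebra A G),
      L.prod = Matrix.fromBlocks P 0 0 Q ∧ (P = 0 ∨ ∃ f, P = ε ^ n • pairsC β ε a c n f) := by
  intro n
  induction n with
  | zero =>
    intro L _ hlen
    have : L = [] := List.length_eq_zero_iff.mp (by omega)
    subst this
    refine ⟨1, 1, ?_, Or.inr ⟨fun _ => true, ?_⟩⟩
    · rw [List.prod_nil, Matrix.fromBlocks_one]
    · simp [pairsC]
  | succ n ih =>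
    intro L hL hlen
    obtain ⟨s, s', L', rfl⟩ : ∃ s s' L', L = s :: s' :: L' := by
      match L, hlen with
      | s :: s' :: L', _ => exact ⟨s, s', L', rfl⟩
      | [], h => simp at h
      | [_], h => simp at h; omega
    obtain ⟨P, Q, hPQ, hP⟩ := ih L' (fun t ht => hL t (by simp [ht]))
      (by simp only [List.length_cons] at hlen; omega)
    rw [List.prod_cons, List.prod_cons, hPQ, ← Matrix.mul_assoc]
    rcases hL s (by simp) with ⟨b, rfl⟩ | ⟨b, rfl⟩ <;>
      rcases hL s' (by simp) with ⟨b', rfl⟩ | ⟨b', rfl⟩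
    · refine ⟨0, 0, ?_, Or.inl rfl⟩
      rw [upC, upC, Matrix.fromBlocks_multiply, Matrix.fromBlocks_multiply]; simp
    · refine ⟨(ε • (if b then a else ε • adj β a)) * (if b' then c else ε • adj β c) * P, 0, ?_, ?_⟩
      · rw [upC, loC, Matrix.fromBlocks_multiply, Matrix.fromBlocks_multiply]; simp
      · rcases hP with rfl | ⟨f, rfl⟩
        · left; rw [Matrix.mul_zero]
        · right
          refine ⟨fun k => if k = 0 then b else if k = 1 then b' else f (k - 2), ?_⟩
          rw [pairsC_succ]
          simp only [Nat.add_sub_cancel]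
          have e1 : (fun k : ℕ => (if k + 2 = 0 then b else if k + 2 = 1 then b' else f k)) = f := by
            funext k
            rw [if_neg (by omega), if_neg (by omega)]
          rw [e1]
          simp only [if_true, one_ne_zero, if_false]
          rw [pow_succ, mul_comm (ε ^ n) ε, mul_smul, Matrix.smul_mul, Matrix.smul_mul,
            Matrix.mul_smul]
    · refine ⟨0, (if b then c else ε • adj β c) * (ε • (if b' then a else ε • adj β a)) * Q, ?_,
        Or.inl rfl⟩
      rw [upC, loC, Matrix.fromBlocks_multiply, Matrix.fromBlocks_multiply]; simp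
    · refine ⟨0, 0, ?_, Or.inl rfl⟩
      rw [loC, loC, Matrix.fromBlocks_multiply, Matrix.fromBlocks_multiply]; simp

private theorem prod_lastC (a c : Matrix J J (MonoidAlgebra A G)) {N : ℕ}
    (h : ∀ f : ℕ → Bool, pairsC β ε a c N f = 0)
    (L : List (Matrix (J ⊕ J) (J ⊕ J) (MonoidAlgebra A G))) (hL : ∀ s ∈ L, s ∈ letC β ε a c)
    (hlen : L.length = 2 * (N + 1)) : L.prod = 0 := by
  obtain ⟨P, Q, hPQ, hP⟩ := prod_evenC a c (N + 1) L hL hlen
  have hP0 : P = 0 := by
    rcases hP with h0 | ⟨f, rfl⟩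
    · exact h0
    · rw [pairsC_succ, h, Matrix.mul_zero, smul_zero]
  obtain ⟨s, L1, rfl⟩ : ∃ s L1, L = s :: L1 := by
    cases L with
    | nil => simp at hlen
    | cons s L1 => exact ⟨s, L1, rfl⟩
  obtain ⟨L2, s', rfl⟩ : ∃ L2 s', L1 = L2 ++ [s'] := by
    have hne : L1 ≠ [] := by
      rintro rfl; simp at hlen; omega
    exact ⟨L1.dropLast, L1.getLast hne, (List.dropLast_append_getLast hne).symm⟩
  obtain ⟨P', Q', hPQ', hP'⟩ := prod_evenC a c N L2 (fun t ht => hL t (by simp [ht]))
    (by simp only [List.length_cons, List.length_append, List.length_nil] at hlen; omega)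
  have hP'0 : P' = 0 := by
    rcases hP' with h0 | ⟨f, rfl⟩
    · exact h0
    · rw [h, smul_zero]
  subst hP0 hP'0
  rw [List.prod_cons, List.prod_append, hPQ', List.prod_singleton] at hPQ ⊢
  rcases hL s (by simp) with ⟨b, rfl⟩ | ⟨b, rfl⟩
  · have hQ : Q = 0 := by
      have h1 := congrArg Matrix.toBlocks₂₂ hPQ
      rw [Matrix.toBlocks_fromBlocks₂₂, upC, ← Matrix.fromBlocks_toBlocks s',
        Matrix.fromBlocks_multiply, Matrix.fromBlocks_multiply,
        Matrix.toBlocks_fromBlocks₂₂] at h1
      simpa using h1.symm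
    rw [hPQ, hQ, Matrix.fromBlocks_zero]
  · rw [loC, ← Matrix.mul_assoc, Matrix.fromBlocks_multiply]
    simp

/-- the hyperbolic matrix -/
private noncomputable def phC (A : Type u) (G : Type v) [CommRing A] [Group G] (ε : ℤ) (J : Type)
    [DecidableEq J] : Matrix (J ⊕ J) (J ⊕ J) (MonoidAlgebra A G) :=
  Matrix.fromBlocks 0 1 (ε • 1) 0

/-- its inverse -/
private noncomputable def piC (A : Type u) (G : Type v) [CommRing A] [Group G] (ε : ℤ) (J : Type)
    [DecidableEq J] : Matrix (J ⊕ J) (J ⊕ J) (MonoidAlgebra A G) :=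
  Matrix.fromBlocks 0 (ε • 1) 1 0

private theorem ph_mul_pi (hε : ε = 1 ∨ ε = -1) : phC A G ε J * piC A G ε J = 1 := by
  rw [phC, piC, Matrix.fromBlocks_multiply]
  rcases hε with rfl | rfl <;> simp

private theorem pi_mul_ph (hε : ε = 1 ∨ ε = -1) : piC A G ε J * phC A G ε J = 1 := by
  rw [phC, piC, Matrix.fromBlocks_multiply]
  rcases hε with rfl | rfl <;> simp

omit [Fintype J] in
private theorem adj_ph (hε : ε = 1 ∨ ε = -1) : adj β (phC A G ε J) = ε • phC A G ε J := by
  rw [phC, adj_fromBlocks, adj_zero, adj_one, adj_zsmul, adj_one, Matrix.fromBlocks_smul]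
  rcases hε with rfl | rfl <;> simp

omit [Fintype J] in
private theorem adj_pi (hε : ε = 1 ∨ ε = -1) : adj β (piC A G ε J) = ε • piC A G ε J := by
  rw [piC, adj_fromBlocks, adj_zero, adj_one, adj_zsmul, adj_one, Matrix.fromBlocks_smul]
  rcases hε with rfl | rfl <;> simp

/-- the anti-involution `x ↦ φ₀ x* φ₀⁻¹` -/
private noncomputable def dagC (β : BarStr A G) (ε : ℤ) (J : Type) [Fintype J] [DecidableEq J] :
    Matrix (J ⊕ J) (J ⊕ J) (MonoidAlgebra A G) →+ Matrix (J ⊕ J) (J ⊕ J) (MonoidAlgebra A G) where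
  toFun x := phC A G ε J * adj β x * piC A G ε J
  map_zero' := by rw [adj_zero, Matrix.mul_zero, Matrix.zero_mul]
  map_add' x y := by rw [adj_add, Matrix.mul_add, Matrix.add_mul]

private theorem dagC_apply (x : Matrix (J ⊕ J) (J ⊕ J) (MonoidAlgebra A G)) :
    dagC β ε J x = phC A G ε J * adj β x * piC A G ε J := rfl

private theorem dagC_mul (hε : ε = 1 ∨ ε = -1) (x y : Matrix (J ⊕ J) (J ⊕ J) (MonoidAlgebra A G)) :
    dagC β ε J (x * y) = dagC β ε J y * dagC β ε J x := by
  rw [dagC_apply, dagC_apply, dagC_apply, adj_mul]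
  calc phC A G ε J * (adj β y * adj β x) * piC A G ε J
      = phC A G ε J * adj β y * 1 * adj β x * piC A G ε J := by
        rw [Matrix.mul_one]; simp only [Matrix.mul_assoc]
    _ = _ := by rw [← pi_mul_ph (A := A) (G := G) (J := J) hε]; simp only [Matrix.mul_assoc]

private theorem dagC_dagC (hε : ε = 1 ∨ ε = -1)
    (x : Matrix (J ⊕ J) (J ⊕ J) (MonoidAlgebra A G)) : dagC β ε J (dagC β ε J x) = x := by
  have hεε : ε * ε = 1 := by rcases hε with rfl | rfl <;> norm_num
  rw [dagC_apply, dagC_apply, adj_mul, adj_mul, adj_adj, adj_ph hε, adj_pi hε]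
  calc phC A G ε J * (ε • piC A G ε J * (x * ε • phC A G ε J)) * piC A G ε J
      = (ε * ε) • (phC A G ε J * piC A G ε J * x * (phC A G ε J * piC A G ε J)) := by
        rw [Matrix.mul_smul, Matrix.smul_mul, Matrix.mul_smul, Matrix.mul_smul, Matrix.smul_mul,
          Matrix.mul_smul, Matrix.smul_mul, smul_smul]
        simp only [Matrix.mul_assoc]
    _ = x := by rw [hεε, ph_mul_pi hε, one_smul, Matrix.one_mul, Matrix.mul_one]

private theorem dagC_up (hε : ε = 1 ∨ ε = -1) (x : Matrix J J (MonoidAlgebra A G)) :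
    dagC β ε J (upC ε x) = upC ε (ε • adj β x) := by
  have hεε : ε * ε = 1 := by rcases hε with rfl | rfl <;> norm_num
  rw [dagC_apply, upC, upC, phC, piC, adj_fromBlocks, adj_zero, adj_zsmul,
    Matrix.fromBlocks_multiply, Matrix.fromBlocks_multiply]
  rcases hε with rfl | rfl <;> simp

private theorem dagC_lo (hε : ε = 1 ∨ ε = -1) (x : Matrix J J (MonoidAlgebra A G)) :
    dagC β ε J (loC x) = loC (ε • adj β x) := by
  rw [dagC_apply, loC, loC, phC, piC, adj_fromBlocks, adj_zero,
    Matrix.fromBlocks_multiply, Matrix.fromBlocks_multiply]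
  rcases hε with rfl | rfl <;> simp

private theorem dag_letC (hε : ε = 1 ∨ ε = -1) (a c : Matrix J J (MonoidAlgebra A G)) :
    ∀ s ∈ letC β ε a c, dagC β ε J s ∈ letC β ε a c := by
  have hεε : ε * ε = 1 := by rcases hε with rfl | rfl <;> norm_num
  have key : ∀ (x : Matrix J J (MonoidAlgebra A G)) (b : Bool),
      ε • adj β (if b then x else ε • adj β x) = if (!b) then x else ε • adj β x := by
    intro x b
    cases b
    · simp only [Bool.false_eq_true, if_false, Bool.not_false, if_true]
      rw [adj_zsmul, adj_adj, smul_smul, hεε, one_smul]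
    · simp
  rintro s (⟨b, rfl⟩ | ⟨b, rfl⟩)
  · exact Or.inl ⟨!b, by rw [dagC_up hε, key]⟩
  · exact Or.inr ⟨!b, by rw [dagC_lo hε, key]⟩

/-- **Lemma C** for `[[a, 1], [0, c]]`. -/
theorem iso_hyp_of_words (hε : ε = 1 ∨ ε = -1) (a c : Matrix J J (MonoidAlgebra A G)) {N : ℕ}
    (h : ∀ f : ℕ → Bool, (List.ofFn (n := N) fun i =>
      (if f (2 * i) then a else ε • adj β a) * (if f (2 * i + 1) then c else ε • adj β c)).prod
        = 0) :
    Iso β ε (Matrix.fromBlocks a 1 0 c) (hyp A G J) := by
  have hεε : ε * ε = 1 := by rcases hε with rfl | rfl <;> norm_num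
  set e : Matrix (J ⊕ J) (J ⊕ J) (MonoidAlgebra A G) := Matrix.fromBlocks 1 0 0 0 with he
  have he1 : dagC β ε J e = Matrix.fromBlocks 0 0 0 1 := by
    rw [dagC_apply, he, phC, piC, adj_fromBlocks, adj_zero, adj_one,
      Matrix.fromBlocks_multiply, Matrix.fromBlocks_multiply]
    rcases hε with rfl | rfl <;> simp
  have he2 : e + dagC β ε J e = 1 := by
    rw [he1, he, Matrix.fromBlocks_add]; simp
  obtain ⟨u, v, x, huv, hvu, hu⟩ := lemC (dagC β ε J) (dagC_mul hε) (dagC_dagC hε) e he2
    (letC β ε a c) (dag_letC hε a c)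
    (by
      intro s hs
      rcases hs with ⟨b, rfl⟩ | ⟨b, rfl⟩
      · rw [dagC_up hε, upC, upC, Matrix.fromBlocks_multiply]; simp
      · rw [dagC_lo hε, loC, loC, Matrix.fromBlocks_multiply]; simp)
    (by
      intro s hs
      rcases hs with ⟨b, rfl⟩ | ⟨b, rfl⟩
      · rw [dagC_up hε, upC, upC, he, Matrix.fromBlocks_multiply, Matrix.fromBlocks_multiply]
        simp
      · rw [dagC_lo hε, loC, loC, he, Matrix.fromBlocks_multiply, Matrix.fromBlocks_multiply]
        simp)
    (2 * (N + 1)) (fun L hL hlen => prod_lastC a c h L hL hlen) (upC ε a + loC c)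
    (by
      refine add_mem (AddSubgroup.subset_closure ⟨[upC ε a], by simp, ?_, by simp⟩)
        (AddSubgroup.subset_closure ⟨[loC c], by simp, ?_, by simp⟩)
      · intro s hs
        rw [List.mem_singleton] at hs
        exact Or.inl ⟨true, by rw [hs]; simp⟩
      · intro s hs
        rw [List.mem_singleton] at hs
        exact Or.inr ⟨true, by rw [hs]; simp⟩)
  -- the form is `(e + z) φ₀`
  have hθ : (e + (upC ε a + loC c)) * phC A G ε J = Matrix.fromBlocks a 1 0 c := by
    rw [he, upC, loC, phC, Matrix.fromBlocks_add, Matrix.fromBlocks_add,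
      Matrix.fromBlocks_multiply]
    rcases hε with rfl | rfl <;> simp
  have hhyp : e * phC A G ε J = hyp A G J := by
    rw [he, phC, hyp, Matrix.fromBlocks_multiply]; simp
  have hW : adj β (dagC β ε J u) = piC A G ε J * u * phC A G ε J := by
    rw [dagC_apply, adj_mul, adj_mul, adj_adj, adj_ph hε, adj_pi hε, Matrix.smul_mul,
      Matrix.mul_smul, Matrix.mul_smul, smul_smul, hεε, one_smul, Matrix.mul_assoc]
  have hx : dagC β ε J x * phC A G ε J = ε • adj β (x * phC A G ε J) := by
    rw [dagC_apply, adj_mul, adj_ph hε, Matrix.smul_mul, smul_smul, hεε, one_smul,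
      Matrix.mul_assoc, pi_mul_ph hε, Matrix.mul_one]
  have hdd : ∀ p q : Matrix (J ⊕ J) (J ⊕ J) (MonoidAlgebra A G), p * q = 1 →
      dagC β ε J q * dagC β ε J p = 1 := by
    intro p q hpq
    rw [← dagC_mul hε, hpq, dagC_apply, adj_one, Matrix.mul_one, ph_mul_pi hε]
  have hE : EIso β ε (Matrix.fromBlocks a 1 0 c) (hyp A G J) := by
    refine ⟨dagC β ε J u, dagC β ε J v, x * phC A G ε J, hdd v u hvu, hdd u v huv, ?_⟩
    rw [hW, ← hx, ← hhyp, ← hθ]
    calc dagC β ε J u * ((e + (upC ε a + loC c)) * phC A G ε J) * (piC A G ε J * u * phC A G ε J)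
        = dagC β ε J u * (e + (upC ε a + loC c)) * (phC A G ε J * piC A G ε J) * u *
            phC A G ε J := by simp only [Matrix.mul_assoc]
      _ = (e + x - dagC β ε J x) * phC A G ε J := by rw [ph_mul_pi hε, Matrix.mul_one, hu]
      _ = e * phC A G ε J + (x * phC A G ε J - dagC β ε J x * phC A G ε J) := by
          rw [Matrix.sub_mul, Matrix.add_mul]; abel
  exact hE.symm.iso

end words

end Pool.Agent.MIX
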