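import Mathlib
import Pool.Agent.Lib.MIX.Defs

/-! Algebra with `a`, `c`, `q = c (1 - ε a c)⁻¹`. -/

set_option autoImplicit false

open MonoidAlgebra Pool.Agent.Lib.MP_98022b_UN Pool.Agent.Lib.MP_98022b_UM

namespace Pool.Agent.MIX

universe u v w w'

/-! ### algebra with `a`, `c`, `Z` -/
section
variable {A : Type u} {G : Type v} [CommRing A] [Group G] {β : BarStr A G} {ε : ℤ}
  {K : Type} [Fintype K] [DecidableEq K]

structure ZData (β : BarStr A G) (ε : ℤ) (a c Z : Matrix K K (MonoidAlgebra A G)) : Prop where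
  sa : adj β a = ε • a
  sc : adj β c = ε • c
  z1 : (1 - ε • (a * c)) * Z = 1
  z2 : Z * (1 - ε • (a * c)) = 1

theorem ZData.q2 {a c Z : Matrix K K (MonoidAlgebra A G)} (h : ZData β ε a c Z) :
    Z = 1 + ε • (a * (c * Z)) := by
  have := h.z1
  rw [Matrix.sub_mul, Matrix.one_mul, sub_eq_iff_eq_add] at this
  rw [← Matrix.mul_assoc, ← Matrix.smul_mul]
  exact this

theorem ZData.q3 {a c Z : Matrix K K (MonoidAlgebra A G)} (h : ZData β ε a c Z) :
    c * Z = c * (1 + ε • (a * (c * Z))) := by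
  rw [← h.q2]

theorem ZData.q4 {a c Z : Matrix K K (MonoidAlgebra A G)} (h : ZData β ε a c Z) :
    c * Z = (1 + ε • (c * Z * a)) * c := by
  have h2 := h.z2
  have : c * Z * (1 - ε • (a * c)) = c := by rw [Matrix.mul_assoc, h2, Matrix.mul_one]
  rw [Matrix.mul_sub, Matrix.mul_one, sub_eq_iff_eq_add] at this
  rw [Matrix.add_mul, Matrix.one_mul, Matrix.smul_mul, Matrix.mul_assoc (c * Z)]
  rw [Matrix.mul_smul] at this
  exact this

theorem ZData.adj_q (hε : ε = 1 ∨ ε = -1) {a c Z : Matrix K K (MonoidAlgebra A G)}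
    (h : ZData β ε a c Z) : adj β (c * Z) = ε • (c * Z) := by
  have hee : ε * ε = 1 := by rcases hε with rfl | rfl <;> norm_num
  have e1 : adj β (1 - ε • (a * c)) = 1 - ε • (c * a) := by
    rw [adj_sub, adj_one, adj_zsmul, adj_mul, h.sa, h.sc, Matrix.smul_mul, Matrix.mul_smul,
      smul_smul ε ε, hee, one_smul]
  have h1 := congrArg (adj β) h.z2
  rw [adj_mul, e1, adj_one] at h1
  have h2 := congrArg (adj β) h.z1
  rw [adj_mul, e1, adj_one] at h2
  -- h1 : (1 - ε c a) Z* = 1, h2 : Z* (1 - ε c a) = 1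
  have h3 : (1 - ε • (c * a)) * (c * Z) = c := by
    have : (1 - ε • (c * a)) * (c * Z) = c * ((1 - ε • (a * c)) * Z) := by
      simp only [Matrix.sub_mul, Matrix.mul_sub, Matrix.one_mul, Matrix.smul_mul,
        Matrix.mul_smul, Matrix.mul_assoc]
    rw [this, h.z1, Matrix.mul_one]
  have h4 : c * Z = adj β Z * c := by
    calc c * Z = (adj β Z * (1 - ε • (c * a))) * (c * Z) := by rw [h2, Matrix.one_mul]
      _ = adj β Z * c := by rw [Matrix.mul_assoc, h3]
  rw [adj_mul, h.sc, Matrix.mul_smul, ← h4]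

/-- the data used in the elimination -/
structure QData (β : BarStr A G) (ε : ℤ) (a c q : Matrix K K (MonoidAlgebra A G)) : Prop where
  sa : adj β a = ε • a
  sc : adj β c = ε • c
  sq : adj β q = ε • q
  q3 : c * (1 + ε • (a * q)) = q
  q4 : (1 + ε • (q * a)) * c = q

theorem ZData.toQ (hε : ε = 1 ∨ ε = -1) {a c Z : Matrix K K (MonoidAlgebra A G)}
    (h : ZData β ε a c Z) : QData β ε a c (c * Z) :=
  ⟨h.sa, h.sc, h.adj_q hε, h.q3.symm, h.q4.symm⟩

/-- the refinement `D` -/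
noncomputable def refD (ε : ℤ) (a1 a c1 q : Matrix K K (MonoidAlgebra A G)) :
    Matrix K K (MonoidAlgebra A G) :=
  q + ε • (q * (a - a1) * q) - (1 + ε • (q * a)) * c1 * (1 + ε • (a * q))

theorem QData.e1 (hε : ε = 1 ∨ ε = -1) {a c q : Matrix K K (MonoidAlgebra A G)}
    (h : QData β ε a c q) : adj β (1 + ε • (q * a)) = 1 + ε • (a * q) := by
  have hee : ε * ε = 1 := by rcases hε with rfl | rfl <;> norm_num
  rw [adj_add, adj_one, adj_zsmul, adj_mul, h.sq, h.sa, Matrix.smul_mul, Matrix.mul_smul,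
      smul_smul ε ε, hee, one_smul]

theorem QData.e2 (hε : ε = 1 ∨ ε = -1) {a c q : Matrix K K (MonoidAlgebra A G)}
    (h : QData β ε a c q) : adj β (1 + ε • (a * q)) = 1 + ε • (q * a) := by
  rw [← h.e1 hε, adj_adj]

theorem QData.refD_eq (hε : ε = 1 ∨ ε = -1) {a c q a1 c1 : Matrix K K (MonoidAlgebra A G)}
    (h : QData β ε a c q) (ha : a = a1 + ε • adj β a1) (hc : c = c1 + ε • adj β c1) :
    refD ε a1 a c1 q + ε • adj β (refD ε a1 a c1 q) = q := by
  have hee : ε * ε = 1 := by rcases hε with rfl | rfl <;> norm_num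
  have hq := h.sq
  have hq3 := h.q3
  have hq4 := h.q4
  have e1 := h.e1 hε
  have e2 := h.e2 hε
  have e3 : a - a1 = ε • adj β a1 := by rw [sub_eq_iff_eq_add, add_comm]; exact ha
  have e4 : adj β (q * (a - a1) * q) = ε • (q * a1 * q) := by
    rw [adj_mul, adj_mul, hq, e3, adj_zsmul, adj_adj]
    simp only [Matrix.smul_mul, Matrix.mul_smul, smul_smul, Matrix.mul_assoc]
    rw [hee, one_mul]
  have e5 : adj β (refD ε a1 a c1 q) = ε • q + q * a1 * q -
      (1 + ε • (q * a)) * adj β c1 * (1 + ε • (a * q)) := by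
    unfold refD
    rw [adj_sub, adj_add, hq, adj_zsmul, e4, smul_smul, hee, one_smul, adj_mul, adj_mul, e1, e2,
      Matrix.mul_assoc (1 + ε • (q * a))]
  have e6 : (1 + ε • (q * a)) * c * (1 + ε • (a * q)) = q + ε • (q * a * q) := by
    rw [hq4, Matrix.mul_add, Matrix.mul_one, Matrix.mul_smul, Matrix.mul_assoc]
  have e7 : (1 + ε • (q * a)) * c * (1 + ε • (a * q)) =
      (1 + ε • (q * a)) * c1 * (1 + ε • (a * q)) +
        ε • ((1 + ε • (q * a)) * adj β c1 * (1 + ε • (a * q))) := by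
    have : (1 + ε • (q * a)) * c * (1 + ε • (a * q)) =
      (1 + ε • (q * a)) * (c1 + ε • adj β c1) * (1 + ε • (a * q)) := by rw [← hc]
    rw [this, Matrix.mul_add (1 + ε • (q * a)), Matrix.add_mul, Matrix.mul_smul (1 + ε • (q * a)),
      Matrix.smul_mul]
  rw [e5]
  unfold refD
  rw [smul_sub, smul_add, smul_smul, hee, one_smul]
  have e8 : ε • (q * (a - a1) * q) = ε • (q * a * q) - ε • (q * a1 * q) := by
    rw [Matrix.mul_sub, Matrix.sub_mul, smul_sub]
  rw [e8]
  have e9 := e6.symm.trans e7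
  have : q + (ε • (q * a * q) - ε • (q * a1 * q)) -
      (1 + ε • (q * a)) * c1 * (1 + ε • (a * q)) +
      (q + ε • (q * a1 * q) - ε • ((1 + ε • (q * a)) * adj β c1 * (1 + ε • (a * q)))) =
      q + (q + ε • (q * a * q)) - ((1 + ε • (q * a)) * c1 * (1 + ε • (a * q)) +
        ε • ((1 + ε • (q * a)) * adj β c1 * (1 + ε • (a * q)))) := by abel
  rw [this, ← e9]
  abel

/-- the inverse of `[[a, 1], [ε, c]]` -/
noncomputable def psi (ε : ℤ) (a q : Matrix K K (MonoidAlgebra A G)) :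
    Matrix (K ⊕ K) (K ⊕ K) (MonoidAlgebra A G) :=
  Matrix.fromBlocks (-(ε • q)) (ε • (1 + ε • (q * a))) (1 + ε • (a * q))
    (-(ε • (a * (1 + ε • (q * a)))))

theorem QData.psi1 (hε : ε = 1 ∨ ε = -1) {a c q : Matrix K K (MonoidAlgebra A G)}
    (h : QData β ε a c q) :
    Matrix.fromBlocks a 1 (ε • (1 : Matrix K K (MonoidAlgebra A G))) c * psi ε a q = 1 := by
  have hee : ε * ε = 1 := by rcases hε with rfl | rfl <;> norm_num
  have hq3 := h.q3
  have hq4 := h.q4
  unfold psi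
  rw [Matrix.fromBlocks_multiply, ← Matrix.fromBlocks_one, Matrix.fromBlocks_inj]
  refine ⟨?_, ?_, ?_, ?_⟩
  · rw [Matrix.one_mul, Matrix.mul_neg, Matrix.mul_smul]
    abel
  · rw [Matrix.one_mul, Matrix.mul_smul]
    abel
  · rw [hq3, Matrix.smul_mul, Matrix.one_mul, smul_neg, smul_smul, hee, one_smul]
    abel
  · rw [Matrix.smul_mul, Matrix.one_mul, smul_smul, hee, one_smul, Matrix.mul_neg,
      Matrix.mul_smul, ← Matrix.mul_assoc]
    have : c * a * (1 + ε • (q * a)) = q * a := by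
      calc c * a * (1 + ε • (q * a)) = c * (1 + ε • (a * q)) * a := by
            simp only [Matrix.mul_add, Matrix.add_mul, Matrix.mul_one, Matrix.mul_smul,
              Matrix.smul_mul, Matrix.mul_assoc]
        _ = q * a := by rw [hq3]
    rw [this]
    abel

theorem QData.psi2 (hε : ε = 1 ∨ ε = -1) {a c q : Matrix K K (MonoidAlgebra A G)}
    (h : QData β ε a c q) :
    psi ε a q * Matrix.fromBlocks a 1 (ε • (1 : Matrix K K (MonoidAlgebra A G))) c = 1 := by
  have hee : ε * ε = 1 := by rcases hε with rfl | rfl <;> norm_num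
  have hq3 := h.q3
  have hq4 := h.q4
  unfold psi
  rw [Matrix.fromBlocks_multiply, ← Matrix.fromBlocks_one, Matrix.fromBlocks_inj]
  refine ⟨?_, ?_, ?_, ?_⟩
  · rw [Matrix.mul_smul, Matrix.mul_one, smul_smul, hee, one_smul, Matrix.neg_mul,
      Matrix.smul_mul]
    abel
  · rw [Matrix.mul_one, Matrix.smul_mul, hq4]
    abel
  · rw [Matrix.mul_smul, Matrix.mul_one, smul_neg, smul_smul, hee, one_smul]
    simp only [Matrix.mul_add, Matrix.add_mul, Matrix.mul_one, Matrix.one_mul, Matrix.mul_smul,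
        Matrix.smul_mul, Matrix.mul_assoc]
    abel
  · rw [Matrix.mul_one, Matrix.neg_mul, Matrix.smul_mul, Matrix.mul_assoc, hq4]
    abel

/-- the top left block of `ψ θ ψ*` -/
theorem QData.conj_psi (hε : ε = 1 ∨ ε = -1) {a c q : Matrix K K (MonoidAlgebra A G)}
    (h : QData β ε a c q) (a1 c1 : Matrix K K (MonoidAlgebra A G)) :
    (psi ε a q * Matrix.fromBlocks a1 1 0 c1 * adj β (psi ε a q)).toBlocks₁₁ =
      -refD ε a1 a c1 q := by
  have hee : ε * ε = 1 := by rcases hε with rfl | rfl <;> norm_num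
  have hq := h.sq
  have e1 := h.e1 hε
  have e2 : ∀ x : Matrix K K (MonoidAlgebra A G), ε • ε • x = x := fun x => by
    rw [smul_smul, hee, one_smul]
  unfold psi
  rw [adj_fromBlocks, Matrix.fromBlocks_multiply, Matrix.fromBlocks_multiply,
    Matrix.toBlocks_fromBlocks₁₁, adj_neg, adj_zsmul, adj_zsmul, e1, hq, e2]
  unfold refD
  simp only [Matrix.neg_mul, Matrix.smul_mul, Matrix.mul_add, Matrix.mul_one, Matrix.mul_sub,
    Matrix.sub_mul, Matrix.add_mul, Matrix.one_mul, Matrix.mul_smul, Matrix.mul_assoc, smul_add,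
    smul_sub, smul_neg, e2, Matrix.mul_neg, neg_neg, Matrix.mul_zero, add_zero, neg_sub]
  abel

end

end Pool.Agent.MIX
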