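import Mathlib
import Pool.Agent.Lib.MIX.Elim

/-!
# Quadratic forms over `Λ`: equality and isometry
-/

set_option autoImplicit false

open MonoidAlgebra Pool.Agent.Lib.MP_98022b_UN Pool.Agent.Lib.MP_98022b_UM

namespace Pool.Agent.MIX

universe u v

section
variable {A : Type u} {G : Type v} [CommRing A] [Group G] {β : BarStr A G} {ε : ℤ}
  {I J K L : Type} [Fintype I] [DecidableEq I] [Fintype J] [DecidableEq J]
  [Fintype K] [DecidableEq K] [Fintype L] [DecidableEq L]

theorem Iso.eiso {θ : Matrix I I (MonoidAlgebra A G)} {θ' : Matrix J J (MonoidAlgebra A G)}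
    (h : Iso β ε θ θ') : EIso β ε θ' θ := by
  obtain ⟨U, V, h1, h2, y, h3⟩ := h
  exact ⟨U, V, y, h1, h2, h3⟩

theorem Iso.refl (_hε : ε = 1 ∨ ε = -1) (θ : Matrix I I (MonoidAlgebra A G)) :
    Iso β ε θ θ := (EIso.refl θ).iso

theorem Iso.of_qeq (_hε : ε = 1 ∨ ε = -1) {θ θ' : Matrix I I (MonoidAlgebra A G)}
    (h : QEq β ε θ θ') : Iso β ε θ θ' := by
  obtain ⟨y, h⟩ := h
  exact (EIso.of_eq h).symm.iso

theorem Iso.symm (_hε : ε = 1 ∨ ε = -1) {θ : Matrix I I (MonoidAlgebra A G)}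
    {θ' : Matrix J J (MonoidAlgebra A G)} (h : Iso β ε θ θ') : Iso β ε θ' θ :=
  h.eiso.symm.iso

theorem Iso.trans (_hε : ε = 1 ∨ ε = -1) {θ : Matrix I I (MonoidAlgebra A G)}
    {θ' : Matrix J J (MonoidAlgebra A G)} {θ'' : Matrix K K (MonoidAlgebra A G)}
    (h : Iso β ε θ θ') (h' : Iso β ε θ' θ'') : Iso β ε θ θ'' :=
  (h'.eiso.trans h.eiso).iso

theorem Iso.sum (_hε : ε = 1 ∨ ε = -1) {θ : Matrix I I (MonoidAlgebra A G)}
    {θ' : Matrix J J (MonoidAlgebra A G)} {η : Matrix K K (MonoidAlgebra A G)}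
    {η' : Matrix L L (MonoidAlgebra A G)} (h : Iso β ε θ θ') (h' : Iso β ε η η') :
    Iso β ε (Matrix.fromBlocks θ 0 0 η) (Matrix.fromBlocks θ' 0 0 η') :=
  (h.eiso.dsum h'.eiso).iso

theorem QEq.refl (θ : Matrix I I (MonoidAlgebra A G)) : QEq β ε θ θ :=
  ⟨0, by rw [adj_zero]; simp⟩

theorem QEq.symm {θ θ' : Matrix I I (MonoidAlgebra A G)} (h : QEq β ε θ θ') :
    QEq β ε θ' θ := by
  obtain ⟨y, h⟩ := h
  refine ⟨-y, ?_⟩
  rw [adj_neg, smul_neg, h]
  abel

theorem QEq.trans {θ θ' θ'' : Matrix I I (MonoidAlgebra A G)} (h : QEq β ε θ θ')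
    (h' : QEq β ε θ' θ'') : QEq β ε θ θ'' := by
  obtain ⟨y, h⟩ := h
  obtain ⟨y', h'⟩ := h'
  refine ⟨y + y', ?_⟩
  rw [adj_add, smul_add, h, h']
  abel

theorem QEq.add {θ θ' η η' : Matrix I I (MonoidAlgebra A G)} (h : QEq β ε θ θ')
    (h' : QEq β ε η η') : QEq β ε (θ + η) (θ' + η') := by
  obtain ⟨y, h⟩ := h
  obtain ⟨y', h'⟩ := h'
  refine ⟨y + y', ?_⟩
  rw [adj_add, smul_add, h, h']
  abel

/-- `x ≡ ε x*` -/
theorem QEq.star (_hε : ε = 1 ∨ ε = -1) (x : Matrix I I (MonoidAlgebra A G)) :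
    QEq β ε x (ε • adj β x) :=
  ⟨x, by abel⟩

theorem QEq.conj (_hε : ε = 1 ∨ ε = -1) {θ θ' : Matrix I I (MonoidAlgebra A G)}
    (h : QEq β ε θ θ') (U : Matrix J I (MonoidAlgebra A G)) :
    QEq β ε (U * θ * adj β U) (U * θ' * adj β U) := by
  obtain ⟨y, h⟩ := h
  refine ⟨U * y * adj β U, ?_⟩
  have h1 : adj β (U * y * adj β U) = U * adj β y * adj β U := by
    rw [adj_mul, adj_mul, adj_adj, Matrix.mul_assoc]
  rw [h1, h, Matrix.mul_add, Matrix.add_mul, Matrix.mul_sub, Matrix.sub_mul, Matrix.mul_smul,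
    Matrix.smul_mul]

theorem QEq.fromBlocks (_hε : ε = 1 ∨ ε = -1) {a a' : Matrix I I (MonoidAlgebra A G)}
    {b b' : Matrix I J (MonoidAlgebra A G)} {c c' : Matrix J I (MonoidAlgebra A G)}
    {d d' : Matrix J J (MonoidAlgebra A G)} (h1 : QEq β ε a a') (h2 : QEq β ε d d')
    (h3 : b + ε • adj β c = b' + ε • adj β c') :
    QEq β ε (Matrix.fromBlocks a b c d) (Matrix.fromBlocks a' b' c' d') := by
  obtain ⟨y, h1⟩ := h1
  obtain ⟨z, h2⟩ := h2
  refine ⟨Matrix.fromBlocks y 0 (c - c') z, ?_⟩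
  have h4 : b = b' + (0 - ε • adj β (c - c')) := by
    rw [adj_sub, smul_sub]
    have : b = b' + ε • adj β c' - ε • adj β c := by rw [← h3]; abel
    rw [this]
    abel
  rw [adj_fromBlocks, adj_zero, Matrix.fromBlocks_smul, sub_eq_add_neg, Matrix.fromBlocks_neg,
    Matrix.fromBlocks_add, Matrix.fromBlocks_add, smul_zero, neg_zero, add_zero,
    ← sub_eq_add_neg, ← sub_eq_add_neg, ← sub_eq_add_neg, ← h1, ← h2, ← h4]
  congr 1
  abel

/-- `[[a, 1], [0, d]] ≅ [[d, 1], [0, a]]` -/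
theorem iso_swap (hε : ε = 1 ∨ ε = -1) (a d : Matrix J J (MonoidAlgebra A G)) :
    Iso β ε (Matrix.fromBlocks a 1 0 d) (Matrix.fromBlocks d 1 0 a) := by
  have hεε : ε * ε = 1 := by rcases hε with h | h <;> simp [h]
  have he : adj β (ε • (1 : Matrix J J (MonoidAlgebra A G))) = ε • 1 := by
    rw [adj_zsmul, adj_one]
  have h1 : Matrix.fromBlocks 0 (ε • (1 : Matrix J J (MonoidAlgebra A G))) 1 0 *
      Matrix.fromBlocks d 1 0 a * adj β (Matrix.fromBlocks 0 (ε • 1) 1 0) =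
      Matrix.fromBlocks a 0 (ε • 1) d := by
    rw [adj_fromBlocks, he, adj_zero, adj_one, Matrix.fromBlocks_multiply,
      Matrix.fromBlocks_multiply]
    simp only [Matrix.zero_mul, Matrix.mul_zero, smul_zero, add_zero, zero_add, Matrix.mul_one,
      Matrix.one_mul, Matrix.smul_mul, Matrix.mul_smul, smul_smul, hεε, one_smul]
  refine ⟨Matrix.fromBlocks 0 (ε • 1) 1 0, Matrix.fromBlocks 0 1 (ε • 1) 0, ?_, ?_, ?_⟩
  · rw [Matrix.fromBlocks_multiply]
    simp only [Matrix.zero_mul, Matrix.mul_zero, add_zero, zero_add, Matrix.mul_one,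
      Matrix.one_mul, smul_smul, hεε, one_smul, Matrix.fromBlocks_one, smul_zero,
      Matrix.smul_mul, Matrix.mul_smul]
  · rw [Matrix.fromBlocks_multiply]
    simp only [Matrix.zero_mul, Matrix.mul_zero, add_zero, zero_add, Matrix.mul_one,
      Matrix.one_mul, smul_smul, hεε, one_smul, Matrix.fromBlocks_one, smul_zero,
      Matrix.smul_mul, Matrix.mul_smul]
  · rw [h1]
    refine QEq.fromBlocks hε (QEq.refl _) (QEq.refl _) ?_
    rw [adj_zero, smul_zero, add_zero, zero_add, he, smul_smul, hεε, one_smul]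

theorem Iso.reindex (_hε : ε = 1 ∨ ε = -1) (θ : Matrix I I (MonoidAlgebra A G)) (e : I ≃ J) :
    Iso β ε θ (Matrix.reindex e e θ) := by
  have h1 : (1 : Matrix I I (MonoidAlgebra A G)).submatrix id e.symm *
      (1 : Matrix I I (MonoidAlgebra A G)).submatrix e.symm id = 1 := by
    have := Matrix.submatrix_mul_equiv (1 : Matrix I I (MonoidAlgebra A G))
      (1 : Matrix I I (MonoidAlgebra A G)) (id : I → I) e.symm (id : I → I)
    rw [this, Matrix.one_mul, Matrix.submatrix_id_id]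
  have h2 : (1 : Matrix I I (MonoidAlgebra A G)).submatrix e.symm id *
      (1 : Matrix I I (MonoidAlgebra A G)).submatrix id e.symm = 1 := by
    have := Matrix.submatrix_mul_equiv (1 : Matrix I I (MonoidAlgebra A G))
      (1 : Matrix I I (MonoidAlgebra A G)) (e.symm : J → I) (Equiv.refl I) (e.symm : J → I)
    rw [Matrix.one_mul, Matrix.submatrix_one_equiv] at this
    exact this
  have h3 : adj β ((1 : Matrix I I (MonoidAlgebra A G)).submatrix id e.symm) =
      (1 : Matrix I I (MonoidAlgebra A G)).submatrix e.symm id := by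
    ext1 i j
    have h := congrFun (congrFun (adj_one (β := β) (I := I)) (e.symm i)) j
    exact h
  refine ⟨(1 : Matrix I I (MonoidAlgebra A G)).submatrix id e.symm,
    (1 : Matrix I I (MonoidAlgebra A G)).submatrix e.symm id, h1, h2, ?_⟩
  have h4 : (1 : Matrix I I (MonoidAlgebra A G)).submatrix id e.symm * Matrix.reindex e e θ *
      adj β ((1 : Matrix I I (MonoidAlgebra A G)).submatrix id e.symm) = θ := by
    rw [h3, Matrix.reindex_apply, Matrix.submatrix_mul_equiv, Matrix.submatrix_mul_equiv,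
      Matrix.one_mul, Matrix.mul_one, Matrix.submatrix_id_id]
  rw [h4]
  exact QEq.refl _

/-- splitting off the nonsingular second block -/
theorem iso_schur (hε : ε = 1 ∨ ε = -1) (H : Matrix (J ⊕ J) (J ⊕ J) (MonoidAlgebra A G)) :
    Iso β ε (Matrix.fromBlocks H 1 0 (hyp A G J))
      (Matrix.fromBlocks (H - hyp A G J) 0 0 (hyp A G J)) := by
  have hεε : ε * ε = 1 := by rcases hε with h | h <;> simp [h]
  set X : Matrix (J ⊕ J) (J ⊕ J) (MonoidAlgebra A G) :=
    Matrix.fromBlocks 0 (-(ε • (1 : Matrix J J (MonoidAlgebra A G)))) (-1) 0 with hX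
  have hXa : adj β X = Matrix.fromBlocks 0 (-1) (-(ε • (1 : Matrix J J (MonoidAlgebra A G)))) 0 := by
    rw [hX, adj_fromBlocks, adj_zero, adj_neg, adj_neg, adj_zsmul, adj_one]
  have hha : adj β (hyp A G J) = Matrix.fromBlocks 0 0 1 0 := by
    rw [hyp, adj_fromBlocks, adj_zero, adj_one]
  have h1 : (1 + X * hyp A G J) + ε • adj β (hyp A G J * adj β X) = 0 := by
    rw [adj_mul, adj_adj, hha, ← Matrix.mul_smul, Matrix.fromBlocks_smul, hX, hyp,
      Matrix.fromBlocks_multiply, Matrix.fromBlocks_multiply, ← Matrix.fromBlocks_one,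
      Matrix.fromBlocks_add, Matrix.fromBlocks_add]
    simp only [Matrix.zero_mul, Matrix.mul_zero, smul_zero, add_zero, zero_add, Matrix.mul_one,
      Matrix.neg_mul, Matrix.smul_mul, Matrix.mul_smul, smul_neg, smul_smul, hεε, one_smul,
      add_neg_cancel, Matrix.fromBlocks_zero]
  have h2 : H + (1 + X * hyp A G J) * adj β X = H - hyp A G J := by
    have : (1 + X * hyp A G J) * adj β X = -hyp A G J := by
      rw [hXa, hX, hyp, Matrix.fromBlocks_multiply, ← Matrix.fromBlocks_one,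
        Matrix.fromBlocks_add, Matrix.fromBlocks_multiply, Matrix.fromBlocks_neg]
      simp only [Matrix.zero_mul, Matrix.mul_zero, smul_zero, add_zero, zero_add, Matrix.mul_one,
        Matrix.one_mul, add_neg_cancel, neg_zero]
    rw [this, ← sub_eq_add_neg]
  have h3 : Iso β ε (Matrix.fromBlocks (H - hyp A G J) 0 0 (hyp A G J))
      (Matrix.fromBlocks H 1 0 (hyp A G J)) := by
    refine ⟨Matrix.fromBlocks 1 X 0 1, Matrix.fromBlocks 1 (-X) 0 1, ?_, ?_, ?_⟩
    · rw [Matrix.fromBlocks_multiply]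
      simp
    · rw [Matrix.fromBlocks_multiply]
      simp
    · rw [adj_fromBlocks, adj_one, adj_zero, Matrix.fromBlocks_multiply,
        Matrix.fromBlocks_multiply]
      simp only [Matrix.zero_mul, Matrix.mul_zero, add_zero, zero_add, Matrix.mul_one,
        Matrix.one_mul]
      rw [h2]
      refine QEq.fromBlocks hε (QEq.refl _) (QEq.refl _) ?_
      rw [h1, adj_zero, smul_zero, add_zero]
  exact h3.symm hε

end

end Pool.Agent.MIX
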