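import Mathlib
import Pool.Agent.Lib.MIX.Witt

/-!
# A form with a lagrangian of the shape `(row space of Q) + (row space of 1 - Q*)` is hyperbolic
-/

set_option autoImplicit false

open MonoidAlgebra Pool.Agent.Lib.MP_98022b_UN Pool.Agent.Lib.MP_98022b_UM

namespace Pool.Agent.MIX

universe u v

section
variable {A : Type u} {G : Type v} [CommRing A] [Group G] {β : BarStr A G} {ε : ℤ}
  {I J : Type} [Fintype I] [DecidableEq I] [Fintype J] [DecidableEq J]

/-- the abstract form of the argument: `P` a lagrangian projection for `θ` and for `μ₀` -/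
theorem iso_of_lagr (hε : ε = 1 ∨ ε = -1) (P θ μ₀ σ N : Matrix I I (MonoidAlgebra A G))
    (hP : P * P = P) (hN : IsNilpotent N) (hNP : N * P = N)
    (hμP : μ₀ * adj β P = 0) (hσP : σ * P = σ)
    (hσμ : σ * μ₀ = adj β (1 - P))
    (h0 : QEq β ε (P * θ * adj β P) 0)
    (hμ : P * (θ + ε • adj β θ) * adj β (1 - P) = (1 + N) * μ₀) : Iso β ε μ₀ θ := by
  have hεε : ε * ε = 1 := by rcases hε with h | h <;> simp [h]
  set R : Matrix I I (MonoidAlgebra A G) := 1 - P with hR
  have hPR : P * R = 0 := by rw [hR, mul_sub, mul_one, hP, sub_self]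
  have hRP : R * P = 0 := by rw [hR, sub_mul, one_mul, hP, sub_self]
  have hPaRa : adj β P * adj β R = 0 := by rw [← adj_mul, hRP, adj_zero]
  have hRaPa : adj β R * adj β P = 0 := by rw [← adj_mul, hPR, adj_zero]
  have hNR : N * R = 0 := by rw [hR, mul_sub, mul_one, hNP, sub_self]
  have hμR : μ₀ * adj β R = μ₀ := by rw [hR, adj_sub, adj_one, mul_sub, mul_one, hμP, sub_zero]
  set δ : Matrix I I (MonoidAlgebra A G) := R * θ * adj β R with hδ
  -- the form in terms of the decomposition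
  have h1 : QEq β ε θ ((1 + N) * μ₀ + δ) := by
    have e1 : θ = P * θ * adj β P + (P * θ * adj β R + R * θ * adj β P) + δ := by
      have e2 : (1 : Matrix I I (MonoidAlgebra A G)) = P + R := by rw [hR]; abel
      have e3 : (1 : Matrix I I (MonoidAlgebra A G)) = adj β P + adj β R := by
        rw [← adj_add, ← e2, adj_one]
      calc θ = (P + R) * θ * (adj β P + adj β R) := by rw [← e2, ← e3, one_mul, mul_one]
        _ = _ := by
          rw [hδ]
          simp only [add_mul, mul_add]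
          abel
    have e4 : QEq β ε (R * θ * adj β P) (ε • (P * adj β θ * adj β R)) := by
      have := QEq.star (β := β) hε (R * θ * adj β P)
      rw [adj_mul, adj_mul, adj_adj, ← Matrix.mul_assoc] at this
      exact this
    have e5 : (1 + N) * μ₀ = P * θ * adj β R + ε • (P * adj β θ * adj β R) := by
      rw [← hμ, mul_add, add_mul, mul_smul_comm, smul_mul_assoc]
    have e6 := ((h0.add ((QEq.refl (β := β) (ε := ε) (P * θ * adj β R)).add e4)).add
      (QEq.refl (β := β) (ε := ε) δ))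
    rw [← e1, ← e5, zero_add] at e6
    exact e6
  -- the inverse of `1 + N`
  obtain ⟨w, hw⟩ := hN.isUnit_one_add
  set W : Matrix I I (MonoidAlgebra A G) := ((w⁻¹ : (Matrix I I (MonoidAlgebra A G))ˣ) :
    Matrix I I (MonoidAlgebra A G)) with hW
  have hW1 : W * (1 + N) = 1 := by rw [← hw, hW]; simp
  have hW2 : (1 + N) * W = 1 := by rw [← hw, hW]; simp
  have hWR : W * R = R := by
    have : (1 + N) * R = R := by rw [add_mul, one_mul, hNR, add_zero]
    calc W * R = W * ((1 + N) * R) := by rw [this]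
      _ = R := by rw [← mul_assoc, hW1, one_mul]
  have hRaWa : adj β R * adj β W = adj β R := by rw [← adj_mul, hWR]
  have hδR : R * δ = δ := by
    have : R * R = R := by rw [hR, sub_mul, one_mul, mul_sub, mul_one, hP, sub_self, sub_zero]
    rw [hδ, ← mul_assoc, ← mul_assoc, this]
  have hδRa : δ * adj β R = δ := by
    have : adj β R * adj β R = adj β R := by
      rw [← adj_mul]
      congr 1
      rw [hR, sub_mul, one_mul, mul_sub, mul_one, hP, sub_self, sub_zero]
    rw [hδ, mul_assoc, this]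
  have h2 : W * ((1 + N) * μ₀ + δ) * adj β W = μ₀ + δ := by
    have e1 : W * ((1 + N) * μ₀) = μ₀ := by rw [← mul_assoc, hW1, one_mul]
    have e2 : W * δ = δ := by rw [← hδR, ← mul_assoc, hWR]
    rw [mul_add, e1, e2, add_mul]
    congr 1
    · nth_rewrite 1 [← hμR]
      rw [mul_assoc, hRaWa, hμR]
    · nth_rewrite 1 [← hδRa]
      rw [mul_assoc, hRaWa, hδRa]
  -- the unipotent part
  have hPδ : P * δ = 0 := by rw [← hδR, ← mul_assoc, hPR, zero_mul]
  have hσδ : σ * δ = 0 := by rw [← hσP, mul_assoc, hPδ, mul_zero]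
  have hσaP : adj β σ = adj β P * adj β σ := by rw [← adj_mul, hσP]
  have hμσ : μ₀ * adj β σ = 0 := by rw [hσaP, ← mul_assoc, hμP, zero_mul]
  have hδP : δ * adj β P = 0 := by rw [← hδRa, mul_assoc, hRaPa, mul_zero]
  have hδσ : δ * adj β σ = 0 := by rw [hσaP, ← mul_assoc, hδP, zero_mul]
  have h3 : (1 - δ * σ) * (μ₀ + δ) * adj β (1 - δ * σ) = μ₀ := by
    have e1 : (1 - δ * σ) * (μ₀ + δ) = μ₀ := by
      rw [sub_mul, one_mul, mul_add, mul_assoc δ σ μ₀, mul_assoc δ σ δ, hσμ, hσδ, mul_zero, add_zero, hδRa]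
      abel
    rw [e1, adj_sub, adj_one, adj_mul, mul_sub, mul_one, ← mul_assoc, hμσ, zero_mul, sub_zero]
  have hinv : (1 - δ * σ) * (1 + δ * σ) = 1 := by
    have : δ * σ * (δ * σ) = 0 := by rw [mul_assoc, ← mul_assoc σ, hσδ, zero_mul, mul_zero]
    rw [sub_mul, one_mul, mul_add, mul_one, this]
    abel
  have hinv' : (1 + δ * σ) * (1 - δ * σ) = 1 := by
    have : δ * σ * (δ * σ) = 0 := by rw [mul_assoc, ← mul_assoc σ, hσδ, zero_mul, mul_zero]
    rw [add_mul, one_mul, mul_sub, mul_one, this]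
    abel
  refine ⟨(1 - δ * σ) * W, (1 + N) * (1 + δ * σ), ?_, ?_, ?_⟩
  · rw [mul_assoc, ← mul_assoc W, hW1, one_mul, hinv]
  · rw [mul_assoc, ← mul_assoc (1 + δ * σ), hinv', one_mul, hW2]
  · have e1 := QEq.conj hε h1 ((1 - δ * σ) * W)
    have e2 : (1 - δ * σ) * W * ((1 + N) * μ₀ + δ) * adj β ((1 - δ * σ) * W) = μ₀ := by
      have : (1 - δ * σ) * W * ((1 + N) * μ₀ + δ) * adj β ((1 - δ * σ) * W) =
          (1 - δ * σ) * (W * ((1 + N) * μ₀ + δ) * adj β W) * adj β (1 - δ * σ) := by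
        rw [adj_mul]
        simp only [mul_assoc]
      rw [this, h2, h3]
    rw [e2] at e1
    exact e1

/-- M1b: `L = (row space of Q) + (row space of 1 - Q*)` is a lagrangian of
`φ = [[T, 1], [ε, F]]` and of `φ₀ = [[0, 1], [ε, 0]]` -/
theorem iso_of_metab (hε : ε = 1 ∨ ε = -1) (Ht Hf Q : Matrix J J (MonoidAlgebra A G))
    (hn : ∃ N : ℕ, ((Ht + ε • adj β Ht) * (Hf + ε • adj β Hf)) ^ N = 0) (hQ : Q * Q = Q)
    (h1 : QEq β ε (Q * Ht * adj β Q) 0) (h2 : QEq β ε (adj β (1 - Q) * Hf * (1 - Q)) 0) :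
    Iso β ε (Matrix.fromBlocks Ht 1 0 Hf) (hyp A G J) := by
  have hεε : ε * ε = 1 := by rcases hε with h | h <;> simp [h]
  set T : Matrix J J (MonoidAlgebra A G) := Ht + ε • adj β Ht with hT
  set F : Matrix J J (MonoidAlgebra A G) := Hf + ε • adj β Hf with hF
  set R : Matrix J J (MonoidAlgebra A G) := 1 - Q with hR
  have hQR : Q * R = 0 := by rw [hR, mul_sub, mul_one, hQ, sub_self]
  have hRQ : R * Q = 0 := by rw [hR, sub_mul, one_mul, hQ, sub_self]
  have hRR : R * R = R := by rw [hR, sub_mul, one_mul, mul_sub, mul_one, hQ, sub_self, sub_zero]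
  have hQRa : adj β Q * adj β R = 0 := by rw [← adj_mul, hRQ, adj_zero]
  have hRQa : adj β R * adj β Q = 0 := by rw [← adj_mul, hQR, adj_zero]
  have hRRa : adj β R * adj β R = adj β R := by rw [← adj_mul, hRR]
  have hQQa : adj β Q * adj β Q = adj β Q := by rw [← adj_mul, hQ]
  have hzero : ∀ {z w : Matrix J J (MonoidAlgebra A G)}, QEq β ε z 0 → z + ε • adj β z = 0 := by
    rintro z w ⟨y, hy⟩
    rw [hy, zero_add, adj_sub, adj_zsmul, adj_adj, smul_sub, smul_smul, hεε, one_smul]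
    abel
  have hQTQ : Q * T * adj β Q = 0 := by
    have := hzero (w := 0) h1
    rw [adj_mul, adj_mul, adj_adj, ← mul_assoc] at this
    rw [hT, mul_add, add_mul, mul_smul_comm, smul_mul_assoc]
    exact this
  have hRFR : adj β R * F * R = 0 := by
    have := hzero (w := 0) h2
    rw [adj_mul, adj_mul, adj_adj, ← mul_assoc] at this
    rw [hF, mul_add, add_mul, mul_smul_comm, smul_mul_assoc]
    exact this
  have hQT : Q * T * adj β R = Q * T := by
    rw [hR, adj_sub, adj_one, mul_sub, mul_one, hQTQ, sub_zero]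
  have hRF : adj β R * F * Q = adj β R * F := by
    have : Q = 1 - R := by rw [hR]; abel
    rw [this, mul_sub, mul_one, hRFR, sub_zero]
  -- the block matrices
  set P : Matrix (J ⊕ J) (J ⊕ J) (MonoidAlgebra A G) := Matrix.fromBlocks Q 0 0 (adj β R) with hP
  set θ : Matrix (J ⊕ J) (J ⊕ J) (MonoidAlgebra A G) := Matrix.fromBlocks Ht 1 0 Hf with hθ
  set μ₀ : Matrix (J ⊕ J) (J ⊕ J) (MonoidAlgebra A G) :=
    Matrix.fromBlocks 0 Q (ε • adj β R) 0 with hμ₀
  set σ : Matrix (J ⊕ J) (J ⊕ J) (MonoidAlgebra A G) :=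
    Matrix.fromBlocks 0 (ε • adj β R) Q 0 with hσ
  set N : Matrix (J ⊕ J) (J ⊕ J) (MonoidAlgebra A G) :=
    Matrix.fromBlocks 0 (ε • (Q * T)) (adj β R * F) 0 with hN
  set Φ : Matrix (J ⊕ J) (J ⊕ J) (MonoidAlgebra A G) :=
    Matrix.fromBlocks 0 (ε • T) F 0 with hΦ
  have hPa : adj β P = Matrix.fromBlocks (adj β Q) 0 0 R := by
    rw [hP, adj_fromBlocks, adj_zero, adj_adj]
  have hPc : 1 - P = Matrix.fromBlocks R 0 0 (adj β Q) := by
    have : adj β Q = 1 - adj β R := by rw [hR, adj_sub, adj_one]; abel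
    rw [this, hP, ← Matrix.fromBlocks_one, sub_eq_add_neg, Matrix.fromBlocks_neg,
      Matrix.fromBlocks_add]
    simp [sub_eq_add_neg, hR]
  have hPca : adj β (1 - P) = Matrix.fromBlocks (adj β R) 0 0 Q := by
    rw [hPc, adj_fromBlocks, adj_zero, adj_adj]
  have hPP : P * P = P := by
    rw [hP, Matrix.fromBlocks_multiply]
    simp [hQ, hRRa]
  have hNP : N * P = N := by
    rw [hP, hN, Matrix.fromBlocks_multiply]
    simp only [Matrix.zero_mul, Matrix.mul_zero, smul_zero, add_zero, zero_add, Matrix.smul_mul, hQT, hRF]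
  have hPΦ : P * Φ = N := by
    rw [hP, hN, hΦ, Matrix.fromBlocks_multiply]
    simp only [Matrix.zero_mul, Matrix.mul_zero, smul_zero, add_zero, zero_add, Matrix.mul_smul]
  have hNpow : ∀ k : ℕ, N ^ (k + 1) = P * Φ ^ (k + 1) := by
    intro k
    induction k with
    | zero => rw [zero_add, pow_one, pow_one, hPΦ]
    | succ k ih =>
      rw [pow_succ' N, ih, ← mul_assoc, hNP, ← hPΦ, mul_assoc, ← pow_succ']
  have hnil : IsNilpotent N := by
    obtain ⟨n, hn⟩ := hn
    have e1 : ∀ k : ℕ, (F * T) ^ (k + 1) = F * (T * F) ^ k * T := by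
      intro k
      induction k with
      | zero => simp
      | succ k ih =>
        rw [pow_succ, ih, pow_succ (T * F)]
        simp only [mul_assoc]
    have e2 : Φ * Φ = Matrix.fromBlocks (ε • (T * F)) 0 0 (ε • (F * T)) := by
      rw [hΦ, Matrix.fromBlocks_multiply]
      simp only [Matrix.zero_mul, Matrix.mul_zero, smul_zero, add_zero, zero_add, Matrix.mul_smul,
        Matrix.smul_mul]
    have e3 : ∀ k : ℕ, (Φ * Φ) ^ k =
        Matrix.fromBlocks ((ε • (T * F)) ^ k) 0 0 ((ε • (F * T)) ^ k) := by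
      intro k
      induction k with
      | zero => rw [pow_zero, pow_zero, pow_zero, Matrix.fromBlocks_one]
      | succ k ih =>
        rw [pow_succ, ih, e2, Matrix.fromBlocks_multiply]
        simp [pow_succ]
    have e4 : (Φ * Φ) ^ (n + 1) = 0 := by
      have a1 : (T * F) ^ (n + 1) = 0 := by rw [pow_succ, hn, zero_mul]
      have a2 : (F * T) ^ (n + 1) = 0 := by rw [e1, hn, mul_zero, zero_mul]
      rw [e3, smul_pow, smul_pow, a1, a2, smul_zero, Matrix.fromBlocks_zero]
    refine ⟨2 * n + 1 + 1, ?_⟩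
    rw [hNpow]
    have : Φ ^ (2 * n + 1 + 1) = (Φ * Φ) ^ (n + 1) := by
      rw [← pow_two, ← pow_mul]
      congr 1
    rw [this, e4, mul_zero]
  have hμP : μ₀ * adj β P = 0 := by
    rw [hPa, hμ₀, Matrix.fromBlocks_multiply]
    simp only [Matrix.zero_mul, Matrix.mul_zero, smul_zero, add_zero, Matrix.smul_mul, hQR,
      hRQa, Matrix.fromBlocks_zero]
  have hσP : σ * P = σ := by
    rw [hP, hσ, Matrix.fromBlocks_multiply]
    simp only [Matrix.zero_mul, Matrix.mul_zero, smul_zero, add_zero, zero_add, Matrix.smul_mul, hQ, hRRa]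
  have hσμ : σ * μ₀ = adj β (1 - P) := by
    rw [hPca, hσ, hμ₀, Matrix.fromBlocks_multiply]
    simp only [Matrix.zero_mul, Matrix.mul_zero, smul_zero, add_zero, zero_add, Matrix.smul_mul,
      Matrix.mul_smul, smul_smul, hεε, one_smul, hQ, hRRa]
  have h0 : QEq β ε (P * θ * adj β P) 0 := by
    have e1 : P * θ * adj β P = Matrix.fromBlocks (Q * Ht * adj β Q) 0 0 (adj β R * Hf * R) := by
      rw [hPa, hP, hθ, Matrix.fromBlocks_multiply, Matrix.fromBlocks_multiply]
      simp only [Matrix.zero_mul, Matrix.mul_zero, smul_zero, add_zero, zero_add, Matrix.mul_one, hQR]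
    rw [e1, ← Matrix.fromBlocks_zero]
    exact QEq.fromBlocks hε h1 h2 (by simp [adj_zero])
  have hsym : θ + ε • adj β θ = Matrix.fromBlocks T 1 (ε • 1) F := by
    rw [hθ, adj_fromBlocks, adj_zero, adj_one, Matrix.fromBlocks_smul, Matrix.fromBlocks_add,
      smul_zero, add_zero, zero_add, hT, hF]
  have hμ : P * (θ + ε • adj β θ) * adj β (1 - P) = (1 + N) * μ₀ := by
    rw [hsym, hPca, add_mul, one_mul, hP, hN, hμ₀, Matrix.fromBlocks_multiply,
      Matrix.fromBlocks_multiply, Matrix.fromBlocks_multiply, Matrix.fromBlocks_add]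
    simp only [Matrix.zero_mul, Matrix.mul_zero, smul_zero, add_zero, zero_add, Matrix.mul_one,
      Matrix.smul_mul, Matrix.mul_smul, smul_smul, hεε, one_smul, hQ, hRRa]
  have h3 : Iso β ε μ₀ θ := iso_of_lagr hε P θ μ₀ σ N hPP hnil hNP hμP hσP hσμ h0 hμ
  have h4 : QEq β ε (hyp A G J) μ₀ := by
    rw [hyp, hμ₀]
    refine QEq.fromBlocks hε (QEq.refl _) (QEq.refl _) ?_
    rw [adj_zero, smul_zero, add_zero, adj_zsmul, adj_adj, smul_smul, hεε, one_smul, hR]
    abel
  exact (Iso.trans hε (Iso.of_qeq hε h4) h3).symm hε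

end

end Pool.Agent.MIX
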