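import Pool.Agent.Lib.MIX.Elim

/-!
# MIX: stably hyperbolic quadratic forms (helper52)
-/

set_option autoImplicit false

open MonoidAlgebra Pool.Agent.Lib.MP_98022b_UN

namespace Pool.Agent.MIX

universe u v

section

variable {A : Type u} {G : Type v} [CommRing A] [Group G] {β : BarStr A G} {ε : ℤ}

theorem adj_one_submatrix {I J K : Type} [DecidableEq J] (e : I → J) (f : K → J) :
    adj β ((1 : Matrix J J (MonoidAlgebra A G)).submatrix e f) =
      (1 : Matrix J J (MonoidAlgebra A G)).submatrix f e := by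
  ext1 i j
  have h := congrFun (congrFun (adj_one (β := β) (I := J)) (f i)) (e j)
  exact h

variable {I J K : Type} [Fintype I] [DecidableEq I] [Fintype J] [DecidableEq J]
  [Fintype K] [DecidableEq K]

/-- permutation of the basis -/
theorem eiso_perm (θ : Matrix I I (MonoidAlgebra A G)) (θ' : Matrix J J (MonoidAlgebra A G))
    (e : J ≃ I) (h : θ.submatrix e e = θ') : EIso β ε θ θ' := by
  refine EIso.conj ((1 : Matrix I I (MonoidAlgebra A G)).submatrix e id)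
    ((1 : Matrix I I (MonoidAlgebra A G)).submatrix id e) ?_ ?_ ?_
  · have h1 := Matrix.submatrix_mul_equiv (1 : Matrix I I (MonoidAlgebra A G))
      (1 : Matrix I I (MonoidAlgebra A G)) (e : J → I) (Equiv.refl I) (e : J → I)
    rw [Matrix.one_mul, Matrix.submatrix_one_equiv] at h1
    exact h1
  · have h1 := Matrix.submatrix_mul_equiv (1 : Matrix I I (MonoidAlgebra A G))
      (1 : Matrix I I (MonoidAlgebra A G)) id e id
    rw [h1, Matrix.one_mul]
    rfl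
  · rw [adj_one_submatrix, ← h]
    have h1 := Matrix.submatrix_mul_equiv (1 : Matrix I I (MonoidAlgebra A G)) θ
      (e : J → I) (Equiv.refl I) id
    have h2 := Matrix.submatrix_mul_equiv θ (1 : Matrix I I (MonoidAlgebra A G))
      (e : J → I) (Equiv.refl I) (e : J → I)
    have h3 : ((1 : Matrix I I (MonoidAlgebra A G)).submatrix e id) * θ = θ.submatrix e id := by
      have h4 : θ.submatrix (Equiv.refl I) id = θ := rfl
      have h5 : (1 : Matrix I I (MonoidAlgebra A G)).submatrix (e : J → I) (Equiv.refl I) =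
        (1 : Matrix I I (MonoidAlgebra A G)).submatrix e id := rfl
      rw [h4, h5, Matrix.one_mul] at h1
      exact h1
    rw [h3]
    have h4 : θ.submatrix (e : J → I) (Equiv.refl I) = θ.submatrix e id := rfl
    have h5 : (1 : Matrix I I (MonoidAlgebra A G)).submatrix (Equiv.refl I) (e : J → I) =
      (1 : Matrix I I (MonoidAlgebra A G)).submatrix id e := rfl
    rw [h4, h5, Matrix.mul_one] at h2
    exact h2

theorem eiso_assoc (θ : Matrix I I (MonoidAlgebra A G)) (η : Matrix J J (MonoidAlgebra A G))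
    (ζ : Matrix K K (MonoidAlgebra A G)) :
    EIso β ε (Matrix.fromBlocks (Matrix.fromBlocks θ 0 0 η) 0 0 ζ)
      (Matrix.fromBlocks θ 0 0 (Matrix.fromBlocks η 0 0 ζ)) := by
  refine eiso_perm _ _ (Equiv.sumAssoc I J K).symm ?_
  ext1 i j
  rcases i with i | i | i <;> rcases j with j | j | j <;> rfl

theorem eiso_comm (θ : Matrix I I (MonoidAlgebra A G)) (η : Matrix J J (MonoidAlgebra A G)) :
    EIso β ε (Matrix.fromBlocks θ 0 0 η) (Matrix.fromBlocks η 0 0 θ) := by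
  refine eiso_perm _ _ (Equiv.sumComm J I) ?_
  ext1 i j
  rcases i with i | i <;> rcases j with j | j <;> rfl

theorem eiso_hyp_sum : EIso β ε (Matrix.fromBlocks (hyp A G I) 0 0 (hyp A G J))
    (hyp A G (I ⊕ J)) := by
  refine eiso_perm _ _ (Equiv.sumSumSumComm I J I J) ?_
  ext1 i j
  rcases i with (i | i) | (i | i) <;> rcases j with (j | j) | (j | j) <;>
    simp [hyp, Matrix.one_apply, Matrix.submatrix_apply]

theorem eiso_hyp_equiv (e : I ≃ J) : EIso β ε (hyp A G I) (hyp A G J) := by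
  refine eiso_perm _ _ (Equiv.sumCongr e.symm e.symm) ?_
  ext1 i j
  rcases i with i | i <;> rcases j with j | j <;>
    simp [hyp, Matrix.one_apply, Matrix.submatrix_apply]

theorem eiso_hyp_fin (m n : ℕ) : EIso β ε
    (Matrix.fromBlocks (hyp A G (Fin m)) 0 0 (hyp A G (Fin n))) (hyp A G (Fin (m + n))) :=
  eiso_hyp_sum.trans (eiso_hyp_equiv finSumFinEquiv)

theorem eiso_zero (θ : Matrix I I (MonoidAlgebra A G)) :
    EIso β ε (Matrix.fromBlocks θ 0 0 (hyp A G (Fin 0))) θ := by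
  refine eiso_perm _ _ (Equiv.sumEmpty I (Fin 0 ⊕ Fin 0)).symm ?_
  ext1 i j
  rfl

/-- `SHyp` in terms of `EIso` -/
theorem shyp_iff {θ : Matrix I I (MonoidAlgebra A G)} : SHyp β ε θ ↔
    ∃ m n : ℕ, EIso β ε (Matrix.fromBlocks θ 0 0 (hyp A G (Fin m))) (hyp A G (Fin n)) := by
  constructor
  · rintro ⟨m, n, U, V, h1, h2, y, h⟩
    have h3 : EIso β ε (hyp A G (Fin n)) (Matrix.fromBlocks θ 0 0 (hyp A G (Fin m))) :=
      ⟨U, V, y, h1, h2, h⟩
    exact ⟨m, n, h3.symm⟩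
  · rintro ⟨m, n, h⟩
    exact ⟨m, n, h.symm.iso⟩

theorem SHyp.of_iso (_hε : ε = 1 ∨ ε = -1) {θ : Matrix I I (MonoidAlgebra A G)}
    {θ' : Matrix J J (MonoidAlgebra A G)} (h : Iso β ε θ θ') (h' : SHyp β ε θ') :
    SHyp β ε θ := by
  obtain ⟨m, n, h2⟩ := shyp_iff.1 h'
  obtain ⟨U, V, h3, h4, y, h5⟩ := h
  have h6 : EIso β ε θ' θ := ⟨U, V, y, h3, h4, h5⟩
  exact shyp_iff.2 ⟨m, n, (h6.symm.dsum (EIso.refl _)).trans h2⟩

theorem SHyp.of_qeq (hε : ε = 1 ∨ ε = -1) {θ θ' : Matrix I I (MonoidAlgebra A G)}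
    (h : QEq β ε θ θ') (h' : SHyp β ε θ') : SHyp β ε θ := by
  obtain ⟨y, h⟩ := h
  have h1 : EIso β ε θ θ' := EIso.of_eq h
  exact SHyp.of_iso hε h1.symm.iso h'

theorem SHyp.sum (_hε : ε = 1 ∨ ε = -1) {θ : Matrix I I (MonoidAlgebra A G)}
    {η : Matrix J J (MonoidAlgebra A G)} (h : SHyp β ε θ) (h' : SHyp β ε η) :
    SHyp β ε (Matrix.fromBlocks θ 0 0 η) := by
  obtain ⟨m, n, h1⟩ := shyp_iff.1 h
  obtain ⟨m', n', h2⟩ := shyp_iff.1 h'
  refine shyp_iff.2 ⟨m + m', n + n', ?_⟩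
  have e1 : EIso β ε (Matrix.fromBlocks (Matrix.fromBlocks θ 0 0 η) 0 0 (hyp A G (Fin (m + m'))))
      (Matrix.fromBlocks (Matrix.fromBlocks θ 0 0 η) 0 0
        (Matrix.fromBlocks (hyp A G (Fin m)) 0 0 (hyp A G (Fin m')))) :=
    (EIso.refl _).dsum (eiso_hyp_fin m m').symm
  have e2 : EIso β ε (Matrix.fromBlocks (Matrix.fromBlocks θ 0 0 η) 0 0
        (Matrix.fromBlocks (hyp A G (Fin m)) 0 0 (hyp A G (Fin m'))))
      (Matrix.fromBlocks (Matrix.fromBlocks θ 0 0 (hyp A G (Fin m))) 0 0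
        (Matrix.fromBlocks η 0 0 (hyp A G (Fin m')))) := by
    refine eiso_perm _ _ (Equiv.sumSumSumComm I (Fin m ⊕ Fin m) J (Fin m' ⊕ Fin m')) ?_
    ext1 i j
    rcases i with (i | i) | (i | i) <;> rcases j with (j | j) | (j | j) <;> rfl
  exact e1.trans (e2.trans ((h1.dsum h2).trans (eiso_hyp_fin n n')))

theorem SHyp.cancel (_hε : ε = 1 ∨ ε = -1) {θ : Matrix I I (MonoidAlgebra A G)}
    {η : Matrix J J (MonoidAlgebra A G)} (h : SHyp β ε (Matrix.fromBlocks θ 0 0 η))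
    (h' : SHyp β ε η) : SHyp β ε θ := by
  obtain ⟨m, n, h1⟩ := shyp_iff.1 h
  obtain ⟨m', n', h2⟩ := shyp_iff.1 h'
  refine shyp_iff.2 ⟨n' + m, n + m', ?_⟩
  have e1 : EIso β ε (Matrix.fromBlocks θ 0 0 (hyp A G (Fin (n' + m))))
      (Matrix.fromBlocks θ 0 0 (Matrix.fromBlocks (hyp A G (Fin n')) 0 0 (hyp A G (Fin m)))) :=
    (EIso.refl _).dsum (eiso_hyp_fin n' m).symm
  have e2 : EIso β ε
      (Matrix.fromBlocks θ 0 0 (Matrix.fromBlocks (hyp A G (Fin n')) 0 0 (hyp A G (Fin m))))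
      (Matrix.fromBlocks θ 0 0 (Matrix.fromBlocks
        (Matrix.fromBlocks η 0 0 (hyp A G (Fin m'))) 0 0 (hyp A G (Fin m)))) :=
    (EIso.refl _).dsum (h2.symm.dsum (EIso.refl _))
  have e3 : EIso β ε (Matrix.fromBlocks θ 0 0 (Matrix.fromBlocks
        (Matrix.fromBlocks η 0 0 (hyp A G (Fin m'))) 0 0 (hyp A G (Fin m))))
      (Matrix.fromBlocks (Matrix.fromBlocks (Matrix.fromBlocks θ 0 0 η) 0 0 (hyp A G (Fin m)))
        0 0 (hyp A G (Fin m'))) := by
    have f1 : EIso β ε (Matrix.fromBlocks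
        (Matrix.fromBlocks η 0 0 (hyp A G (Fin m'))) 0 0 (hyp A G (Fin m)))
        (Matrix.fromBlocks η 0 0 (Matrix.fromBlocks (hyp A G (Fin m)) 0 0 (hyp A G (Fin m')))) :=
      (eiso_assoc _ _ _).trans ((EIso.refl _).dsum (eiso_comm _ _))
    have f2 : EIso β ε (Matrix.fromBlocks
        (Matrix.fromBlocks (Matrix.fromBlocks θ 0 0 η) 0 0 (hyp A G (Fin m)))
        0 0 (hyp A G (Fin m')))
        (Matrix.fromBlocks θ 0 0 (Matrix.fromBlocks η 0 0
          (Matrix.fromBlocks (hyp A G (Fin m)) 0 0 (hyp A G (Fin m'))))) :=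
      (eiso_assoc _ _ _).trans (eiso_assoc _ _ _)
    exact ((EIso.refl _).dsum f1).trans f2.symm
  exact e1.trans (e2.trans (e3.trans ((h1.dsum (EIso.refl _)).trans (eiso_hyp_fin n m'))))

theorem SHyp.cancel_left (hε : ε = 1 ∨ ε = -1) {θ : Matrix I I (MonoidAlgebra A G)}
    {η : Matrix J J (MonoidAlgebra A G)} (h : SHyp β ε (Matrix.fromBlocks η 0 0 θ))
    (h' : SHyp β ε η) : SHyp β ε θ := by
  refine SHyp.cancel hε ?_ h'
  have h1 : EIso β ε (Matrix.fromBlocks η 0 0 θ) (Matrix.fromBlocks θ 0 0 η) := eiso_comm _ _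
  exact SHyp.of_iso hε h1.iso h

theorem shyp_hyp (_hε : ε = 1 ∨ ε = -1) : SHyp β ε (hyp A G J) :=
  shyp_iff.2 ⟨0, Fintype.card J, (eiso_zero _).trans (eiso_hyp_equiv (Fintype.equivFin J))⟩

theorem shyp_left (hε : ε = 1 ∨ ε = -1) (s : Matrix J J (MonoidAlgebra A G)) :
    SHyp β ε (Matrix.fromBlocks s (1 : Matrix J J (MonoidAlgebra A G)) 0 0) :=
  SHyp.of_iso hε (EIso.plane s).symm.iso (shyp_hyp hε)

theorem shyp_right (hε : ε = 1 ∨ ε = -1) (s : Matrix J J (MonoidAlgebra A G)) :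
    SHyp β ε (Matrix.fromBlocks 0 (1 : Matrix J J (MonoidAlgebra A G)) 0 s) := by
  have h : EIso β ε (Matrix.fromBlocks 0 (1 : Matrix J J (MonoidAlgebra A G)) 0 s)
      (hyp A G J) := by
    refine EIso.conj (Matrix.fromBlocks 1 0 (-s) 1) (Matrix.fromBlocks 1 0 s 1) ?_ ?_ ?_
    · rw [Matrix.fromBlocks_multiply]; simp
    · rw [Matrix.fromBlocks_multiply]; simp
    · rw [adj_fromBlocks, adj_one, adj_zero, Matrix.fromBlocks_multiply,
        Matrix.fromBlocks_multiply]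
      simp [hyp]
  exact SHyp.of_iso hε h.symm.iso (shyp_hyp hε)

end

end Pool.Agent.MIX
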