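import Mathlib
import Pool.Agent.Lib.MIX.Witt
import Pool.Agent.Lib.MIX.Witt2
import Pool.Agent.Lib.MIX.Metab
import Pool.Agent.Lib.MP_98022b_UM.Half

/-!
# The form over `Λ` of a nilpotent form: halves, stably metabolic forms, flips
-/

set_option autoImplicit false

open MonoidAlgebra Pool.Agent.Lib.MP_98022b_UN Pool.Agent.Lib.MP_98022b_UM

namespace Pool.Agent.MIX

universe u v w

section
variable {A : Type u} {Ω : Type w} {G : Type v} [CommRing A] [Group G]
  {E : BSys Ω G} {β : BarStr A G} {ε : ℤ}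

/-- typed halves exist -/
theorem exists_halves (hN : E.NoInv) (hε : ε = 1 ∨ ε = -1) (X : BF E β ε) :
    ∃ H, Halves X H := by
  have h : ∀ b : Bool, ∃ x : Matrix X.K X.K (MonoidAlgebra A G), OnS E b X.t X.t x ∧
      X.M b = x + ε • adj β x := by
    intro b
    obtain ⟨x, h1, -, h2⟩ := exists_half_typed hN hε (X.is.on b) (X.is.sym b)
    exact ⟨x, h1, h2⟩
  choose H h1 h2 using h
  exact ⟨H, h1, h2⟩

/-- a typed matrix with trivial symmetrisation is zero as a quadratic form -/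
theorem qeq_zero_of_sym (hN : E.NoInv) (hε : ε = 1 ∨ ε = -1) {b : Bool} {K : Type} [Fintype K]
    [DecidableEq K] {t : K → Ω} {z : Matrix K K (MonoidAlgebra A G)} (hz : OnS E b t t z)
    (h : z + ε • adj β z = 0) : QEq β ε z 0 := by
  have hεε : ε * ε = 1 := by rcases hε with h | h <;> simp [h]
  have hε' : -ε = 1 ∨ -ε = -1 := by omega
  have h1 : adj β z = (-ε) • z := by
    have h2 := congrArg (fun x => ε • x) h
    simp only [smul_add, smul_smul, hεε, one_smul, smul_zero] at h2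
    rw [neg_smul]
    exact eq_neg_of_add_eq_zero_right h2
  obtain ⟨x, -, -, hx⟩ := exists_half_typed hN hε' hz h1
  exact ⟨x, by rw [zero_add, hx, neg_smul, ← sub_eq_add_neg]⟩

/-- two typed halves are equal as quadratic forms -/
theorem qeq_of_halves (hN : E.NoInv) (hε : ε = 1 ∨ ε = -1) {b : Bool} {K : Type} [Fintype K]
    [DecidableEq K] {t : K → Ω} {x y : Matrix K K (MonoidAlgebra A G)} (hx : OnS E b t t x)
    (hy : OnS E b t t y) (h : x + ε • adj β x = y + ε • adj β y) : QEq β ε x y := by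
  obtain ⟨z, hz⟩ := qeq_zero_of_sym (β := β) hN hε (hx.sub hy) (by
    rw [adj_sub, smul_sub]
    have : x - y + (ε • adj β x - ε • adj β y) =
        x + ε • adj β x - (y + ε • adj β y) := by abel
    rw [this, h, sub_self])
  exact ⟨z, by rw [← sub_eq_iff_eq_add', hz, zero_add]⟩

/-- independence of the halves -/
theorem wt_all (hN : E.NoInv) (hε : ε = 1 ∨ ε = -1) {X : BF E β ε} (h : WT X)
    {H : Bool → Matrix X.K X.K (MonoidAlgebra A G)} (hH : Halves X H) :
    SHyp β ε (Matrix.fromBlocks (H true) 1 0 (H false)) := by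
  obtain ⟨H', hH', h'⟩ := h
  have key : ∀ b, QEq β ε (H b) (H' b) := fun b =>
    qeq_of_halves hN hε (hH.on b) (hH'.on b) (by rw [← hH.eq b, ← hH'.eq b])
  exact SHyp.of_qeq hε (QEq.fromBlocks hε (key true) (key false) rfl) h'

/-- metabolic forms are hyperbolic over `Λ` -/
theorem shyp_of_metabP (hN : E.NoInv) (hε : ε = 1 ∨ ε = -1) {K : Type} [Fintype K]
    [DecidableEq K] {t : K → Ω} {M H : Bool → Matrix K K (MonoidAlgebra A G)}
    (hn : ∃ N : ℕ, (M true * M false) ^ N = 0) (hon : ∀ b, OnS E b t t (H b))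
    (heq : ∀ b, M b = H b + ε • adj β (H b)) (h : MetabP E β t M) :
    SHyp β ε (Matrix.fromBlocks (H true) 1 0 (H false)) := by
  obtain ⟨Q, hQ, hQQ, h1, h2⟩ := h
  refine SHyp.of_iso hε (iso_of_metab hε (H true) (H false) Q ?_ hQQ ?_ ?_) (shyp_hyp hε)
  · rw [← heq true, ← heq false]
    exact hn
  · refine qeq_zero_of_sym hN hε (b := true) (t := t)
      (((hQ.mulS (hon true))).mul0 (hQ.adj β)) ?_
    rw [adj_mul, adj_mul, adj_adj, ← Matrix.mul_assoc, ← Matrix.smul_mul, ← Matrix.mul_smul,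
      ← Matrix.add_mul, ← Matrix.mul_add, ← heq true]
    exact h1
  · have hR : On0 E t t (1 - Q) := On0.one.sub hQ
    refine qeq_zero_of_sym hN hε (b := false) (t := t)
      ((((hR.adj β)).mulS (hon false)).mul0 hR) ?_
    rw [adj_mul, adj_mul, adj_adj, ← Matrix.mul_assoc, ← Matrix.smul_mul, ← Matrix.mul_smul,
      ← Matrix.add_mul, ← Matrix.mul_add, ← heq false]
    exact h2

/-- stably metabolic forms are stably hyperbolic over `Λ` -/
theorem wt_of_smetab (hN : E.NoInv) (hε : ε = 1 ∨ ε = -1) {X : BF E β ε} (h : X.SMetab) :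
    WT X := by
  obtain ⟨Y, hY, hXY⟩ := h
  obtain ⟨H, hH⟩ := exists_halves hN hε X
  obtain ⟨H', hH'⟩ := exists_halves hN hε Y
  refine ⟨H, hH, ?_⟩
  have hYs : SHyp β ε (Matrix.fromBlocks (H' true) 1 0 (H' false)) :=
    shyp_of_metabP hN hε Y.is.nil hH'.on hH'.eq hY
  have hXYs : SHyp β ε (Matrix.fromBlocks (Matrix.fromBlocks (H true) 0 0 (H' true)) 1 0
      (Matrix.fromBlocks (H false) 0 0 (H' false))) := by
    refine shyp_of_metabP (H := fun b => Matrix.fromBlocks (H b) 0 0 (H' b)) hN hε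
      (X.dsum Y).is.nil (fun b => OnS.fromBlocks (hH.on b) OnS.zero OnS.zero (hH'.on b))
      (fun b => ?_) hXY
    rw [adj_fromBlocks, adj_zero, adj_zero, Matrix.fromBlocks_smul, Matrix.fromBlocks_add,
      smul_zero, smul_zero, add_zero, add_zero, ← hH.eq, ← hH'.eq]
    rfl
  refine SHyp.cancel hε (η := Matrix.fromBlocks (H' true) 1 0 (H' false)) ?_ hYs
  refine SHyp.of_iso hε ?_ hXYs
  refine (eiso_perm (β := β) (ε := ε) _ _ (Equiv.sumSumSumComm X.K X.K Y.K Y.K) ?_).iso
  ext1 i j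
  rcases i with (i | i) | (i | i) <;> rcases j with (j | j) | (j | j) <;>
    simp [Matrix.one_apply, Matrix.submatrix_apply]

theorem wt_of_flip (_hN : E.NoInv) (hε : ε = 1 ∨ ε = -1) {X : BF E β ε} (h : WT X.flip) :
    WT X := by
  obtain ⟨H, hH, h'⟩ := h
  refine ⟨fun b => H (!b), ⟨fun b => ?_, fun b => ?_⟩, ?_⟩
  · have := hH.on (!b)
    rw [flip_onS, Bool.not_not] at this
    exact this
  · have := hH.eq (!b)
    change X.M (!(!b)) = _ at this
    rw [Bool.not_not] at this
    exact this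
  · exact SHyp.of_iso hε (iso_swap hε _ _) h'

end

end Pool.Agent.MIX
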