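import Mathlib
import Pool.Agent.Lib.MIX.Defs
import Pool.Agent.Lib.MP_98022b_UM.Half

/-!
# MIX: quadratic refinements without involutions are unique
-/

set_option autoImplicit false

open MonoidAlgebra Pool.Agent.Lib.MP_98022b_UN Pool.Agent.Lib.MP_98022b_UM

namespace Pool.Agent.MIX

universe u v w

theorem qeq_of_noInv {A : Type u} {Ω : Type w} {G : Type v} [CommRing A] [Group G]
    {E : BSys Ω G} {β : BarStr A G} {ε : ℤ} (hN : E.NoInv) (hε : ε = 1 ∨ ε = -1) {K : Type}
    [Fintype K] [DecidableEq K] {t : K → Ω} {b : Bool} {H H' : Matrix K K (MonoidAlgebra A G)}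
    (h : OnS E b t t H) (h' : OnS E b t t H') (he : H + ε • adj β H = H' + ε • adj β H') :
    QEq β ε H H' := by
  have hε' : -ε = 1 ∨ -ε = -1 := by
    rcases hε with rfl | rfl
    · exact Or.inr rfl
    · exact Or.inl (neg_neg 1)
  have hee : ε * ε = 1 := by rcases hε with rfl | rfl <;> norm_num
  have h1 : OnS E b t t (H - H') := h.sub h'
  have h2 : adj β (H - H') = (-ε) • (H - H') := by
    have h3 : ε • adj β (H - H') = -(H - H') := by
      rw [adj_sub, smul_sub]
      have h4 : ε • adj β H = H' + ε • adj β H' - H := by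
        rw [← he]
        abel
      rw [h4]
      abel
    have h5 := congrArg (fun z => ε • z) h3
    simp only [smul_smul, hee, one_smul] at h5
    rw [h5, smul_neg, neg_smul]
  obtain ⟨x, -, -, hx⟩ := exists_half_typed hN hε' h1 h2
  refine ⟨x, ?_⟩
  rw [neg_smul, ← sub_eq_add_neg] at hx
  rw [← hx]
  abel

end Pool.Agent.MIX
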