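import Pool.Agent.Lib.MIX.Witt2
import Pool.Agent.Lib.MIX.QNoInv
import Pool.Agent.Lib.MP_98022b_UM.OnL

/-!
# MIX: stable hyperbolicity is preserved by moves (row M1c, wt_move; helper15)
-/

set_option autoImplicit false

open MonoidAlgebra Pool.Agent.Lib.MP_98022b_UN Pool.Agent.Lib.MP_98022b_UM

namespace Pool.Agent.MIX

universe u v w w'

section
variable {A : Type u} {G : Type v} [CommRing A] [Group G] {β : BarStr A G} {ε : ℤ}
  {K K' : Type} [Fintype K] [DecidableEq K] [Fintype K'] [DecidableEq K']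

/-- the algebraic part of `wt_move` -/
theorem shyp_move (hε : ε = 1 ∨ ε = -1) (Hf : Matrix K K (MonoidAlgebra A G))
    (u : Matrix K K' (MonoidAlgebra A G)) (s D : Matrix K' K' (MonoidAlgebra A G))
    (hD : QEq β ε (adj β u * Hf * u) D)
    (h : SHyp β ε (Matrix.fromBlocks s 1 0 D)) :
    SHyp β ε (Matrix.fromBlocks (u * s * adj β u) 1 0 Hf) := by
  have hεε : ε * ε = 1 := by rcases hε with rfl | rfl <;> norm_num
  set F : Matrix K K (MonoidAlgebra A G) := Hf + ε • adj β Hf with hF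
  have hFa : adj β F = ε • F := by
    rw [hF, adj_add, adj_zsmul, adj_adj, smul_add, smul_smul, hεε, one_smul, add_comm]
  set θ : Matrix (K ⊕ K) (K ⊕ K) (MonoidAlgebra A G) := Matrix.fromBlocks 0 1 0 Hf with hθ
  set ψ : Matrix (K ⊕ K) (K ⊕ K) (MonoidAlgebra A G) :=
    Matrix.fromBlocks (-(ε • F)) (ε • 1) 1 0 with hψ
  have hφ : θ + ε • adj β θ = Matrix.fromBlocks 0 1 (ε • 1) F := by
    rw [hθ, adj_fromBlocks, adj_zero, adj_one, Matrix.fromBlocks_smul, Matrix.fromBlocks_add]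
    simp [hF, -zsmul_eq_mul]
  have h1 : (θ + ε • adj β θ) * ψ = 1 := by
    rw [hφ, hψ, Matrix.fromBlocks_multiply]
    rcases hε with rfl | rfl <;> simp
  have h2 : ψ * (θ + ε • adj β θ) = 1 := by
    rw [hφ, hψ, Matrix.fromBlocks_multiply]
    rcases hε with rfl | rfl <;> simp
  set V : Matrix (K ⊕ K) K' (MonoidAlgebra A G) := Matrix.fromRows u 0 with hV
  have h3 := elim (β := β) hε θ ψ h1 h2 V s
  have e1 : θ + V * s * adj β V = Matrix.fromBlocks (u * s * adj β u) 1 0 Hf := by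
    rw [hV, adj_fromRows, adj_zero, Matrix.fromRows_mul, Matrix.zero_mul,
      Matrix.fromRows_mul_fromCols, hθ, Matrix.fromBlocks_add]
    simp
  have e2 : adj β V * (ψ * θ * adj β ψ) * V = adj β u * (Hf - F) * u := by
    have hψθ : ψ * θ * adj β ψ = Matrix.fromBlocks (Hf - F) 0 (ε • 1) 0 := by
      have hψa : adj β ψ = Matrix.fromBlocks (-F) 1 (ε • 1) 0 := by
        rw [hψ, adj_fromBlocks, adj_neg, adj_zsmul, adj_zsmul, adj_one, adj_zero, hFa, smul_smul,
          hεε, one_smul]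
      rw [hψa, hψ, hθ, Matrix.fromBlocks_multiply, Matrix.fromBlocks_multiply]
      rcases hε with rfl | rfl
      · simp; abel
      · simp; abel
    rw [hψθ, hV, adj_fromRows, adj_zero, Matrix.fromCols_mul_fromBlocks,
      Matrix.fromCols_mul_fromRows]
    simp
  rw [e1, e2] at h3
  have e3 : QEq β ε (-(adj β u * (Hf - F) * u)) D := by
    obtain ⟨y, hy⟩ := hD
    refine ⟨-(adj β u * Hf * u) + y, ?_⟩
    have e6 : adj β (adj β u * Hf * u) = adj β u * adj β Hf * u := by
      rw [adj_mul, adj_mul, adj_adj, Matrix.mul_assoc]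
    have e7 : -(adj β u * (Hf - F) * u) = ε • (adj β u * adj β Hf * u) := by
      have e8 : Hf - F = -(ε • adj β Hf) := by rw [hF]; abel
      rw [e8, Matrix.mul_neg, Matrix.neg_mul, neg_neg, Matrix.mul_smul, Matrix.smul_mul]
    have e9 : D = adj β u * Hf * u - (y - ε • adj β y) := by rw [hy]; abel
    rw [e7, adj_add, adj_neg, e6, e9, smul_add, smul_neg]
    abel
  have e4 : SHyp β ε (Matrix.fromBlocks s 1 0 (-(adj β u * (Hf - F) * u))) := by
    obtain ⟨y, hy⟩ := e3
    refine SHyp.of_qeq hε ⟨Matrix.fromBlocks 0 0 0 y, ?_⟩ h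
    rw [hy, adj_fromBlocks, adj_zero, Matrix.fromBlocks_smul]
    funext i j
    rcases i with i | i <;> rcases j with j | j <;> simp [-zsmul_eq_mul]
  have e5 : SHyp β ε (Matrix.fromBlocks θ 0 0
      (Matrix.fromBlocks s 1 0 (-(adj β u * (Hf - F) * u)))) :=
    SHyp.sum hε (shyp_right hε Hf) e4
  obtain ⟨U, U', a1, a2, y, a3⟩ := h3
  have e6 : EIso β ε (Matrix.fromBlocks (Matrix.fromBlocks (u * s * adj β u) 1 0 Hf) 0 0
      (Matrix.fromBlocks s (1 : Matrix K' K' (MonoidAlgebra A G)) 0 0))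
      (Matrix.fromBlocks θ 0 0 (Matrix.fromBlocks s 1 0 (-(adj β u * (Hf - F) * u)))) :=
    ⟨U, U', y, a1, a2, a3⟩
  exact SHyp.cancel hε (SHyp.of_iso hε e6.symm.iso e5) (shyp_left hε s)

end

section
variable {A : Type u} {Ω : Type w} {Δ : Type w'} {G : Type v} [CommRing A] [Group G]
  {E : BSys Ω G} {β : BarStr A G} {ε : ℤ}

/-- `WT` is preserved by moves (elimination formula with `θ = [[0, 1], [0, H false]]`,
`V = (u; 0)`) -/
theorem wt_move (hN : E.NoInv) (hε : ε = 1 ∨ ε = -1) {E' : BSys Δ G} {π : Δ → Ω}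
    (_hN' : E'.NoInv) (hπ : E'.Hom E π) (X : BF E β ε) (X' : BF E' β ε)
    (u : Matrix X.K X'.K (MonoidAlgebra A G)) (hu : On0 E X.t (fun k => π (X'.t k)) u)
    (h1 : X.M true = u * X'.M true * adj β u) (h2 : X'.M false = adj β u * X.M false * u)
    (h : WT X') : WT X := by
  obtain ⟨H', hH', hS⟩ := h
  obtain ⟨Hf, hf, -, hf2⟩ := exists_half_typed hN hε (X.is.on false) (X.is.sym false)
  have hT : OnS E true (fun k => π (X'.t k)) (fun k => π (X'.t k)) (H' true) :=
    hπ.onS (hH'.on true)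
  have hT' : OnS E true X.t X.t (u * H' true * adj β u) := (hu.mulS hT).mul0 (hu.adj β)
  refine ⟨fun b => if b then u * H' true * adj β u else Hf, ⟨?_, ?_⟩, ?_⟩
  · intro b
    cases b
    · exact hf
    · exact hT'
  · intro b
    cases b
    · exact hf2
    · show X.M true = u * H' true * adj β u + ε • adj β (u * H' true * adj β u)
      rw [h1, hH'.eq true, adj_mul, adj_mul, adj_adj, Matrix.mul_add, Matrix.add_mul,
        Matrix.mul_smul, Matrix.smul_mul, Matrix.mul_assoc u (adj β (H' true))]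
  · show SHyp β ε (Matrix.fromBlocks (u * H' true * adj β u) 1 0 Hf)
    refine shyp_move hε Hf u (H' true) (H' false) ?_ hS
    have hF : OnS E false (fun k => π (X'.t k)) (fun k => π (X'.t k)) (H' false) :=
      hπ.onS (hH'.on false)
    have hF' : OnS E false (fun k => π (X'.t k)) (fun k => π (X'.t k)) (adj β u * Hf * u) :=
      ((hu.adj β).mulS hf).mul0 hu
    refine qeq_of_noInv hN hε hF' hF ?_
    rw [← hH'.eq false, h2, hf2, adj_mul, adj_mul, adj_adj, Matrix.mul_add, Matrix.add_mul,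
      Matrix.mul_smul, Matrix.smul_mul, Matrix.mul_assoc (adj β u) (adj β Hf)]

end

end Pool.Agent.MIX
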