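import Mathlib
import Pool.Agent.Lib.MIX.DL
import Pool.Agent.Lib.MIX.QAlg
import Pool.Agent.Lib.MIX.HatBF
import Pool.Agent.Lib.MIX.LemC
import Pool.Agent.Lib.MIX.Elim
import Pool.Agent.Lib.MIX.Pattern
import Pool.Agent.Lib.MIX.Witt
import Pool.Agent.Lib.MIX.Witt2
import Pool.Agent.Lib.MIX.WT
import Pool.Agent.Lib.MIX.WTMove
import Pool.Agent.Lib.MIX.Iter

/-! The mix theorem: forms are Witt equivalent to their restriction to the self-dual objects. -/

set_option autoImplicit false

open MonoidAlgebra Pool.Agent.Lib.MP_98022b_UN Pool.Agent.Lib.MP_98022b_UM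

namespace Pool.Agent.MIX

universe u v w w'

section
variable {A : Type u} {Ω : Type w} {G : Type v} [CommRing A] [Group G] {E : BSys Ω G}
  {β : BarStr A G} {ε : ℤ}

/-- the predicates of the words -/
private def wU (c : Ω → Option Bool) (h : Ω → Bool) (f : ℕ → Bool) : ℕ → Ω → Prop :=
  fun n ω => if n % 2 = 0 then c ω = some (f n) else h ω = f n

private theorem wP_shift {K : Type} [Fintype K] [DecidableEq K] (t : K → Ω)
    (M : Bool → Matrix K K (MonoidAlgebra A G)) (c : Ω → Option Bool) (h : Ω → Bool) (N : ℕ) :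
    ∀ f : ℕ → Bool, (List.ofFn (n := N) fun i =>
      (dl A G t (fun ω => c ω = some (f (2 * i))) * M true) *
        (dl A G t (fun ω => h ω = f (2 * i + 1)) * M false)).prod =
      wP t M (wU c h f) (2 * N) true := by
  induction N with
  | zero =>
    intro f
    rfl
  | succ N ih =>
    intro f
    have e : 2 * (N + 1) = 2 * N + 1 + 1 := by ring
    rw [e, List.ofFn_succ, List.prod_cons]
    have h1 : wP t M (wU c h f) (2 * N + 1 + 1) true =
        dl A G t (wU c h f 0) * M true * (dl A G t (wU c h f 1) * M false *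
          wP t M (fun i => wU c h f (i + 1 + 1)) (2 * N) true) := rfl
    rw [h1]
    have h2 : wU c h f 0 = fun ω => c ω = some (f 0) := by
      funext ω
      unfold wU
      simp
    have h3 : wU c h f 1 = fun ω => h ω = f 1 := by
      funext ω
      unfold wU
      simp
    have h4 : (fun i => wU c h f (i + 1 + 1)) = wU c h (fun n => f (n + 2)) := by
      funext n ω
      unfold wU
      have : (n + 1 + 1) % 2 = n % 2 := by omega
      rw [this]
    rw [h2, h3, h4, ← ih (fun n => f (n + 2)), Matrix.mul_assoc (dl A G t _ * M true)]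
    congr 1

/-- the inclusion of the indices in `P` -/
noncomputable def inc (A : Type u) (G : Type v) [CommRing A] [Group G] {K : Type}
    [DecidableEq K] (P : K → Prop) : Matrix K {k // P k} (MonoidAlgebra A G) :=
  fun k l => (1 : Matrix K K (MonoidAlgebra A G)) k l.1

theorem inc_self {K : Type} [DecidableEq K] {P : K → Prop} {k : K} (l : {k // P k})
    (h : k = l.1) : inc A G P k l = 1 := by
  subst h
  exact Matrix.one_apply_eq _

theorem inc_ne {K : Type} [DecidableEq K] {P : K → Prop} {k : K} (l : {k // P k})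
    (h : k ≠ l.1) : inc A G P k l = 0 := Matrix.one_apply_ne h

theorem adj_inc_self {K : Type} [DecidableEq K] (β : BarStr A G) {P : K → Prop} {k : K}
    (l : {k // P k}) (h : k = l.1) : adj β (inc A G P) l k = 1 := by
  show β.bar (inc A G P k l) = 1
  rw [inc_self l h, bar_one]

theorem adj_inc_ne {K : Type} [DecidableEq K] (β : BarStr A G) {P : K → Prop} {k : K}
    (l : {k // P k}) (h : k ≠ l.1) : adj β (inc A G P) l k = 0 := by
  show β.bar (inc A G P k l) = 0
  rw [inc_ne l h, bar_zero]

theorem adj_inc_mul {K L : Type} [Fintype K] [DecidableEq K] (β : BarStr A G)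
    (P : K → Prop) (M : Matrix K L (MonoidAlgebra A G)) :
    adj β (inc A G P) * M = M.submatrix Subtype.val id := by
  funext i j
  rw [Matrix.mul_apply, Finset.sum_eq_single i.1]
  · rw [adj_inc_self β i rfl, one_mul]
    rfl
  · intro k _ hk
    rw [adj_inc_ne β i hk, zero_mul]
  · intro h
    exact absurd (Finset.mem_univ _) h

theorem mul_inc {K L : Type} [Fintype K] [DecidableEq K]
    (P : K → Prop) (M : Matrix L K (MonoidAlgebra A G)) :
    M * inc A G P = M.submatrix id Subtype.val := by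
  funext i j
  rw [Matrix.mul_apply, Finset.sum_eq_single j.1]
  · rw [inc_self j rfl, mul_one]
    rfl
  · intro k _ hk
    rw [inc_ne j hk, mul_zero]
  · intro h
    exact absurd (Finset.mem_univ _) h

theorem inc_mul_pos {K L : Type} [Fintype K] [DecidableEq K]
    (P : K → Prop) [Fintype {k // P k}] (s : Matrix {k // P k} L (MonoidAlgebra A G))
    (i : K) (j : L) (hi : P i) : (inc A G P * s) i j = s ⟨i, hi⟩ j := by
  rw [Matrix.mul_apply, Finset.sum_eq_single ⟨i, hi⟩]
  · rw [inc_self ⟨i, hi⟩ rfl, one_mul]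
  · intro k _ hk
    rw [inc_ne k (fun h => hk (Subtype.ext h.symm)), zero_mul]
  · intro h
    exact absurd (Finset.mem_univ _) h

theorem inc_mul_neg {K L : Type} [Fintype K] [DecidableEq K]
    (P : K → Prop) [Fintype {k // P k}] (s : Matrix {k // P k} L (MonoidAlgebra A G))
    (i : K) (j : L) (hi : ¬ P i) : (inc A G P * s) i j = 0 := by
  rw [Matrix.mul_apply]
  refine Finset.sum_eq_zero fun k _ => ?_
  rw [inc_ne k (fun h => hi (by rw [h]; exact k.2)), zero_mul]

theorem mul_adj_inc_pos {K L : Type} [Fintype K] [DecidableEq K] (β : BarStr A G)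
    (P : K → Prop) [Fintype {k // P k}] (s : Matrix L {k // P k} (MonoidAlgebra A G))
    (i : L) (j : K) (hj : P j) : (s * adj β (inc A G P)) i j = s i ⟨j, hj⟩ := by
  rw [Matrix.mul_apply, Finset.sum_eq_single ⟨j, hj⟩]
  · rw [adj_inc_self β ⟨j, hj⟩ rfl, mul_one]
  · intro k _ hk
    rw [adj_inc_ne β k (fun h => hk (Subtype.ext h.symm)), mul_zero]
  · intro h
    exact absurd (Finset.mem_univ _) h

theorem mul_adj_inc_neg {K L : Type} [Fintype K] [DecidableEq K] (β : BarStr A G)
    (P : K → Prop) [Fintype {k // P k}] (s : Matrix L {k // P k} (MonoidAlgebra A G))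
    (i : L) (j : K) (hj : ¬ P j) : (s * adj β (inc A G P)) i j = 0 := by
  rw [Matrix.mul_apply]
  refine Finset.sum_eq_zero fun k _ => ?_
  rw [adj_inc_ne β k (fun h => hj (by rw [h]; exact k.2)), mul_zero]

theorem inc_conj_pos {K : Type} [Fintype K] [DecidableEq K] (β : BarStr A G)
    (P : K → Prop) [Fintype {k // P k}] (s : Matrix {k // P k} {k // P k} (MonoidAlgebra A G))
    (i j : K) (hi : P i) (hj : P j) : (inc A G P * s * adj β (inc A G P)) i j =
      s ⟨i, hi⟩ ⟨j, hj⟩ := by
  rw [mul_adj_inc_pos β P _ i j hj, inc_mul_pos P s i _ hi]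

theorem inc_conj_neg {K : Type} [Fintype K] [DecidableEq K] (β : BarStr A G)
    (P : K → Prop) [Fintype {k // P k}] (s : Matrix {k // P k} {k // P k} (MonoidAlgebra A G))
    (i j : K) (h : ¬ P i ∨ ¬ P j) : (inc A G P * s * adj β (inc A G P)) i j = 0 := by
  rcases h with hi | hj
  · rw [Matrix.mul_assoc, inc_mul_neg P _ i j hi]
  · rw [mul_adj_inc_neg β P _ i j hj]

/-- the part with rows in `N` and the part with rows not in `N` -/
theorem dl_add_inc {K : Type} [Fintype K] [DecidableEq K] (β : BarStr A G) (t : K → Ω)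
    (N : Ω → Prop) [Fintype {k : K // ¬ N (t k)}] (M : Matrix K K (MonoidAlgebra A G))
    (hM : ∀ i j g, (M i j).coeff g ≠ 0 → (N (t i) ↔ N (t j))) :
    dl A G t N * M + inc A G (fun k => ¬ N (t k)) *
      (M.submatrix Subtype.val Subtype.val :
        Matrix {k : K // ¬ N (t k)} {k : K // ¬ N (t k)} (MonoidAlgebra A G)) *
      adj β (inc A G (fun k => ¬ N (t k))) = M := by
  classical
  funext i j
  rw [Matrix.add_apply, dl_mul_apply]
  by_cases hi : N (t i)
  · rw [if_pos hi, inc_conj_neg β _ _ i j (Or.inl (fun h => h hi)), add_zero]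
  · rw [if_neg hi, zero_add]
    by_cases hj : N (t j)
    · rw [inc_conj_neg β _ _ i j (Or.inr (fun h => h hj))]
      by_contra hne
      have : ∃ g, (M i j).coeff g ≠ 0 := by
        by_contra hcc
        push Not at hcc
        exact hne (by ext g; simpa using (hcc g).symm)
      obtain ⟨g, hg⟩ := this
      exact hi ((hM i j g hg).2 hj)
    · rw [inc_conj_pos β _ _ i j hi hj]
      rfl

theorem half_conj {K L : Type} [Fintype K] [DecidableEq K] [Fintype L] (β : BarStr A G) (ε : ℤ)
    (a1 : Matrix K K (MonoidAlgebra A G)) (X : Matrix K L (MonoidAlgebra A G))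
    (s : Matrix L L (MonoidAlgebra A G)) :
    a1 + X * s * adj β X + ε • adj β (a1 + X * s * adj β X) =
      a1 + ε • adj β a1 + X * (s + ε • adj β s) * adj β X := by
  rw [adj_add, adj_mul, adj_mul, adj_adj, smul_add, Matrix.mul_add, Matrix.add_mul,
    Matrix.mul_smul, Matrix.smul_mul, Matrix.mul_assoc X (adj β s)]
  abel

theorem OnS.inc_conj {K : Type} [Fintype K] [DecidableEq K] (β : BarStr A G) (t : K → Ω)
    (N : Ω → Prop) [Fintype {k : K // ¬ N (t k)}]
    (s : Matrix {k : K // ¬ N (t k)} {k : K // ¬ N (t k)} (MonoidAlgebra A G))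
    (hs : OnS (hatSys E N) true (fun k : {k : K // ¬ N (t k)} => (⟨t k.1, k.2⟩ : {ω // ¬ N ω}))
      (fun k : {k : K // ¬ N (t k)} => (⟨t k.1, k.2⟩ : {ω // ¬ N ω})) s) :
    OnS E true t t (inc A G (fun k => ¬ N (t k)) * s * adj β (inc A G (fun k => ¬ N (t k)))) := by
  intro i j g hg
  by_cases hi : ¬ N (t i)
  · by_cases hj : ¬ N (t j)
    · rw [inc_conj_pos β _ _ i j hi hj] at hg
      exact hs _ _ g hg
    · rw [inc_conj_neg β _ _ i j (Or.inr hj)] at hg
      exact absurd rfl hg
  · rw [inc_conj_neg β _ _ i j (Or.inl hi)] at hg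
    exact absurd rfl hg

/-- **the mix theorem** -/
theorem mix (hG : E.Geo) (hN : E.NoInv) (hL : Len E) (hε : ε = 1 ∨ ε = -1)
    (c : Ω → Option Bool)
    (hc : ∀ (ω ω' : Ω) (g : G), g ∈ E.S true ω ω' → c ω' = (c ω).map not) (h : Ω → Bool)
    (hh : Spl E false h)
    (hm : ∀ Y : BF (hatSys E (fun ω => c ω ≠ none)) β ε, WT Y) (X : BF E β ε) : WT X := by
  classical
  have hee : ε * ε = 1 := by rcases hε with rfl | rfl <;> norm_num
  obtain ⟨K, t, M, his⟩ := X
  rename_i ifin idec
  let X : BF E β ε := { K := K, t := t, M := M, is := his }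
  show WT X
  set N : Ω → Prop := fun ω => c ω ≠ none with hNdef
  have hadjM : ∀ b, adj β (M b) = ε • M b := his.sym
  obtain ⟨a, hadef⟩ : ∃ a, a = dl A G t N * M true := ⟨_, rfl⟩
  obtain ⟨a1, ha1def⟩ : ∃ a1, a1 = dl A G t (fun ω => c ω = some true) * M true := ⟨_, rfl⟩
  obtain ⟨c1, hc1def⟩ : ∃ c1, c1 = dl A G t (fun ω => h ω = true) * M false := ⟨_, rfl⟩
  -- F1
  have F1 : ε • adj β a1 = dl A G t (fun ω => c ω = some false) * M true := by
    rw [ha1def, adj_mul, adj_dl, hadjM, Matrix.smul_mul, smul_smul, hee, one_smul]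
    refine mul_dl_eq fun i j g hg => ?_
    have h1 := hc _ _ g (his.on true i j g hg)
    rw [h1]
    cases c (t i) with
    | none => simp
    | some b => cases b <;> simp
  have F2 : ε • adj β c1 = dl A G t (fun ω => h ω = false) * M false := by
    rw [hc1def, adj_mul, adj_dl, hadjM, Matrix.smul_mul, smul_smul, hee, one_smul]
    refine mul_dl_eq fun i j g hg => ?_
    have h1 := hh _ _ g (his.on false i j g hg)
    rw [h1]
    cases h (t i) <;> simp
  have F3 : a = a1 + ε • adj β a1 := by
    rw [F1, ha1def, hadef, ← Matrix.add_mul, dl_or]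
    · congr 2
      funext ω
      rw [hNdef]
      cases hcω : c ω with
      | none => simp [hcω]
      | some b => cases b <;> simp [hcω]
    · rintro ω ⟨h1, h2⟩
      rw [h1] at h2
      simp at h2
  have F4 : M false = c1 + ε • adj β c1 := by
    rw [F2, hc1def, ← Matrix.add_mul, dl_or]
    · have : (fun ω => h ω = true ∨ h ω = false) = fun _ : Ω => True := by
        funext ω
        cases h ω <;> simp
      rw [this, dl_true, Matrix.one_mul]
    · rintro ω ⟨h1, h2⟩
      rw [h1] at h2
      simp at h2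
  -- F6
  obtain ⟨N0, hN0⟩ := wM_nil his.nil
  have hN1 : ∀ b, wM M (2 * N0) b = 0 := by
    intro b
    rw [two_mul, wM_add, hN0, Matrix.zero_mul]
  have F6 : Iso β ε (Matrix.fromBlocks a1 1 0 c1) (hyp A G K) := by
    refine iso_hyp_of_words hε a1 c1 (N := N0) fun f => ?_
    have e1 : (fun i : Fin N0 => (if f (2 * (i : ℕ)) then a1 else ε • adj β a1) *
        (if f (2 * (i : ℕ) + 1) then c1 else ε • adj β c1)) = fun i : Fin N0 =>
        (dl A G t (fun ω => c ω = some (f (2 * (i : ℕ)))) * M true) *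
        (dl A G t (fun ω => h ω = f (2 * (i : ℕ) + 1)) * M false) := by
      funext i
      rw [F1, F2, ha1def, hc1def]
      cases f (2 * (i : ℕ)) <;> cases f (2 * (i : ℕ) + 1) <;> simp
    rw [e1, wP_shift t M c h N0 f]
    exact wP_eq_zero hG his.on (hN1 true) _
  -- F7
  have hcN : ∀ (ω ω' : Ω) (g : G), g ∈ E.S true ω ω' → (N ω ↔ N ω') := by
    intro ω ω' g hg
    have h1 := hc ω ω' g hg
    rw [hNdef]
    simp only [h1]
    cases c ω <;> simp
  obtain ⟨Z, hZ1, hZ2, hBF, hD⟩ := hat_bf hG hε X N hcN a hadef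
  have hZ : ZData β ε a (M false) Z := by
    refine ⟨?_, hadjM false, hZ1, hZ2⟩
    rw [F3, adj_add, adj_zsmul, adj_adj, smul_add, smul_smul, hee, one_smul, add_comm]
  have hQ := hZ.toQ hε
  set q : Matrix K K (MonoidAlgebra A G) := M false * Z with hqdef
  let Y : BF (hatSys E N) β ε := { K := {k : K // ¬ N (t k)}, t := _, M := _, is := hBF }
  have hNh : (hatSys E N).NoInv := hat_noInv hG hN N
  obtain ⟨H, hH⟩ := exists_halves hNh hε Y
  have ha1on : OnS E true t t a1 := by rw [ha1def]; exact OnS.dl_mul (his.on true)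
  have hc1on : OnS E false t t c1 := by rw [hc1def]; exact OnS.dl_mul (his.on false)
  have hDon := hD a1 c1 ha1on (by
    rw [ha1def, ← Matrix.mul_assoc, dl_mul_dl]
    have : (fun ω => N ω ∧ c ω = some true) = fun ω => c ω = some true := by
      funext ω
      rw [hNdef]
      cases hcω : c ω <;> simp [hcω]
    rw [this]) hc1on F3
  have hDeq : refD ε a1 a c1 q + ε • adj β (refD ε a1 a c1 q) = q := hQ.refD_eq hε F3 F4
  set s : Matrix {k : K // ¬ N (t k)} {k : K // ¬ N (t k)} (MonoidAlgebra A G) := H true with hsdef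
  set D' : Matrix {k : K // ¬ N (t k)} {k : K // ¬ N (t k)} (MonoidAlgebra A G) :=
    (refD ε a1 a c1 q).submatrix Subtype.val Subtype.val with hD'def
  have hH' : Halves Y (fun b => if b then s else D') := by
    refine ⟨?_, ?_⟩
    · rintro (_ | _)
      · exact hDon
      · exact hH.on true
    · rintro (_ | _)
      · show q.submatrix Subtype.val Subtype.val = D' + ε • adj β D'
        rw [← hDeq]
        rfl
      · exact hH.eq true
  have hYWT := wt_all hNh hε (hm Y) hH'
  have hYWT' : SHyp β ε (Matrix.fromBlocks s 1 0 D') := hYWT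
  -- elimination
  set V : Matrix (K ⊕ K) {k : K // ¬ N (t k)} (MonoidAlgebra A G) :=
    Matrix.fromRows (inc A G (fun k => ¬ N (t k))) 0 with hVdef
  have hth : Matrix.fromBlocks a1 1 0 c1 + ε • adj β (Matrix.fromBlocks a1 1 0 c1) =
      Matrix.fromBlocks a 1 (ε • (1 : Matrix K K (MonoidAlgebra A G))) (M false) := by
    rw [adj_fromBlocks, Matrix.fromBlocks_smul, Matrix.fromBlocks_add, ← F3, ← F4, adj_zero,
      adj_one, smul_zero, add_zero, zero_add]
  have hV : adj β V * (psi ε a q * Matrix.fromBlocks a1 1 0 c1 * adj β (psi ε a q)) * V =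
      -D' := by
    have h1 := hQ.conj_psi hε a1 c1
    obtain ⟨P, hP⟩ : ∃ P, P = psi ε a q * Matrix.fromBlocks a1 1 0 c1 * adj β (psi ε a q) :=
      ⟨_, rfl⟩
    rw [← hP] at h1 ⊢
    rw [hVdef, adj_fromRows, adj_zero, ← Matrix.fromBlocks_toBlocks P,
      Matrix.fromCols_mul_fromBlocks, Matrix.zero_mul, add_zero, Matrix.zero_mul, add_zero,
      Matrix.fromCols_mul_fromRows, Matrix.mul_zero, add_zero, h1, adj_inc_mul, mul_inc, hD'def]
    rfl
  have hel := elim hε (Matrix.fromBlocks a1 1 0 c1) (psi ε a q) (by rw [hth]; exact hQ.psi1 hε)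
    (by rw [hth]; exact hQ.psi2 hε) V s
  rw [hV, neg_neg] at hel
  have h1 : SHyp β ε (Matrix.fromBlocks (Matrix.fromBlocks a1 1 0 c1) 0 0
      (Matrix.fromBlocks s 1 0 D')) := (SHyp.of_iso hε F6 (shyp_hyp hε)).sum hε hYWT'
  have h2 := SHyp.of_iso hε (hel.symm hε) h1
  have h3 := SHyp.cancel hε h2 (shyp_left hε s)
  have h4 : Matrix.fromBlocks a1 1 0 c1 + V * s * adj β V = Matrix.fromBlocks
      (a1 + inc A G (fun k => ¬ N (t k)) * s * adj β (inc A G (fun k => ¬ N (t k)))) 1 0 c1 := by
    rw [hVdef, adj_fromRows, adj_zero, Matrix.fromRows_mul, Matrix.fromRows_mul_fromCols,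
      Matrix.fromBlocks_add]
    simp
  rw [h4] at h3
  refine ⟨fun b => if b then a1 + inc A G (fun k => ¬ N (t k)) * s *
    adj β (inc A G (fun k => ¬ N (t k))) else c1, ⟨?_, ?_⟩, h3⟩
  · rintro (_ | _)
    · exact hc1on
    · exact OnS.add ha1on (OnS.inc_conj β t N s (hH.on true))
  · rintro (_ | _)
    · exact F4
    · show M true = (a1 + inc A G (fun k => ¬ N (t k)) * s *
        adj β (inc A G (fun k => ¬ N (t k)))) + ε • adj β (a1 + inc A G (fun k => ¬ N (t k)) * s *
        adj β (inc A G (fun k => ¬ N (t k))))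
      have h7 : s + ε • adj β s = (M true).submatrix Subtype.val Subtype.val :=
        (hH.eq true).symm
      rw [half_conj, ← F3, h7, hadef]
      exact (dl_add_inc β t N (M true) fun i j g hg => hcN _ _ g (his.on true i j g hg)).symm

end

end Pool.Agent.MIX
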