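import Mathlib
import Pool.Agent.Lib.MIX.FinalDefs
import Pool.Agent.Lib.MIX.Mix
import Pool.Agent.Lib.UP25.ClassT

/-! The final theorem: UNil sees only the reversed segments. -/

set_option autoImplicit false

open MonoidAlgebra Pool.Agent.Lib.MP_98022b_UN Pool.Agent.Lib.MP_98022b_UM
open Pool.Agent.Lib.MP_98022b_UM.UF Pool.Agent.UP25 Pool.Agent.UP
open scoped LaurentPolynomial

namespace Pool.Agent.MIX

universe u v w w'

section
variable {A : Type u} {Ω : Type w} {Δ : Type w'} {G : Type v} [CommRing A] [Group G]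
  {E : BSys Ω G} {β : BarStr A G} {ε : ℤ}

open Classical in
/-- the function which splits the pairs `{δ, inv δ}` with `δ ≠ inv δ` -/
noncomputable def cInv (R : Reps E Δ) (δ : Δ) : Option Bool :=
  if R.inv δ = δ then none else some (decide (WellOrderingRel δ (R.inv δ)))

theorem cInv_eq_none (R : Reps E Δ) {δ : Δ} : ¬ cInv R δ ≠ none ↔ R.inv δ = δ := by
  classical
  unfold cInv
  by_cases h : R.inv δ = δ
  · rw [if_pos h]
    simp [h]
  · rw [if_neg h]
    simp [h]

theorem cInv_inv (R : Reps E Δ) (δ : Δ) : cInv R (R.inv δ) = (cInv R δ).map not := by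
  classical
  unfold cInv
  by_cases h : R.inv δ = δ
  · rw [if_pos h, h, if_pos h]
    rfl
  · rw [if_neg h, if_neg (fun h' => h (by rw [R.inv_inv] at h'; exact h'.symm)), R.inv_inv]
    rw [Option.map_some]
    congr 1
    rcases trichotomous_of (WellOrderingRel (α := Δ)) δ (R.inv δ) with k | k | k
    · have k' : ¬ WellOrderingRel (R.inv δ) δ := asymm k
      simp [k, k']
    · exact absurd k.symm h
    · have k' : ¬ WellOrderingRel δ (R.inv δ) := asymm k
      simp [k, k']

/-- the mix theorem for a reduced system -/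
theorem mix_red (hG : E.Geo) (hN : E.NoInv) (hL : Len E) (hε : ε = 1 ∨ ε = -1) (h : Ω → Bool)
    (hh : Spl E false h) (R : Reps E Δ)
    (hm : ∀ (Θ : Type w') (E' : BSys Θ G) (π : Θ → Δ), E'.Geo → E'.NoInv →
      (∀ θ, R.inv (π θ) = π θ) → (∀ θ, E'.F θ = (redSys R).F (π θ)) →
      ∀ Y : BF E' β ε, Y.SMetab) (X : BF (redSys R) β ε) : WT X := by
  have hG' := red_geo R hG
  have hN' := red_noInv R hN
  have hL' := len_red hL R
  refine mix hG' hN' hL' hε (cInv R) ?_ (fun δ => h (R.src δ)) (spl_red hh R) ?_ X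
  · intro δ δ' g hg
    have : δ' = R.inv δ := hg.1
    rw [this, cInv_inv]
  · intro Y
    have hNh := hat_noInv hG' hN' (fun δ => cInv R δ ≠ none)
    exact wt_of_smetab hNh hε (hm _ _ (fun δ => δ.1) (hat_geo hG' hL' _) hNh
      (fun δ => (cInv_eq_none R).1 δ.2) (fun δ => rfl) Y)

end

section
variable {A : Type u} {G : Type v} [CommRing A] [StarRing A] [Group G]
  {V : Type w} [MulAction G V] {χ : G →* ℤˣ} {ε : ℤ} {p q : V}

theorem conj_eq (χ : G →* ℤˣ) {I J : Type} (M : Matrix I J (MonoidAlgebra A G)) :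
    UF.conj χ M = adj (barStr χ) M := rfl

theorem stablyHyperbolic_of_shyp {I : Type} [Fintype I] [DecidableEq I]
    {θ : Matrix I I (MonoidAlgebra A G)} (h : SHyp (barStr χ) ε θ) :
    StablyHyperbolic χ ε θ := by
  obtain ⟨m, k, U, V, h1, h2, y, hy⟩ := h
  exact ⟨m, k, U, V, y, h1, h2, hy⟩

theorem shyp_neg_right (hε : ε = 1 ∨ ε = -1) {β : BarStr A G} {n : Type} [Fintype n]
    [DecidableEq n] {a b d : Matrix n n (MonoidAlgebra A G)}
    (h : SHyp β ε (Matrix.fromBlocks a b 0 d)) : SHyp β ε (Matrix.fromBlocks a (-b) 0 d) := by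
  refine SHyp.of_iso hε ⟨Matrix.fromBlocks 1 0 0 (-1), Matrix.fromBlocks 1 0 0 (-1), ?_, ?_, 0, ?_⟩ h
  · rw [Matrix.fromBlocks_multiply, ← Matrix.fromBlocks_one]
    simp
  · rw [Matrix.fromBlocks_multiply, ← Matrix.fromBlocks_one]
    simp
  · rw [adj_fromBlocks, adj_zero, adj_zero, adj_neg, adj_one, Matrix.fromBlocks_multiply,
      Matrix.fromBlocks_multiply]
    simp

/-- reduction of the final theorem to the vanishing over the systems of reversed segments -/
theorem main_rev [IsDomain A] {Γ : SimpleGraph V} (hΓ : Γ.IsTree)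
    (hadj : ∀ (g : G) (x y : V), Γ.Adj x y → Γ.Adj (g • x) (g • y)) (hpq : Γ.Adj p q)
    (hinv : ∀ g : G, ¬ (g • p = q ∧ g • q = p))
    (h2p : ∀ g : G, g • p = p → g * g = 1 → g = 1)
    (h2q : ∀ g : G, g • q = q → g * g = 1 → g = 1) (k : ℕ) (hk : 1 ≤ k)
    (hε : ε = 1 ∨ ε = -1)
    (hmain : ∀ (Ω : Type v) (E : BSys Ω G), E.Geo → E.NoInv →
      (∀ ω, ∃ (x y : V) (W : Γ.Walk x y), W.IsPath ∧ W.length = 2 * k ∧
        (∀ e ∈ W.edges, ∃ g : G, e = s(g • p, g • q)) ∧ (∃ g : G, g • x = y ∧ g • y = x) ∧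
        E.F ω ≤ MulAction.stabilizer G x ⊓ MulAction.stabilizer G y) →
      ∀ X : BF E (barStr (A := A) χ) ε, X.SMetab)
    {n : Type} [Fintype n] [DecidableEq n] (x : QForm A χ ε p q n) :
    StablyHyperbolic χ ε (induced x) := by
  classical
  have hεε : ε * ε = 1 := by rcases hε with h | h <;> simp [h]
  have hsymm : ∀ {k : Type} (M : Matrix k k (MonoidAlgebra A G)),
      adj (barStr χ) (M + ε • adj (barStr χ) M) = ε • (M + ε • adj (barStr χ) M) := by
    intro k M
    rw [adj_add, adj_zsmul, adj_adj, smul_add, smul_smul, hεε, one_smul, add_comm]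
  have hgeo := treeSys_geo hΓ hadj hpq hinv
  have hno : ∀ (σ : Bool) (g : G), g ∈ (treeSys p q : EdgeSys G).S σ (!σ) → g⁻¹ ≠ g := by
    intro σ g hg h
    cases σ
    · exact (hfree1 h2q g hg).2 h
    · exact (hfree2 h2p g hg).2 h
  have hx : SForm (treeSys (G := G) p q) (barStr χ) ε x.β (x.α + ε • UF.conj χ x.α)
      (x.γ + ε • UF.conj χ x.γ) := by
    refine ⟨x.suppβ, ?_, ?_, hsymm _, hsymm _, x.nil⟩
    · exact supp_sym (σ := false) _ χ ε x.suppα
    · exact supp_sym (σ := true) _ χ ε x.suppγ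
  have hbg : (biSys (treeSys (G := G) p q)).Geo := biSys_geo hgeo
  have hbn : (biSys (treeSys (G := G) p q)).NoInv := biSys_noInv hno
  let X : BF (biSys (treeSys (G := G) p q)) (barStr (A := A) χ) ε :=
    { K := n ⊕ n, t := rbT n n, M := _, is := isBF_of_sform hε hx }
  have hWT : WT X := by
    refine reduce_iterZ hε (fun Ω E X => WT X) (fun Ω E X hN h => wt_of_flip hN hε h)
      (fun Ω Δ E R X X' u hN hu h1 h2 h => wt_move hN hε (red_noInv R hN) (red_hom R) X X' u hu
        h1 h2 h) (treeSys p q) (k - 1) 0 _ _ _ _ _ _ _ hbg hbn (len_tree hΓ hadj hpq hinv)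
      (spl_bi _) (seg_bi _) ?_ X
    intro Ω' E' l' r' σ' τ' h' g1 g2 g3 g4 g5 Δ R Y
    refine mix_red g1 g2 g3 hε h' g4 R ?_ Y
    intro Θ E'' π e1 e2 e3 e4 Y'
    refine hmain Θ E'' e1 e2 (fun θ => ?_) Y'
    obtain ⟨x', y', W, hW1, hW2, hW3, hW4, hle⟩ := seg_rev hΓ hadj hpq hinv g5 R (π θ) (e3 θ)
    refine ⟨x', y', W, hW1, by omega, hW3, hW4, ?_⟩
    rw [e4]
    exact hle
  have hHon : Halves X (fun b => if b then Matrix.fromBlocks (ε • x.α) x.β 0 x.γ
      else hyp A G n) := by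
    refine ⟨?_, ?_⟩
    · rintro (_ | _)
      · show OnS (biSys (treeSys (G := G) p q)) false (rbT n n) (rbT n n)
          (Matrix.fromBlocks 0 1 0 0)
        intro i j g hg
        rcases i with i | i <;> rcases j with j | j
        · exact absurd rfl hg
        · have hg' : ((1 : Matrix n n (MonoidAlgebra A G)) i j).coeff g ≠ 0 := hg
          exact ⟨OnF.one _ i j g hg', rfl⟩
        · exact absurd rfl hg
        · exact absurd rfl hg
      · show OnS (biSys (treeSys (G := G) p q)) true (rbT n n) (rbT n n)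
          (Matrix.fromBlocks (ε • x.α) x.β 0 x.γ)
        intro i j g hg
        rcases i with i | i <;> rcases j with j | j
        · have hg' : ((ε • x.α) i j).coeff g ≠ 0 := hg
          exact x.suppα i j g (OnAux.supp_zsmul hg')
        · exact x.suppβ i j g hg
        · exact absurd rfl hg
        · exact x.suppγ i j g hg
    · rintro (_ | _)
      · show rbM (barStr χ) ε (ε • (x.α + ε • UF.conj χ x.α)) x.β (x.γ + ε • UF.conj χ x.γ) 1 false =
          hyp A G n + ε • adj (barStr χ) (hyp A G n)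
        unfold hyp
        rw [adj_fromBlocks, Matrix.fromBlocks_smul, Matrix.fromBlocks_add]
        simp [rbM, adj_zero]
      · show rbM (barStr χ) ε (ε • (x.α + ε • UF.conj χ x.α)) x.β (x.γ + ε • UF.conj χ x.γ) 1 true =
          Matrix.fromBlocks (ε • x.α) x.β 0 x.γ +
            ε • adj (barStr χ) (Matrix.fromBlocks (ε • x.α) x.β 0 x.γ)
        rw [adj_fromBlocks, Matrix.fromBlocks_smul, Matrix.fromBlocks_add, adj_zsmul, conj_eq,
          conj_eq]
        simp only [rbM, adj_zero, smul_zero, add_zero, zero_add, smul_add]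
  have h1 : SHyp (barStr (A := A) χ) ε
      (Matrix.fromBlocks (Matrix.fromBlocks (ε • x.α) x.β 0 x.γ) 1 0 (hyp A G n)) :=
    wt_all hbn hε hWT hHon
  have h2 := SHyp.cancel hε (SHyp.of_iso hε ((iso_schur hε _).symm hε) h1) (shyp_hyp hε)
  have h3 : Matrix.fromBlocks (ε • x.α) x.β 0 x.γ - hyp A G n =
      Matrix.fromBlocks (ε • x.α) (x.β - 1) 0 x.γ := by
    unfold hyp
    rw [sub_eq_add_neg, Matrix.fromBlocks_neg, Matrix.fromBlocks_add]
    simp [sub_eq_add_neg]
  rw [h3] at h2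
  have h4 := shyp_neg_right hε h2
  rw [neg_sub] at h4
  exact stablyHyperbolic_of_shyp h4

/-- the final theorem -/
theorem unilR {A : Type u} [CommRing A] [IsDomain A] [IsNoetherianRing A] [StarRing A]
    (hA : AR A) {g : ℕ} (hg : FL A g) : UNilVanishesR.{u, v, w} A := by
  intro G _ V _ Γ hΓ hadj p q hpq hinv h2p h2q k hk hF χ ε hε n _ _ x
  refine main_rev hΓ hadj hpq hinv h2p h2q k hk hε ?_ x
  intro Ω E hGeo hNo hst X
  refine main_vt hA hg hGeo hNo hε (fun ω H hH hfg => ?_) X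
  obtain ⟨u, v, W, hW1, hW2, hW3, hW4, hle⟩ := hst ω
  exact hF u v W hW1 hW2 hW3 hW4 H (hH.trans hle) hfg

end

end Pool.Agent.MIX
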