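import Mathlib
import Pool.Agent.Lib.UP.BaseV
import Pool.Agent.Lib.MIX.Final

/-!
# The base rings: hereditary domains, factorial domains of global dimension at most two, `ℤ` and
`ℤ[T;T⁻¹]`
-/

set_option autoImplicit false

open MonoidAlgebra
open scoped LaurentPolynomial

namespace Pool.Agent.MIX

open Pool.Agent.UP Pool.Agent.UP25 Pool.Agent.Lib.MP_98022b_UM.UF

universe u v w

/-- the vanishing property for hereditary domains -/
theorem unilR_hereditary {A : Type u} [CommRing A] [IsDomain A] [IsNoetherianRing A] [StarRing A]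
    (hA : ∀ (k l : ℕ) (f : (Fin k → A) →ₗ[A] (Fin l → A)),
      Module.Projective A (LinearMap.range f)) : UNilVanishesR.{u, v, w} A :=
  unilR (ar_base (fl_hereditary hA)) (fl_hereditary hA)

/-- the vanishing property for factorial domains of global dimension at most two -/
theorem unilR_factorial {A : Type u} [CommRing A] [IsDomain A] [IsNoetherianRing A]
    [UniqueFactorizationMonoid A] [StarRing A]
    (hA : ∀ (k l : ℕ) (f : (Fin k → A) →ₗ[A] (Fin l → A)),
      Module.Projective A (LinearMap.ker f)) : UNilVanishesR.{u, v, w} A :=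
  unilR (ar_ufd (fl_of_ker hA)) (fl_of_ker hA)

/-- the vanishing property for `ℤ` -/
theorem unilR_integers : @UNilVanishesR.{0, v, w} ℤ _ starRingOfComm :=
  let _ : StarRing ℤ := starRingOfComm
  unilR (ar_base fl_pid) fl_pid

/-- the vanishing property for `ℤ[T;T⁻¹]` -/
theorem unilR_laurent : @UNilVanishesR.{0, v, w} ℤ[T;T⁻¹] _ laurentStar := by
  let _ : StarRing ℤ[T;T⁻¹] := laurentStar
  let _ : StarRing ℤ := starRingOfComm
  obtain ⟨h1, h2, h3⟩ := polyZ_facts (A := ℤ) (ar_base fl_pid) fl_pid 1 (Multiplicative ℤ) polyZ_int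
  let e : MonoidAlgebra ℤ (Multiplicative ℤ) ≃+* ℤ[T;T⁻¹] :=
    (AddMonoidAlgebra.toMultiplicative ℤ ℤ).symm
  have hN : IsNoetherianRing ℤ[T;T⁻¹] := isNoetherianRing_of_ringEquiv _ e
  let _ : StarRing (MonoidAlgebra ℤ (Multiplicative ℤ)) := starMA ℤ (Multiplicative ℤ)
  exact unilR (AR.equiv e h2) (FL.equiv e h3)

end Pool.Agent.MIX
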