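import Mathlib
import Pool.Agent.Lib.MIX.Final

/-! The last step, for all commutative rings: from `WT` of the forms over the two-sided system of
the edge to the induced quadratic form over `A[G]`. -/

set_option autoImplicit false

open MonoidAlgebra Pool.Agent.Lib.MP_98022b_UN Pool.Agent.Lib.MP_98022b_UM
open Pool.Agent.Lib.MP_98022b_UM.UF

namespace Pool.Agent.MIX

universe u v w

section
variable {A : Type u} {G : Type v} [CommRing A] [StarRing A] [Group G]
  {V : Type w} [MulAction G V] {χ : G →* ℤˣ} {ε : ℤ} {p q : V}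

theorem tree_noInv (h2p : ∀ g : G, g • p = p → g * g = 1 → g = 1)
    (h2q : ∀ g : G, g • q = q → g * g = 1 → g = 1) (σ : Bool) (g : G)
    (hg : g ∈ (treeSys p q : EdgeSys G).S σ (!σ)) : g⁻¹ ≠ g := by
  intro h
  cases σ
  · have hg' : g • q = q ∧ g • p ≠ p := hg
    have : g = 1 := h2q g hg'.1 (by nth_rw 1 [← h]; simp)
    exact hg'.2 (by simp [this])
  · have hg' : g • p = p ∧ g • q ≠ q := hg
    have : g = 1 := h2p g hg'.1 (by nth_rw 1 [← h]; simp)
    exact hg'.2 (by simp [this])

theorem supp_sym' {m : Type} {σ : Bool} (E : EdgeSys G) (χ : G →* ℤˣ) (ε : ℤ)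
    {M : Matrix m m (MonoidAlgebra A G)} (hM : SuppIn (E.S σ (!σ)) M) :
    SuppIn (E.S σ (!σ)) (M + ε • UF.conj χ M) := by
  have h1 : OnT E (fun _ : m => σ) (fun _ : m => !σ) 1 M := fun i j g hg =>
    (P_one E).2 (hM i j g hg)
  have h2 : OnT E (fun _ : m => σ) (fun _ : m => !σ) 1 (UF.conj χ M) := by
    have h3 : OnT E (fun _ : m => !(!σ)) (fun _ : m => !σ) 1 M := by simpa using h1
    have := OnT.adj' (E := E) (s := fun _ : m => !σ) (t := fun _ : m => σ) (barStr χ) h3
    exact this
  have h4 := h1.add (h2.zsmul ε)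
  intro i j g hg
  exact (P_one E).1 (h4 i j g hg)

/-- the induced form is stably hyperbolic if all forms over the two-sided system are -/
theorem stablyHyperbolic_of_wt (h2p : ∀ g : G, g • p = p → g * g = 1 → g = 1)
    (h2q : ∀ g : G, g • q = q → g * g = 1 → g = 1) (hε : ε = 1 ∨ ε = -1)
    {n : Type} [Fintype n] [DecidableEq n] (x : QForm A χ ε p q n)
    (h : ∀ X : BF (biSys (treeSys (G := G) p q)) (barStr (A := A) χ) ε, WT X) :
    StablyHyperbolic χ ε (induced x) := by
  classical
  have hεε : ε * ε = 1 := by rcases hε with h | h <;> simp [h]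
  have hsymm : ∀ {k : Type} (M : Matrix k k (MonoidAlgebra A G)),
      adj (barStr χ) (M + ε • adj (barStr χ) M) = ε • (M + ε • adj (barStr χ) M) := by
    intro k M
    rw [adj_add, adj_zsmul, adj_adj, smul_add, smul_smul, hεε, one_smul, add_comm]
  have hno := tree_noInv h2p h2q
  have hx : SForm (treeSys (G := G) p q) (barStr χ) ε x.β (x.α + ε • UF.conj χ x.α)
      (x.γ + ε • UF.conj χ x.γ) := by
    refine ⟨x.suppβ, ?_, ?_, hsymm _, hsymm _, x.nil⟩
    · exact supp_sym' (σ := false) _ χ ε x.suppα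
    · exact supp_sym' (σ := true) _ χ ε x.suppγ
  have hbn : (biSys (treeSys (G := G) p q)).NoInv := biSys_noInv hno
  let X : BF (biSys (treeSys (G := G) p q)) (barStr (A := A) χ) ε :=
    { K := n ⊕ n, t := rbT n n, M := _, is := isBF_of_sform hε hx }
  have hWT : WT X := h X
  have hHon : Halves X (fun b => if b then Matrix.fromBlocks (ε • x.α) x.β 0 x.γ
      else hyp A G n) := by
    refine ⟨?_, ?_⟩
    · rintro (_ | _)
      · show OnS (biSys (treeSys (G := G) p q)) false (rbT n n) (rbT n n)
          (Matrix.fromBlocks 0 1 0 0)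
        intro i j g hg
        rcases i with i | i <;> rcases j with j | j
        · exact absurd rfl hg
        · have hg' : ((1 : Matrix n n (MonoidAlgebra A G)) i j).coeff g ≠ 0 := hg
          exact ⟨OnF.one _ i j g hg', rfl⟩
        · exact absurd rfl hg
        · exact absurd rfl hg
      · show OnS (biSys (treeSys (G := G) p q)) true (rbT n n) (rbT n n)
          (Matrix.fromBlocks (ε • x.α) x.β 0 x.γ)
        intro i j g hg
        rcases i with i | i <;> rcases j with j | j
        · have hg' : ((ε • x.α) i j).coeff g ≠ 0 := hg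
          exact x.suppα i j g (OnAux.supp_zsmul hg')
        · exact x.suppβ i j g hg
        · exact absurd rfl hg
        · exact x.suppγ i j g hg
    · rintro (_ | _)
      · show rbM (barStr χ) ε (ε • (x.α + ε • UF.conj χ x.α)) x.β (x.γ + ε • UF.conj χ x.γ) 1 false =
          hyp A G n + ε • adj (barStr χ) (hyp A G n)
        unfold hyp
        rw [adj_fromBlocks, Matrix.fromBlocks_smul, Matrix.fromBlocks_add]
        simp [rbM, adj_zero]
      · show rbM (barStr χ) ε (ε • (x.α + ε • UF.conj χ x.α)) x.β (x.γ + ε • UF.conj χ x.γ) 1 true =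
          Matrix.fromBlocks (ε • x.α) x.β 0 x.γ +
            ε • adj (barStr χ) (Matrix.fromBlocks (ε • x.α) x.β 0 x.γ)
        rw [adj_fromBlocks, Matrix.fromBlocks_smul, Matrix.fromBlocks_add, adj_zsmul, conj_eq,
          conj_eq]
        simp only [rbM, adj_zero, smul_zero, add_zero, zero_add, smul_add]
  have h1 : SHyp (barStr (A := A) χ) ε
      (Matrix.fromBlocks (Matrix.fromBlocks (ε • x.α) x.β 0 x.γ) 1 0 (hyp A G n)) :=
    wt_all hbn hε hWT hHon
  have h2 := SHyp.cancel hε (SHyp.of_iso hε ((iso_schur hε _).symm hε) h1) (shyp_hyp hε)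
  have h3 : Matrix.fromBlocks (ε • x.α) x.β 0 x.γ - hyp A G n =
      Matrix.fromBlocks (ε • x.α) (x.β - 1) 0 x.γ := by
    unfold hyp
    rw [sub_eq_add_neg, Matrix.fromBlocks_neg, Matrix.fromBlocks_add]
    simp [sub_eq_add_neg]
  rw [h3] at h2
  have h4 := shyp_neg_right hε h2
  rw [neg_sub] at h4
  exact stablyHyperbolic_of_shyp h4


end

end Pool.Agent.MIX
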