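import Mathlib
import Pool.Agent.Lib.MIX.Final

/-!
# Reversible lines: subsystems, the mix theorem for the used labels
-/

set_option autoImplicit false

open MonoidAlgebra Pool.Agent.Lib.MP_98022b_UN Pool.Agent.Lib.MP_98022b_UM

namespace Pool.Agent.MIX

universe u v w w'

section
variable {Ω : Type w} {G : Type v} [Group G]

/-- the full subsystem of the objects in `S` -/
def subSys (E : BSys Ω G) (S : Set Ω) : BSys {ω // ω ∈ S} G where
  F := fun ω => E.F ω.1
  S := fun b ω ω' => E.S b ω.1 ω'.1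
  left' := E.left'
  inv' := E.inv'

variable {E : BSys Ω G} {S : Set Ω}

theorem sub_hom : (subSys E S).Hom E Subtype.val := ⟨fun h => h, fun h => h⟩

theorem sub_geo (hE : E.Geo) : (subSys E S).Geo := by
  intro m b ω ω' ρ ρ' s s' t t' hs ht hs' ht' e
  obtain ⟨h1, h2⟩ := hE m b ω.1 ω'.1 ρ.1 ρ'.1 s s' t t' hs (sub_hom.W ht) hs' (sub_hom.W ht') e
  exact ⟨Subtype.ext h1, h2⟩

theorem sub_noInv (hE : E.NoInv) : (subSys E S).NoInv := fun b ω g hg => hE b ω.1 g hg

theorem sub_seg {E₀ : EdgeSys G} {L a b : ℕ} {l r : Ω → G} {σ τ : Ω → Bool}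
    (h : Seg E₀ E L a b l r σ τ) :
    Seg E₀ (subSys E S) L a b (fun ω => l ω.1) (fun ω => r ω.1) (fun ω => σ ω.1)
      (fun ω => τ ω.1) :=
  ⟨fun h' => h.Fl h', fun h' => h.Fr h', fun ω => h.path ω.1, fun h' => h.tr h',
    fun h' => h.fa h'⟩

end

section
variable {A : Type u} {Ω : Type w} {G : Type v} [CommRing A] [Group G] {E : BSys Ω G}
  {β : BarStr A G} {ε : ℤ}

/-- a form as a form over the subsystem of its labels -/
def resBF (X : BF E β ε) : BF (subSys E (Set.range X.t)) β ε where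
  K := X.K
  t := fun k => ⟨X.t k, k, rfl⟩
  M := X.M
  is := ⟨X.is.on, X.is.sym, X.is.nil⟩

theorem wt_of_res {X : BF E β ε} (h : WT (resBF X)) : WT X := by
  obtain ⟨H, hH, h'⟩ := h
  exact ⟨H, ⟨hH.on, hH.eq⟩, h'⟩

end

section
variable {A : Type u} {Ω : Type w} {Δ : Type w'} {G : Type v} [CommRing A] [Group G]
  {E : BSys Ω G} {β : BarStr A G} {ε : ℤ}

/-- the mix theorem for a form over a reduced system: only the self-dual labels of the form
matter -/
theorem mix_used (hG : E.Geo) (hN : E.NoInv) (hL : Len E) (hε : ε = 1 ∨ ε = -1) (h : Ω → Bool)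
    (hh : Spl E false h) (R : Reps E Δ) (X : BF (redSys R) β ε) (P : Subgroup G → Prop)
    (hm : ∀ (Θ : Type w') (E' : BSys Θ G), E'.Geo → E'.NoInv → (∀ θ, P (E'.F θ)) →
      ∀ Y : BF E' β ε, Y.SMetab)
    (hP : ∀ δ ∈ Set.range X.t, R.inv δ = δ → P ((redSys R).F δ)) : WT X := by
  have hG' : (subSys (redSys R) (Set.range X.t)).Geo := sub_geo (red_geo R hG)
  have hN' : (subSys (redSys R) (Set.range X.t)).NoInv := sub_noInv (red_noInv R hN)
  have hL' : Len (subSys (redSys R) (Set.range X.t)) := len_hom sub_hom (len_red hL R)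
  refine wt_of_res (mix hG' hN' hL' hε (fun δ => cInv R δ.1) ?_ (fun δ => h (R.src δ.1))
    (spl_hom sub_hom (spl_red hh R)) ?_ (resBF X))
  · intro δ δ' g hg
    have : δ'.1 = R.inv δ.1 := hg.1
    show cInv R δ'.1 = (cInv R δ.1).map not
    rw [this, cInv_inv]
  · intro Y
    have hNh := hat_noInv hG' hN' (fun δ : {δ // δ ∈ Set.range X.t} => cInv R δ.1 ≠ none)
    refine wt_of_smetab hNh hε (hm _ _ (hat_geo hG' hL' _) hNh (fun δ => ?_) Y)
    exact hP δ.1.1 δ.1.2 ((cInv_eq_none R).1 δ.2)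

end

end Pool.Agent.MIX
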