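import Mathlib
import Pool.Agent.Lib.MIX.LineSub
import Pool.Agent.Lib.MIX.LineDefs

/-!
# Reversible lines: the iterated reduction of a form which is not stably hyperbolic
-/

set_option autoImplicit false

open MonoidAlgebra Pool.Agent.Lib.MP_98022b_UN Pool.Agent.Lib.MP_98022b_UM CategoryTheory

namespace Pool.Agent.MIX

universe u v w w'

/-- König's lemma for sequences of maps of nonempty finite sets -/
theorem konig_seq {U : ℕ → Type v} [∀ n, Finite (U n)] [∀ n, Nonempty (U n)]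
    (f : ∀ n, U (n + 1) → U n) : ∃ x : ∀ n, U n, ∀ n, f n (x (n + 1)) = x n := by
  let F : ℕᵒᵖ ⥤ Type v := Functor.ofOpSequence (X := U) (fun n => TypeCat.ofHom (f n))
  have : ∀ j : ℕᵒᵖ, Finite (F.obj j) := fun j => inferInstanceAs (Finite (U j.unop))
  have : ∀ j : ℕᵒᵖ, Nonempty (F.obj j) := fun j => inferInstanceAs (Nonempty (U j.unop))
  obtain ⟨s, hs⟩ := nonempty_sections_of_finite_inverse_system F
  refine ⟨fun n => s (Opposite.op n), fun n => ?_⟩
  have h1 := hs (homOfLE (Nat.le_add_right n 1)).op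
  have h2 : F.map (homOfLE (Nat.le_add_right n 1)).op = TypeCat.ofHom (f n) :=
    Functor.ofOpSequence_map_homOfLE_succ _ n
  rw [h2] at h1
  exact h1

section
variable {A : Type u} {G : Type v} [CommRing A] [Group G]

/-- a form which is not stably hyperbolic, over a system of segments -/
structure Stage (E₀ : EdgeSys G) (β : BarStr A G) (ε : ℤ) where
  Ω : Type v
  E : BSys Ω G
  L : ℕ
  l : Ω → G
  r : Ω → G
  σ : Ω → Bool
  τ : Ω → Bool
  h : Ω → Bool
  geo : E.Geo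
  noInv : E.NoInv
  len : Len E
  spl : Spl E false h
  seg : Seg E₀ E L 1 0 l r σ τ
  X : BF E β ε
  not : ¬ WT X

variable {E₀ : EdgeSys G} {β : BarStr A G} {ε : ℤ}

/-- two reductions -/
structure Step (s : Stage E₀ β ε) where
  Δ : Type v
  R : Reps s.E Δ
  X : BF (redSys R) β ε
  not : ¬ WT X
  Δ' : Type v
  R' : Reps (subSys (redSys R) (Set.range X.t)).flip Δ'
  X' : BF (redSys R') β ε
  not' : ¬ WT X'

theorem exists_step (hε : ε = 1 ∨ ε = -1) (s : Stage E₀ β ε) : Nonempty (Step s) := by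
  obtain ⟨Δ, ⟨R⟩⟩ := exists_reps s.E
  obtain ⟨X, u, h1, h2, h3⟩ := exists_red s.noInv hε R s.X
  have hN := red_noInv R s.noInv
  have hX : ¬ WT X := fun h => s.not (wt_move s.noInv hε hN (red_hom R) s.X X u h1 h2 h3 h)
  have hN1 : (subSys (redSys R) (Set.range X.t)).NoInv := sub_noInv hN
  obtain ⟨Δ', ⟨R'⟩⟩ := exists_reps (subSys (redSys R) (Set.range X.t)).flip
  obtain ⟨X', u', h1', h2', h3'⟩ := exists_red hN1.flip hε R' (resBF X).flip
  refine ⟨⟨Δ, R, X, hX, Δ', R', X', fun h => hX (wt_of_res (wt_of_flip hN1 hε ?_))⟩⟩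
  exact wt_move hN1.flip hε (red_noInv R' hN1.flip) (red_hom R') _ X' u' h1' h2' h3' h

/-- the next stage -/
noncomputable def Step.next {s : Stage E₀ β ε} (hε : ε = 1 ∨ ε = -1) (st : Step s) :
    Stage E₀ β ε where
  Ω := {δ // δ ∈ Set.range st.X'.t}
  E := (subSys (redSys st.R') (Set.range st.X'.t)).flip
  L := s.L + 1 + 1
  l := fun ω => st.R'.d ω.1 * (st.R.d (st.R'.src (st.R'.inv ω.1)).1 *
    s.l (st.R.src (st.R.inv (st.R'.src (st.R'.inv ω.1)).1)))
  r := fun ω => st.R.d (st.R'.src ω.1).1 * s.l (st.R.src (st.R.inv (st.R'.src ω.1).1))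
  σ := fun ω => !(!(!(!(s.σ (st.R.src (st.R.inv (st.R'.src (st.R'.inv ω.1)).1))))))
  τ := fun ω => !(!(!(s.σ (st.R.src (st.R.inv (st.R'.src ω.1).1)))))
  h := fun ω => s.h (st.R.src (st.R'.src ω.1).1)
  geo := (sub_geo (red_geo st.R' (sub_geo (red_geo st.R s.geo)).flip)).flip
  noInv := (sub_noInv (red_noInv st.R' (sub_noInv (red_noInv st.R s.noInv)).flip)).flip
  len := len_flip (len_hom sub_hom (len_red (len_flip (len_hom sub_hom (len_red s.len st.R)))
    st.R'))
  spl := spl_flip (spl_hom sub_hom (spl_red (spl_flip (spl_hom sub_hom (spl_red s.spl st.R)))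
    st.R'))
  seg := (sub_seg ((sub_seg (s.seg.red st.R)).flip.red st.R')).flip
  X := (resBF st.X').flip
  not := fun h => st.not' (wt_of_res (wt_of_flip
    (sub_noInv (red_noInv st.R' (sub_noInv (red_noInv st.R s.noInv)).flip)) hε h))

/-- the self-dual labels whose group does not satisfy `P` -/
abbrev Good (P : Subgroup G → Prop) {s : Stage E₀ β ε} (st : Step s) : Type v :=
  {δ : {δ // δ ∈ Set.range st.X.t} // st.R.inv δ.1 = δ.1 ∧ ¬ P ((redSys st.R).F δ.1)}

theorem good_finite (P : Subgroup G → Prop) {s : Stage E₀ β ε} (st : Step s) :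
    Finite (Good P st) := by
  have : Finite {δ // δ ∈ Set.range st.X.t} := Set.finite_range st.X.t
  infer_instance

theorem good_nonempty (hε : ε = 1 ∨ ε = -1) (P : Subgroup G → Prop)
    (hm : ∀ (Θ : Type v) (E' : BSys Θ G), E'.Geo → E'.NoInv → (∀ θ, P (E'.F θ)) →
      ∀ Y : BF E' β ε, Y.SMetab) {s : Stage E₀ β ε} (st : Step s) : Nonempty (Good P st) := by
  by_contra hne
  refine st.not (mix_used s.geo s.noInv s.len hε s.h s.spl st.R st.X P hm fun δ hδ h1 => ?_)
  by_contra h2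
  exact hne ⟨⟨⟨δ, hδ⟩, h1, h2⟩⟩

/-- the label below a self-dual label is self-dual -/
theorem next_key (hε : ε = 1 ∨ ε = -1) {s : Stage E₀ β ε} (st : Step s)
    (st1 : Step (st.next hε)) (δ : st1.Δ) (hδ : st1.R.inv δ = δ) :
    st.R.inv (st.R'.src (st1.R.src δ).1).1 = (st.R'.src (st1.R.src δ).1).1 ∧
    ∃ x ∈ redF st.R (st.R'.src (st1.R.src δ).1).1,
      st1.R.d δ = x * st.R.d (st.R'.src (st1.R.src δ).1).1 := by
  have h1 := st1.R.d_mem δ
  rw [hδ] at h1
  obtain ⟨h2, x, hx, h3⟩ : (st.R'.src (st1.R.src δ).1).1 =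
      st.R.inv (st.R'.src (st1.R.src δ).1).1 ∧
    ∃ x ∈ redF st.R (st.R'.src (st1.R.src δ).1).1,
      st1.R.d δ = x * st.R.d (st.R'.src (st1.R.src δ).1).1 := h1
  exact ⟨h2.symm, x, hx, h3⟩

theorem next_F (hε : ε = 1 ∨ ε = -1) {s : Stage E₀ β ε} (st : Step s)
    (st1 : Step (st.next hε)) (δ : st1.Δ) :
    (redSys st1.R).F δ ≤ (redSys st.R).F (st.R'.src (st1.R.src δ).1).1 := by
  intro g hg
  have h1 : g ∈ (st.next hε).E.F (st1.R.src δ) := ((mem_redF st1.R δ g).1 hg).1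
  have h2 : g ∈ redF st.R' (st1.R.src δ).1 := h1
  exact ((mem_redF st.R' _ g).1 h2).1

/-- the map of the self-dual labels -/
def goodMap (hε : ε = 1 ∨ ε = -1) {P : Subgroup G → Prop} (hP : ∀ H K, H ≤ K → P K → P H)
    {s : Stage E₀ β ε} (st : Step s) (st1 : Step (st.next hε)) (δ : Good P st1) : Good P st :=
  ⟨st.R'.src (st1.R.src δ.1.1).1, (next_key hε st st1 δ.1.1 δ.2.1).1,
    fun h => δ.2.2 (hP _ _ (next_F hε st st1 δ.1.1) h)⟩

/-- the stages -/
noncomputable def stg (hε : ε = 1 ∨ ε = -1) (ch : ∀ s : Stage E₀ β ε, Step s)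
    (s : Stage E₀ β ε) (n : ℕ) : Stage E₀ β ε :=
  Nat.rec s (fun _ s' => (ch s').next hε) n

theorem exists_good (hε : ε = 1 ∨ ε = -1) {P : Subgroup G → Prop}
    (hP : ∀ H K, H ≤ K → P K → P H)
    (hm : ∀ (Θ : Type v) (E' : BSys Θ G), E'.Geo → E'.NoInv → (∀ θ, P (E'.F θ)) →
      ∀ Y : BF E' β ε, Y.SMetab) (ch : ∀ s : Stage E₀ β ε, Step s) (s : Stage E₀ β ε) :
    ∃ x : ∀ n, Good P (ch (stg hε ch s n)), ∀ n,
      goodMap hε hP (ch (stg hε ch s n)) (ch (stg hε ch s (n + 1))) (x (n + 1)) = x n := by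
  have : ∀ n, Finite (Good P (ch (stg hε ch s n))) := fun n => good_finite P _
  have : ∀ n, Nonempty (Good P (ch (stg hε ch s n))) := fun n => good_nonempty hε P hm _
  exact konig_seq (U := fun n => Good P (ch (stg hε ch s n)))
    (fun n => goodMap hε hP (ch (stg hε ch s n)) (ch (stg hε ch s (n + 1))))

end

end Pool.Agent.MIX
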