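import Mathlib
import Pool.Agent.Lib.MIX.LineStage

/-!
# Reversible lines: the geometry of a compatible sequence of self-dual labels
-/

set_option autoImplicit false

open MonoidAlgebra Pool.Agent.Lib.MP_98022b_UN Pool.Agent.Lib.MP_98022b_UM

namespace Pool.Agent.MIX

universe u v w w'

section
variable {A : Type u} {G : Type v} [CommRing A] [Group G] {V : Type w} [MulAction G V]
  {p q : V} {β : BarStr A G} {ε : ℤ}

theorem Tree_a_not (p q : V) (b : Bool) : Tree_a p q (!b) = Tree_b p q b := by cases b <;> rfl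

theorem Tree_b_not (p q : V) (b : Bool) : Tree_b p q (!b) = Tree_a p q b := by cases b <;> rfl

theorem Tree_edge (g : G) (p q : V) (b : Bool) :
    s(g • Tree_b p q b, g • Tree_a p q b) = s(g • p, g • q) := by
  cases b
  · exact Sym2.eq_swap
  · rfl

theorem Tree_adj {Γ : SimpleGraph V} {p q : V} (hpq : Γ.Adj p q) (b : Bool) :
    Γ.Adj (Tree_b p q b) (Tree_a p q b) := by
  cases b
  · exact hpq.symm
  · exact hpq

/-- the left end of the segment of a label -/
def ptX {s : Stage (treeSys p q : EdgeSys G) β ε} (st : Step s) (δ : st.Δ) : V :=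
  s.l (st.R.src δ) • Tree_a p q (s.σ (st.R.src δ))

/-- the right end of the segment of a label -/
def ptY {s : Stage (treeSys p q : EdgeSys G) β ε} (st : Step s) (δ : st.Δ) : V :=
  st.R.d δ • ptX st δ

theorem pt_eq {s : Stage (treeSys p q : EdgeSys G) β ε} (st : Step s) (δ : st.Δ)
    (hδ : st.R.inv δ = δ) : (st.R.d δ * s.l (st.R.src (st.R.inv δ))) •
      Tree_b p q (!(s.σ (st.R.src (st.R.inv δ)))) = ptY st δ := by
  rw [hδ, Tree_b_not, mul_smul]
  rfl

theorem pt_F {Γ : SimpleGraph V} (hΓ : Γ.IsTree)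
    (hadj : ∀ (g : G) (x y : V), Γ.Adj x y → Γ.Adj (g • x) (g • y))
    (hpq : Γ.Adj p q) (hinv : ∀ g : G, ¬ (g • p = q ∧ g • q = p))
    {s : Stage (treeSys p q : EdgeSys G) β ε} (st : Step s) (δ : st.Δ)
    (hδ : st.R.inv δ = δ) : redF st.R δ ≤
      MulAction.stabilizer G (ptX st δ) ⊓ MulAction.stabilizer G (ptY st δ) := by
  have h := (seg_expl hΓ hadj hpq hinv (s.seg.red st.R) δ).2
  rw [← pt_eq st δ hδ]
  exact h

theorem pt_dist {Γ : SimpleGraph V} (hΓ : Γ.IsTree)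
    (hadj : ∀ (g : G) (x y : V), Γ.Adj x y → Γ.Adj (g • x) (g • y))
    (hpq : Γ.Adj p q) (hinv : ∀ g : G, ¬ (g • p = q ∧ g • q = p))
    {s : Stage (treeSys p q : EdgeSys G) β ε} (st : Step s) (δ : st.Δ)
    (hδ : st.R.inv δ = δ) : Γ.dist (ptX st δ) (ptY st δ) = s.L + 2 := by
  have h1 := (Tree_dist hΓ hadj hpq hinv _ _ _ _ ((s.seg.red st.R).path δ)).1
  rw [← Tree_dist_smul hΓ hadj (s.l (st.R.src δ)), smul_smul, mul_inv_cancel_left,
    pt_eq st δ hδ] at h1
  exact h1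

theorem pt_rev {Γ : SimpleGraph V} (hΓ : Γ.IsTree)
    (hadj : ∀ (g : G) (x y : V), Γ.Adj x y → Γ.Adj (g • x) (g • y))
    (hpq : Γ.Adj p q) (hinv : ∀ g : G, ¬ (g • p = q ∧ g • q = p))
    {s : Stage (treeSys p q : EdgeSys G) β ε} (st : Step s) (δ : st.Δ)
    (hδ : st.R.inv δ = δ) : st.R.d δ • ptY st δ = ptX st δ := by
  have h5 : st.R.d δ * st.R.d (st.R.inv δ) ∈ redF st.R δ := d_mul_redF st.R δ
  have h6 := (Subgroup.mem_inf.1 (pt_F hΓ hadj hpq hinv st δ hδ h5)).1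
  rw [MulAction.mem_stabilizer_iff, hδ, mul_smul] at h6
  exact h6

/-- the right ends of consecutive segments are adjacent -/
theorem pt_next (hinv : ∀ g : G, ¬ (g • p = q ∧ g • q = p)) (hε : ε = 1 ∨ ε = -1)
    {s : Stage (treeSys p q : EdgeSys G) β ε} (st : Step s) (st1 : Step (st.next hε))
    (δ : st1.Δ) (hδ : st1.R.inv δ = δ) : ∃ (g : G) (b : Bool),
      ptY st (st.R'.src (st1.R.src δ).1).1 = g • Tree_b p q b ∧
      ptY st1 δ = g • Tree_a p q b := by
  have h1 := (st.next hε).seg.tr (st1.R.d_mem δ)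
  rw [hδ] at h1
  obtain ⟨h2, -⟩ := Tree_mem_S hinv ((P_one _).1 h1)
  refine ⟨st1.R.d δ * (st.next hε).l (st1.R.src δ), (st.next hε).σ (st1.R.src δ), ?_, ?_⟩
  · rw [Tree_a_not] at h2
    have h3 := congrArg (fun z => (st.next hε).r (st1.R.src δ) • z) h2
    simp only [smul_smul] at h3
    have e : (st.next hε).r (st1.R.src δ) * (((st.next hε).r (st1.R.src δ))⁻¹ * st1.R.d δ *
        (st.next hε).l (st1.R.src δ)) = st1.R.d δ * (st.next hε).l (st1.R.src δ) := by group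
    rw [e] at h3
    rw [h3, ← pt_eq st _ (next_key hε st st1 δ hδ).1]
    show _ = (st.R.d (st.R'.src (st1.R.src δ).1).1 *
      s.l (st.R.src (st.R.inv (st.R'.src (st1.R.src δ).1).1))) •
      Tree_b p q (!(!(!(s.σ (st.R.src (st.R.inv (st.R'.src (st1.R.src δ).1).1))))))
    rw [Bool.not_not]
  · rw [mul_smul]
    rfl

/-- the left end of a segment is the image of the right end under the reversal of the next
segment -/
theorem pt_back {Γ : SimpleGraph V} (hΓ : Γ.IsTree)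
    (hadj : ∀ (g : G) (x y : V), Γ.Adj x y → Γ.Adj (g • x) (g • y))
    (hpq : Γ.Adj p q) (hinv : ∀ g : G, ¬ (g • p = q ∧ g • q = p)) (hε : ε = 1 ∨ ε = -1)
    {s : Stage (treeSys p q : EdgeSys G) β ε} (st : Step s) (st1 : Step (st.next hε))
    (δ : st1.Δ) (hδ : st1.R.inv δ = δ) :
    st1.R.d δ • ptY st (st.R'.src (st1.R.src δ).1).1 = ptX st (st.R'.src (st1.R.src δ).1).1 := by
  obtain ⟨h1, x, hx, h2⟩ := next_key hε st st1 δ hδ
  have h3 := (Subgroup.mem_inf.1 (pt_F hΓ hadj hpq hinv st _ h1 hx)).1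
  rw [MulAction.mem_stabilizer_iff] at h3
  rw [h2, mul_smul, pt_rev hΓ hadj hpq hinv st _ h1, h3]

/-- the first stage -/
noncomputable def stage0 {Γ : SimpleGraph V} (hΓ : Γ.IsTree)
    (hadj : ∀ (g : G) (x y : V), Γ.Adj x y → Γ.Adj (g • x) (g • y))
    (hpq : Γ.Adj p q) (hinv : ∀ g : G, ¬ (g • p = q ∧ g • q = p))
    (hno : (biSys (treeSys p q : EdgeSys G)).NoInv)
    (X : BF (biSys (treeSys p q : EdgeSys G)) β ε) (hX : ¬ WT X) :
    Stage (treeSys p q : EdgeSys G) β ε where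
  Ω := ULift.{v} Bool
  E := biSys (treeSys p q)
  L := 0
  l := fun _ => 1
  r := fun _ => 1
  σ := fun ω => ω.down
  τ := fun ω => ω.down
  h := fun ω => ω.down
  geo := biSys_geo (treeSys_geo hΓ hadj hpq hinv)
  noInv := hno
  len := len_tree hΓ hadj hpq hinv
  spl := spl_bi _
  seg := seg_bi _
  X := X
  not := hX

theorem stage0_pt {Γ : SimpleGraph V} (hΓ : Γ.IsTree)
    (hadj : ∀ (g : G) (x y : V), Γ.Adj x y → Γ.Adj (g • x) (g • y))
    (hpq : Γ.Adj p q) (hinv : ∀ g : G, ¬ (g • p = q ∧ g • q = p))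
    (hno : (biSys (treeSys p q : EdgeSys G)).NoInv)
    (X : BF (biSys (treeSys p q : EdgeSys G)) β ε) (hX : ¬ WT X)
    (st : Step (stage0 hΓ hadj hpq hinv hno X hX)) (δ : st.Δ) (hδ : st.R.inv δ = δ) :
    ∃ b : Bool, ptX st δ = Tree_a p q b ∧ st.R.d δ • Tree_b p q b = Tree_b p q b := by
  refine ⟨(st.R.src δ).down, ?_, ?_⟩
  · show (1 : G) • Tree_a p q (st.R.src δ).down = _
    rw [one_smul]
  · have h1 := st.R.d_mem δ
    rw [hδ] at h1
    have h2 : st.R.d δ ∈ (treeSys p q : EdgeSys G).S (st.R.src δ).down (!(st.R.src δ).down) := h1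
    have h3 := (Tree_mem_S hinv h2).1
    rw [Tree_a_not] at h3
    exact h3

end

end Pool.Agent.MIX
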