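import Mathlib
import Pool.Agent.Lib.MIX.LineGeo

/-!
# UNil sees only the reversible lines

`line_main` is stated for an arbitrary predicate `P` of subgroups which passes to subgroups and
such that all forms over geodesic systems with object groups in `P` are stably metabolic.
-/

set_option autoImplicit false

open MonoidAlgebra Pool.Agent.Lib.MP_98022b_UN Pool.Agent.Lib.MP_98022b_UM
open Pool.Agent.Lib.MP_98022b_UM.UF Pool.Agent.UP25 Pool.Agent.UP

namespace Pool.Agent.MIX

universe u v w w'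

/-- a sequence with a new first term -/
def seqCons {V : Type w} (a : V) (f : ℕ → V) : ℕ → V
  | 0 => a
  | k + 1 => f k

section
variable {A : Type u} {G : Type v} [CommRing A] [Group G] {V : Type w} [MulAction G V]
  {p q : V} {β : BarStr A G} {ε : ℤ}

/-- a form which is not stably hyperbolic yields a reversible line all of whose central segments
have stabilisers which do not satisfy `P` -/
theorem line_of_not {Γ : SimpleGraph V} (hΓ : Γ.IsTree)
    (hadj : ∀ (g : G) (x y : V), Γ.Adj x y → Γ.Adj (g • x) (g • y))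
    (hpq : Γ.Adj p q) (hinv : ∀ g : G, ¬ (g • p = q ∧ g • q = p))
    (hno : (biSys (treeSys p q : EdgeSys G)).NoInv) (hε : ε = 1 ∨ ε = -1)
    (P : Subgroup G → Prop) (hP : ∀ H K, H ≤ K → P K → P H)
    (hm : ∀ (Θ : Type v) (E' : BSys Θ G), E'.Geo → E'.NoInv → (∀ θ, P (E'.F θ)) →
      ∀ Y : BF E' β ε, Y.SMetab)
    (X : BF (biSys (treeSys p q : EdgeSys G)) β ε) (hX : ¬ WT X) :
    ∃ u v : ℕ → V, ReversibleLine G Γ p q u v ∧
      ∀ k, 1 ≤ k → ¬ P (MulAction.stabilizer G (u k) ⊓ MulAction.stabilizer G (v k)) := by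
  let ch : ∀ s : Stage (treeSys p q : EdgeSys G) β ε, Step s :=
    fun s => Classical.choice (exists_step hε s)
  let s0 : Stage (treeSys p q : EdgeSys G) β ε := stage0 hΓ hadj hpq hinv hno X hX
  obtain ⟨x, hx⟩ := exists_good hε hP hm ch s0
  obtain ⟨b, hb1, hb2⟩ := stage0_pt hΓ hadj hpq hinv hno X hX (ch s0) (x 0).1.1 (x 0).2.1
  have hL : ∀ k, (stg hε ch s0 k).L = 2 * k := by
    intro k
    induction k with
    | zero => rfl
    | succ k ih =>
      show (stg hε ch s0 k).L + 1 + 1 = 2 * (k + 1)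
      rw [ih]
      ring
  have hlab : ∀ k, (x k).1.1 = ((ch (stg hε ch s0 k)).R'.src
      ((ch (stg hε ch s0 (k + 1))).R.src (x (k + 1)).1.1).1).1 := fun k =>
    (congrArg (fun z => z.1.1) (hx k)).symm
  set u : ℕ → V := seqCons (Tree_b p q b) (fun k => ptX (ch (stg hε ch s0 k)) (x k).1.1) with hu
  set v : ℕ → V := seqCons (Tree_b p q b) (fun k => ptY (ch (stg hε ch s0 k)) (x k).1.1) with hv
  have hV : ∀ k, ∃ (g : G) (c : Bool), v k = g • Tree_b p q c ∧ v (k + 1) = g • Tree_a p q c := by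
    intro k
    cases k with
    | zero =>
      refine ⟨(ch s0).R.d (x 0).1.1, b, hb2.symm, ?_⟩
      show (ch s0).R.d (x 0).1.1 • ptX (ch s0) (x 0).1.1 = _
      rw [hb1]
    | succ k =>
      obtain ⟨g, c, h1, h2⟩ := pt_next hinv hε (ch (stg hε ch s0 k)) (ch (stg hε ch s0 (k + 1)))
        (x (k + 1)).1.1 (x (k + 1)).2.1
      refine ⟨g, c, ?_, h2⟩
      show ptY (ch (stg hε ch s0 k)) (x k).1.1 = _
      rw [hlab k]
      exact h1
  have hU : ∀ k, ∃ (g : G) (c : Bool), u k = g • Tree_b p q c ∧ u (k + 1) = g • Tree_a p q c := by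
    intro k
    cases k with
    | zero =>
      refine ⟨1, b, ?_, ?_⟩
      · rw [one_smul]
        rfl
      · rw [one_smul]
        exact hb1
    | succ k =>
      obtain ⟨g, c, h1, h2⟩ := pt_next hinv hε (ch (stg hε ch s0 k)) (ch (stg hε ch s0 (k + 1)))
        (x (k + 1)).1.1 (x (k + 1)).2.1
      have h3 := pt_back hΓ hadj hpq hinv hε (ch (stg hε ch s0 k)) (ch (stg hε ch s0 (k + 1)))
        (x (k + 1)).1.1 (x (k + 1)).2.1
      have h4 := pt_rev hΓ hadj hpq hinv (ch (stg hε ch s0 (k + 1)))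
        (x (k + 1)).1.1 (x (k + 1)).2.1
      refine ⟨(ch (stg hε ch s0 (k + 1))).R.d (x (k + 1)).1.1 * g, c, ?_, ?_⟩
      · show ptX (ch (stg hε ch s0 k)) (x k).1.1 = _
        rw [hlab k, mul_smul, ← h1]
        exact h3.symm
      · show ptX (ch (stg hε ch s0 (k + 1))) (x (k + 1)).1.1 = _
        rw [mul_smul, ← h2]
        exact h4.symm
  have hadj' : ∀ (g : G) (c : Bool), Γ.Adj (g • Tree_b p q c) (g • Tree_a p q c) :=
    fun g c => hadj g _ _ (Tree_adj hpq c)
  refine ⟨u, v, ⟨rfl, ?_, ?_, ?_, ?_, ?_, ?_⟩, ?_⟩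
  · intro k
    obtain ⟨g, c, h1, h2⟩ := hU k
    rw [h1, h2]
    exact hadj' g c
  · intro k
    obtain ⟨g, c, h1, h2⟩ := hV k
    rw [h1, h2]
    exact hadj' g c
  · intro k
    obtain ⟨g, c, h1, h2⟩ := hU k
    rw [h1, h2]
    exact ⟨g, Tree_edge g p q c⟩
  · intro k
    obtain ⟨g, c, h1, h2⟩ := hV k
    rw [h1, h2]
    exact ⟨g, Tree_edge g p q c⟩
  · intro k
    cases k with
    | zero =>
      show Γ.dist (Tree_b p q b) (Tree_b p q b) = 2 * 0
      rw [SimpleGraph.dist_self]
    | succ k =>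
      show Γ.dist (ptX (ch (stg hε ch s0 k)) (x k).1.1) (ptY (ch (stg hε ch s0 k)) (x k).1.1) = _
      rw [pt_dist hΓ hadj hpq hinv _ _ (x k).2.1, hL]
      ring
  · intro k
    cases k with
    | zero => exact ⟨1, one_smul G _, one_smul G _⟩
    | succ k =>
      exact ⟨(ch (stg hε ch s0 k)).R.d (x k).1.1, rfl,
        pt_rev hΓ hadj hpq hinv (ch (stg hε ch s0 k)) (x k).1.1 (x k).2.1⟩
  · intro k hk h
    cases k with
    | zero => omega
    | succ k =>
      exact (x k).2.2 (hP _ _ (pt_F hΓ hadj hpq hinv (ch (stg hε ch s0 k)) (x k).1.1 (x k).2.1) h)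

end

section
variable {A : Type u} {G : Type v} [CommRing A] [StarRing A] [Group G]
  {V : Type w} [MulAction G V] {χ : G →* ℤˣ} {ε : ℤ} {p q : V}

/-- **UNil sees only the reversible lines** -/
theorem line_main [IsDomain A] {Γ : SimpleGraph V} (hΓ : Γ.IsTree)
    (hadj : ∀ (g : G) (x y : V), Γ.Adj x y → Γ.Adj (g • x) (g • y)) (hpq : Γ.Adj p q)
    (hinv : ∀ g : G, ¬ (g • p = q ∧ g • q = p))
    (h2p : ∀ g : G, g • p = p → g * g = 1 → g = 1)
    (h2q : ∀ g : G, g • q = q → g * g = 1 → g = 1)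
    (hε : ε = 1 ∨ ε = -1) (P : Subgroup G → Prop) (hP : ∀ H K, H ≤ K → P K → P H)
    (hm : ∀ (Θ : Type v) (E' : BSys Θ G), E'.Geo → E'.NoInv → (∀ θ, P (E'.F θ)) →
      ∀ Y : BF E' (barStr (A := A) χ) ε, Y.SMetab)
    (hline : ∀ u v : ℕ → V, ReversibleLine G Γ p q u v →
      ∃ k, 1 ≤ k ∧ P (MulAction.stabilizer G (u k) ⊓ MulAction.stabilizer G (v k)))
    {n : Type} [Fintype n] [DecidableEq n] (x : QForm A χ ε p q n) :
    StablyHyperbolic χ ε (induced x) := by
  classical
  have hεε : ε * ε = 1 := by rcases hε with h | h <;> simp [h]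
  have hsymm : ∀ {k : Type} (M : Matrix k k (MonoidAlgebra A G)),
      adj (barStr χ) (M + ε • adj (barStr χ) M) = ε • (M + ε • adj (barStr χ) M) := by
    intro k M
    rw [adj_add, adj_zsmul, adj_adj, smul_add, smul_smul, hεε, one_smul, add_comm]
  have hno : ∀ (σ : Bool) (g : G), g ∈ (treeSys p q : EdgeSys G).S σ (!σ) → g⁻¹ ≠ g := by
    intro σ g hg h
    cases σ
    · exact (hfree1 h2q g hg).2 h
    · exact (hfree2 h2p g hg).2 h
  have hx : SForm (treeSys (G := G) p q) (barStr χ) ε x.β (x.α + ε • UF.conj χ x.α)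
      (x.γ + ε • UF.conj χ x.γ) := by
    refine ⟨x.suppβ, ?_, ?_, hsymm _, hsymm _, x.nil⟩
    · exact supp_sym (σ := false) _ χ ε x.suppα
    · exact supp_sym (σ := true) _ χ ε x.suppγ
  have hbn : (biSys (treeSys (G := G) p q)).NoInv := biSys_noInv hno
  let X : BF (biSys (treeSys (G := G) p q)) (barStr (A := A) χ) ε :=
    { K := n ⊕ n, t := rbT n n, M := _, is := isBF_of_sform hε hx }
  have hWT : WT X := by
    by_contra hX
    obtain ⟨u, v, h1, h2⟩ := line_of_not hΓ hadj hpq hinv hbn hε P hP hm X hX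
    obtain ⟨k, hk, h3⟩ := hline u v h1
    exact h2 k hk h3
  have hHon : Halves X (fun b => if b then Matrix.fromBlocks (ε • x.α) x.β 0 x.γ
      else hyp A G n) := by
    refine ⟨?_, ?_⟩
    · rintro (_ | _)
      · show OnS (biSys (treeSys (G := G) p q)) false (rbT n n) (rbT n n)
          (Matrix.fromBlocks 0 1 0 0)
        intro i j g hg
        rcases i with i | i <;> rcases j with j | j
        · exact absurd rfl hg
        · have hg' : ((1 : Matrix n n (MonoidAlgebra A G)) i j).coeff g ≠ 0 := hg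
          exact ⟨OnF.one _ i j g hg', rfl⟩
        · exact absurd rfl hg
        · exact absurd rfl hg
      · show OnS (biSys (treeSys (G := G) p q)) true (rbT n n) (rbT n n)
          (Matrix.fromBlocks (ε • x.α) x.β 0 x.γ)
        intro i j g hg
        rcases i with i | i <;> rcases j with j | j
        · have hg' : ((ε • x.α) i j).coeff g ≠ 0 := hg
          exact x.suppα i j g (OnAux.supp_zsmul hg')
        · exact x.suppβ i j g hg
        · exact absurd rfl hg
        · exact x.suppγ i j g hg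
    · rintro (_ | _)
      · show rbM (barStr χ) ε (ε • (x.α + ε • UF.conj χ x.α)) x.β (x.γ + ε • UF.conj χ x.γ) 1 false =
          hyp A G n + ε • adj (barStr χ) (hyp A G n)
        unfold hyp
        rw [adj_fromBlocks, Matrix.fromBlocks_smul, Matrix.fromBlocks_add]
        simp [rbM, adj_zero]
      · show rbM (barStr χ) ε (ε • (x.α + ε • UF.conj χ x.α)) x.β (x.γ + ε • UF.conj χ x.γ) 1 true =
          Matrix.fromBlocks (ε • x.α) x.β 0 x.γ +
            ε • adj (barStr χ) (Matrix.fromBlocks (ε • x.α) x.β 0 x.γ)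
        rw [adj_fromBlocks, Matrix.fromBlocks_smul, Matrix.fromBlocks_add, adj_zsmul, conj_eq,
          conj_eq]
        simp only [rbM, adj_zero, smul_zero, add_zero, zero_add, smul_add]
  have h1 : SHyp (barStr (A := A) χ) ε
      (Matrix.fromBlocks (Matrix.fromBlocks (ε • x.α) x.β 0 x.γ) 1 0 (hyp A G n)) :=
    wt_all hbn hε hWT hHon
  have h2 := SHyp.cancel hε (SHyp.of_iso hε ((iso_schur hε _).symm hε) h1) (shyp_hyp hε)
  have h3 : Matrix.fromBlocks (ε • x.α) x.β 0 x.γ - hyp A G n =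
      Matrix.fromBlocks (ε • x.α) (x.β - 1) 0 x.γ := by
    unfold hyp
    rw [sub_eq_add_neg, Matrix.fromBlocks_neg, Matrix.fromBlocks_add]
    simp [sub_eq_add_neg]
  rw [h3] at h2
  have h4 := shyp_neg_right hε h2
  rw [neg_sub] at h4
  exact stablyHyperbolic_of_shyp h4

/-- the final theorem -/
theorem unilL {A : Type u} [CommRing A] [IsDomain A] [IsNoetherianRing A] [StarRing A]
    (hA : AR A) {g : ℕ} (hg : FL A g) : UNilVanishesL.{u, v, w} A := by
  intro G _ V _ Γ hΓ hadj p q hpq hinv h2p h2q hF χ ε hε n _ _ x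
  refine line_main hΓ hadj hpq hinv h2p h2q hε
    (fun K => ∀ H : Subgroup G, H ≤ K → H.FG → IsVT H) (fun H K h1 h2 L h3 h4 => h2 L (h3.trans h1) h4)
    ?_ hF x
  intro Θ E hGeo hNo hV X
  exact main_vt hA hg hGeo hNo hε (fun ω H hH hfg => hV ω H hH hfg) X

end

end Pool.Agent.MIX
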