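import Mathlib
import Pool.Agent.Lib.MIX.LineADefs
import Pool.Agent.Lib.MIX.Line
import Pool.Agent.Lib.MIX.End
import Pool.Agent.Lib.MIX.Base

/-!
# UNil forms and reversible lines: all coefficient rings
-/

set_option autoImplicit false

open MonoidAlgebra Pool.Agent.Lib.MP_98022b_UN Pool.Agent.Lib.MP_98022b_UM
open Pool.Agent.Lib.MP_98022b_UM.UF Pool.Agent.UP25 Pool.Agent.UP
open scoped LaurentPolynomial

namespace Pool.Agent.MIX

universe u v w

/-- good rings satisfy the Auslander condition and have finite global dimension -/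
theorem GoodRing.facts {A : Type u} [CommRing A] [StarRing A] (h : GoodRing A) :
    AR A ∧ ∃ g, FL A g := by
  have := h.dom
  have := h.noeth
  rcases h.reg with h1 | ⟨h1, h2⟩
  · exact ⟨ar_base (fl_hereditary h1), _, fl_hereditary h1⟩
  · exact ⟨ar_ufd (fl_of_ker h2), _, fl_of_ker h2⟩

theorem goodRing_int : GoodRing ℤ :=
  ⟨inferInstance, inferInstance, Or.inl fun _ _ _ => inferInstance⟩

theorem goodRing_laurent : GoodRing ℤ[T;T⁻¹] :=
  ⟨inferInstance, Pool.Agent.UNh12.laurent_noetherian ℤ,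
    Or.inr ⟨Pool.Agent.UNh12.laurent_ufd ℤ, fun k l f =>
      Pool.Agent.UNh12.ker_projective_laurent k l f⟩⟩

section
variable {A : Type u} {G : Type v} [CommRing A] [StarRing A] [Group G]
  {V : Type w} [MulAction G V] {χ : G →* ℤˣ} {ε : ℤ} {p q : V}

/-- `line_main` for all commutative rings -/
theorem line_mainA {Γ : SimpleGraph V} (hΓ : Γ.IsTree)
    (hadj : ∀ (g : G) (x y : V), Γ.Adj x y → Γ.Adj (g • x) (g • y)) (hpq : Γ.Adj p q)
    (hinv : ∀ g : G, ¬ (g • p = q ∧ g • q = p))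
    (h2p : ∀ g : G, g • p = p → g * g = 1 → g = 1)
    (h2q : ∀ g : G, g • q = q → g * g = 1 → g = 1)
    (hε : ε = 1 ∨ ε = -1) (P : Subgroup G → Prop) (hP : ∀ H K, H ≤ K → P K → P H)
    (hm : ∀ (Θ : Type v) (E' : BSys Θ G), E'.Geo → E'.NoInv → (∀ θ, P (E'.F θ)) →
      ∀ Y : BF E' (barStr (A := A) χ) ε, Y.SMetab)
    (hline : ∀ u v : ℕ → V, ReversibleLine G Γ p q u v →
      ∃ k, 1 ≤ k ∧ P (MulAction.stabilizer G (u k) ⊓ MulAction.stabilizer G (v k)))
    {n : Type} [Fintype n] [DecidableEq n] (x : QForm A χ ε p q n) :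
    StablyHyperbolic χ ε (induced x) := by
  refine stablyHyperbolic_of_wt h2p h2q hε x fun X => ?_
  by_contra hX
  obtain ⟨u, v, h1, h2⟩ := line_of_not hΓ hadj hpq hinv (biSys_noInv (tree_noInv h2p h2q)) hε P hP
    hm X hX
  obtain ⟨k, hk, h3⟩ := hline u v h1
  exact h2 k hk h3

end

/-- a form without indices is stably metabolic -/
theorem smetab_empty {A : Type u} {Ω : Type w} {G : Type v} [CommRing A] [Group G] {E : BSys Ω G}
    {β : BarStr A G} {ε : ℤ} (X : BF E β ε) (h : IsEmpty X.K) : X.SMetab := by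
  refine X.smetab_of_metab ⟨0, On0.zero, by simp, by simp, ?_⟩
  exact Matrix.ext fun i => h.elim i

/-- **the vanishing property holds for every commutative ring with involution** -/
theorem unilA (A : Type u) [CommRing A] [StarRing A] : UNilVanishesA.{u, v, w} A := by
  intro G _ V _ Γ hΓ hadj p q hpq hinv h2p h2q hF χ ε hε n _ _ x
  refine line_mainA hΓ hadj hpq hinv h2p h2q hε
    (fun K => GoodRing A ∧ ∀ H : Subgroup G, H ≤ K → H.FG → IsVT H)
    (fun H K h1 h2 => ⟨h2.1, fun L h3 h4 => h2.2 L (h3.trans h1) h4⟩) ?_ ?_ x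
  · intro Θ E hGeo hNo hV X
    by_cases h : IsEmpty X.K
    · exact smetab_empty X h
    · rw [not_isEmpty_iff] at h
      obtain ⟨k⟩ := h
      have hgood := (hV (X.t k)).1
      have := hgood.noeth
      obtain ⟨h1, g, h2⟩ := hgood.facts
      exact main_vt h1 h2 hGeo hNo hε (fun ω H hH hfg => (hV ω).2 H hH hfg) X
  · intro u v huv
    obtain ⟨h1, k, hk, h2⟩ := hF u v huv
    exact ⟨k, hk, h1, h2⟩

end Pool.Agent.MIX
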