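import Mathlib
import Pool.Agent.Lib.MIX.Hat
import Pool.Agent.Lib.MP_98022b_UM.OnL

/-!
# MIX, row M7: supports of the reduced form
-/

set_option autoImplicit false

open MonoidAlgebra Pool.Agent.Lib.MP_98022b_UN Pool.Agent.Lib.MP_98022b_UM

namespace Pool.Agent.MIX

universe u v w w'

section
variable {Ω : Type w} {G : Type v} [Group G] {E : BSys Ω G} {N : Ω → Prop}

theorem inW_mul {k : ℕ} : ∀ {k' : ℕ} {ω ω' ρ ρ' : Ω} {g t u : G}, g ∈ inW E N k ω ρ → N ρ →
    N ρ' → t ∈ E.S true ρ ρ' → u ∈ inW E N k' ρ' ω' → g * t * u ∈ inW E N (k + k' + 1) ω ω' := by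
  induction k with
  | zero =>
    intro k' ω ω' ρ ρ' g t u hg h1 h2 ht hu
    rw [Nat.zero_add]
    exact ⟨ρ, ρ', h1, h2, g, hg, t, ht, u, hu, rfl⟩
  | succ k ih =>
    intro k' ω ω' ρ ρ' g t u hg h1 h2 ht hu
    obtain ⟨σ, σ', h3, h4, x, hx, y, hy, z, hz, rfl⟩ := hg
    have e : k + 1 + k' + 1 = (k + k' + 1) + 1 := by ring
    rw [e]
    exact ⟨σ, σ', h3, h4, x, hx, y, hy, z * t * u, ih hz h1 h2 ht hu, by
      simp only [mul_assoc]⟩

end

section
variable {A : Type u} {Ω : Type w} {G : Type v} [CommRing A] [Group G]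

/-- the entries are supported in the words `f t f ... f` whose inner objects satisfy `N` -/
def OnH (E : BSys Ω G) (N : Ω → Prop) {I J : Type} (s : I → Ω) (t : J → Ω)
    (M : Matrix I J (MonoidAlgebra A G)) : Prop :=
  ∀ i j g, (M i j).coeff g ≠ 0 → ∃ k, g ∈ inW E N k (s i) (t j)

/-- the entries are supported in the letters of side `true` between objects which satisfy `N` -/
def OnA (E : BSys Ω G) (N : Ω → Prop) {I J : Type} (s : I → Ω) (t : J → Ω)
    (M : Matrix I J (MonoidAlgebra A G)) : Prop :=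
  ∀ i j g, (M i j).coeff g ≠ 0 → g ∈ E.S true (s i) (t j) ∧ N (s i) ∧ N (t j)

variable {E : BSys Ω G} {N : Ω → Prop} {I J K L : Type} {s : I → Ω} {t : J → Ω} {r : K → Ω}
  {q : L → Ω}

theorem OnH.zero : OnH E N s t (0 : Matrix I J (MonoidAlgebra A G)) :=
  fun _ _ _ h => absurd rfl h

theorem OnH.add {M M' : Matrix I J (MonoidAlgebra A G)} (h : OnH E N s t M)
    (h' : OnH E N s t M') : OnH E N s t (M + M') :=
  fun i j g hg => (OnAux.supp_add hg).elim (h i j g) (h' i j g)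

theorem OnH.sub {M M' : Matrix I J (MonoidAlgebra A G)} (h : OnH E N s t M)
    (h' : OnH E N s t M') : OnH E N s t (M - M') :=
  fun i j g hg => (OnAux.supp_sub hg).elim (h i j g) (h' i j g)

theorem OnH.zsmul {M : Matrix I J (MonoidAlgebra A G)} (h : OnH E N s t M) (k : ℤ) :
    OnH E N s t (k • M) :=
  fun i j g hg => h i j g (OnAux.supp_zsmul hg)

theorem OnH.of_onS {M : Matrix I J (MonoidAlgebra A G)} (h : OnS E false s t M) :
    OnH E N s t M := fun i j g hg => ⟨0, h i j g hg⟩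

theorem OnA.sub {M M' : Matrix I J (MonoidAlgebra A G)} (h : OnA E N s t M)
    (h' : OnA E N s t M') : OnA E N s t (M - M') :=
  fun i j g hg => (OnAux.supp_sub hg).elim (h i j g) (h' i j g)

theorem OnH.step [Fintype J] [Fintype K] {M : Matrix I J (MonoidAlgebra A G)}
    {a : Matrix J K (MonoidAlgebra A G)} {M' : Matrix K L (MonoidAlgebra A G)}
    (h : OnH E N s t M) (ha : OnA E N t r a) (h' : OnH E N r q M') :
    OnH E N s q (M * a * M') := by
  intro i l g hg
  rw [Matrix.mul_apply] at hg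
  obtain ⟨k, -, hk⟩ := OnAux.supp_sum hg
  obtain ⟨x, u, hx, hu, rfl⟩ := OnAux.supp_mul hk
  rw [Matrix.mul_apply] at hx
  obtain ⟨j, -, hj⟩ := OnAux.supp_sum hx
  obtain ⟨y, z, hy, hz, rfl⟩ := OnAux.supp_mul hj
  obtain ⟨m, hm⟩ := h i j y hy
  obtain ⟨h1, h2, h3⟩ := ha j k z hz
  obtain ⟨m', hm'⟩ := h' k l u hu
  exact ⟨_, inW_mul hm h2 h3 h1 hm'⟩

theorem OnH.adj (β : BarStr A G) {M : Matrix I J (MonoidAlgebra A G)} (h : OnH E N s t M) :
    OnH E N t s (Pool.Agent.Lib.MP_98022b_UN.adj β M) := by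
  intro j i g hg
  obtain ⟨k, hk⟩ := h i j g⁻¹ (β.supp' _ _ hg)
  have h1 := inW_inv hk
  rw [inv_inv] at h1
  exact ⟨k, h1⟩

open Classical in
theorem dl_mul_apply [Fintype J] [DecidableEq J] (U : Ω → Prop)
    (M : Matrix J K (MonoidAlgebra A G)) (j : J) (k : K) :
    (dl A G t U * M) j k = if U (t j) then M j k else 0 := by
  unfold dl
  rw [Matrix.diagonal_mul]
  split_ifs <;> simp

theorem onA_of_dl [Fintype J] [DecidableEq J] {a : Matrix J K (MonoidAlgebra A G)}
    (hc : ∀ (ω ω' : Ω) (g : G), g ∈ E.S true ω ω' → (N ω ↔ N ω')) (h : OnS E true t r a)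
    (ha : dl A G t N * a = a) : OnA E N t r a := by
  intro j k g hg
  have h1 := h j k g hg
  have h2 : N (t j) := by
    by_contra h3
    rw [← ha, dl_mul_apply, if_neg h3] at hg
    exact hg rfl
  exact ⟨h1, h2, (hc _ _ _ h1).1 h2⟩

theorem onS_dl [Fintype J] [DecidableEq J] {b : Bool} {M : Matrix J K (MonoidAlgebra A G)}
    (h : OnS E b t r M) (U : Ω → Prop) : OnS E b t r (dl A G t U * M) := by
  intro j k g hg
  rw [dl_mul_apply] at hg
  split_ifs at hg
  · exact h j k g hg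
  · exact absurd rfl hg

theorem dl_mul_dl [Fintype J] [DecidableEq J] (U : Ω → Prop)
    (M : Matrix J K (MonoidAlgebra A G)) :
    dl A G t U * (dl A G t U * M) = dl A G t U * M := by
  refine Matrix.ext fun j k => ?_
  rw [dl_mul_apply, dl_mul_apply]
  split_ifs <;> rfl

section
variable [Fintype J] [DecidableEq J] {a c Z : Matrix J J (MonoidAlgebra A G)} {ε : ℤ}

theorem onH_pow (ha : OnA E N t t a) (hc : OnH E N t t c) (m : ℕ) :
    OnH E N t t ((c * a) ^ m * c) := by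
  induction m with
  | zero =>
    rw [pow_zero, Matrix.one_mul]
    exact hc
  | succ m ih =>
    have e : (c * a) ^ (m + 1) * c = c * a * ((c * a) ^ m * c) := by
      rw [pow_succ', Matrix.mul_assoc]
    rw [e]
    exact hc.step ha ih

theorem onH_cZ_aux (ha : OnA E N t t a) (hc : OnH E N t t c)
    (hZ : (1 - ε • (a * c)) * Z = 1) (m : ℕ) :
    OnH E N t t (c * Z - ε ^ m • ((c * a) ^ m * (c * Z))) := by
  have h1 : c * Z = c + ε • (c * a * (c * Z)) := by
    have h2 : Z = 1 + ε • (a * c) * Z := by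
      have h3 : Z - ε • (a * c) * Z = 1 := by
        rw [← hZ, Matrix.sub_mul, Matrix.one_mul]
      rw [← h3]
      abel
    conv_lhs => rw [h2]
    rw [Matrix.mul_add, Matrix.mul_one, Matrix.smul_mul, Matrix.mul_smul]
    simp only [Matrix.mul_assoc]
  induction m with
  | zero =>
    rw [pow_zero, pow_zero, one_smul, Matrix.one_mul, sub_self]
    exact OnH.zero
  | succ m ih =>
    have h4 : (c * a) ^ m * (c * Z) = (c * a) ^ m * c + ε • ((c * a) ^ (m + 1) * (c * Z)) := by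
      conv_lhs => rw [h1]
      rw [Matrix.mul_add, Matrix.mul_smul, pow_succ]
      simp only [Matrix.mul_assoc]
    have e : c * Z - ε ^ (m + 1) • ((c * a) ^ (m + 1) * (c * Z)) =
        (c * Z - ε ^ m • ((c * a) ^ m * (c * Z))) + ε ^ m • ((c * a) ^ m * c) := by
      rw [h4, smul_add, smul_smul, ← pow_succ]
      abel
    rw [e]
    exact ih.add ((onH_pow ha hc m).zsmul _)

theorem pow_swap' (c a : Matrix J J (MonoidAlgebra A G)) (n : ℕ) :
    (c * a) ^ n * c = c * (a * c) ^ n := by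
  induction n with
  | zero => simp
  | succ n ih =>
    rw [pow_succ', Matrix.mul_assoc, ih, pow_succ']
    simp only [Matrix.mul_assoc]

theorem onH_cZ' (ha : OnA E N t t a) (hc : OnH E N t t c) (hn : ∃ n : ℕ, (a * c) ^ n = 0)
    (hZ : (1 - ε • (a * c)) * Z = 1) : OnH E N t t (c * Z) := by
  obtain ⟨n, hn⟩ := hn
  have h := onH_cZ_aux ha hc hZ n
  have e : (c * a) ^ n * (c * Z) = 0 := by
    rw [← Matrix.mul_assoc, pow_swap', hn, Matrix.mul_zero, Matrix.zero_mul]
  rw [e, smul_zero, sub_zero] at h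
  exact h

end

variable {β : BarStr A G} {ε : ℤ}

theorem onH_cZ (X : BF E β ε) (N : Ω → Prop)
    (hc : ∀ (ω ω' : Ω) (g : G), g ∈ E.S true ω ω' → (N ω ↔ N ω'))
    {a Z : Matrix X.K X.K (MonoidAlgebra A G)} (ha : a = dl A G X.t N * X.M true)
    (hn : ∃ n : ℕ, (a * X.M false) ^ n = 0) (hZ : (1 - ε • (a * X.M false)) * Z = 1) :
    OnH E N X.t X.t (X.M false * Z) := by
  refine onH_cZ' (onA_of_dl hc ?_ ?_) (OnH.of_onS (X.is.on false)) hn hZ
  · rw [ha]
    exact onS_dl (X.is.on true) N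
  · rw [ha, dl_mul_dl]

theorem onS_hat_of_onH {K : Type} {t : K → Ω} {M : Matrix K K (MonoidAlgebra A G)}
    (h : OnH E N t t M) :
    OnS (hatSys E N) false (fun k : {k : K // ¬ N (t k)} => (⟨t k.1, k.2⟩ : {ω // ¬ N ω}))
      (fun k : {k : K // ¬ N (t k)} => (⟨t k.1, k.2⟩ : {ω // ¬ N ω}))
      (M.submatrix Subtype.val Subtype.val) := fun i j g hg => h i.1 j.1 g hg

theorem onS_hat_true {K : Type} {t : K → Ω} {M : Matrix K K (MonoidAlgebra A G)}
    (h : OnS E true t t M) :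
    OnS (hatSys E N) true (fun k : {k : K // ¬ N (t k)} => (⟨t k.1, k.2⟩ : {ω // ¬ N ω}))
      (fun k : {k : K // ¬ N (t k)} => (⟨t k.1, k.2⟩ : {ω // ¬ N ω}))
      (M.submatrix Subtype.val Subtype.val) := fun i j g hg => h i.1 j.1 g hg

/-- the last clause of `hat_bf` -/
theorem hat_class (X : BF E β ε) (N : Ω → Prop)
    (hc : ∀ (ω ω' : Ω) (g : G), g ∈ E.S true ω ω' → (N ω ↔ N ω'))
    {a Z : Matrix X.K X.K (MonoidAlgebra A G)} (ha : a = dl A G X.t N * X.M true)
    (hn : ∃ n : ℕ, (a * X.M false) ^ n = 0) (hZ : (1 - ε • (a * X.M false)) * Z = 1) :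
      ∀ a1 c1 : Matrix X.K X.K (MonoidAlgebra A G), OnS E true X.t X.t a1 →
        dl A G X.t N * a1 = a1 → OnS E false X.t X.t c1 → a = a1 + ε • adj β a1 →
        OnS (hatSys E N) false (fun k : {k : X.K // ¬ N (X.t k)} => (⟨X.t k.1, k.2⟩ : {ω // ¬ N ω}))
          (fun k : {k : X.K // ¬ N (X.t k)} => (⟨X.t k.1, k.2⟩ : {ω // ¬ N ω}))
          ((X.M false * Z + ε • (X.M false * Z * (a - a1) * (X.M false * Z)) -
            (1 + ε • (X.M false * Z * a)) * c1 * (1 + ε • (a * (X.M false * Z)))).submatrix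
              Subtype.val Subtype.val) := by
  intro a1 c1 h1 h2 h3 _
  have hC := onH_cZ X N hc ha hn hZ
  have hA : OnA E N X.t X.t a := by
    refine onA_of_dl hc ?_ ?_
    · rw [ha]
      exact onS_dl (X.is.on true) N
    · rw [ha, dl_mul_dl]
  have hA1 : OnA E N X.t X.t a1 := onA_of_dl hc h1 h2
  have hc1 : OnH E N X.t X.t c1 := OnH.of_onS h3
  set C := X.M false * Z with hCdef
  clear_value C
  refine onS_hat_of_onH ?_
  have e : (1 + ε • (C * a)) * c1 * (1 + ε • (a * C)) =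
      c1 + ε • (C * a * c1) + (ε • (c1 * a * C) + ε • ε • (C * a * c1 * a * C)) := by
    rw [Matrix.add_mul, Matrix.one_mul, Matrix.mul_add, Matrix.mul_one, Matrix.add_mul]
    simp only [Matrix.smul_mul, Matrix.mul_smul, Matrix.mul_assoc]
  rw [e]
  refine OnH.sub (hC.add ((hC.step (hA.sub hA1) hC).zsmul ε)) ?_
  have h4 : OnH E N X.t X.t (C * a * c1) := hC.step hA hc1
  exact (hc1.add (h4.zsmul ε)).add (((hc1.step hA hC).zsmul ε).add
    (((h4.step hA hC).zsmul ε).zsmul ε))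

end

end Pool.Agent.MIX
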