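import Mathlib
import Pool.Agent.Lib.MIX.LemC
import Pool.Agent.Lib.MIX.Pat

/-!
# MIX, row M4b: long words in the block letters vanish

The letters are the matrices `fromBlocks 0 0 (pr P * M true * pr P') 0` and
`fromBlocks 0 (pr P * M false * pr P') 0 0`.
-/

set_option autoImplicit false

open MonoidAlgebra

namespace Pool.Agent.MIX

open Pool.Agent.Lib.MP_98022b_UM Pool.Agent.Lib.MP_98022b_UN

universe u v w w'

section
variable {A : Type u} {Ω : Type w} {G : Type v} [CommRing A] [Group G]
variable {E : BSys Ω G} {K : Type} [Fintype K] [DecidableEq K] {t : K → Ω}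

/-- block embedding: `emb true false Z` is the lower left, `emb false true Z` the upper right
block -/
def emb {R : Type*} [Zero R] {K : Type} : Bool → Bool → Matrix K K R → Matrix (K ⊕ K) (K ⊕ K) R
  | false, false, Z => Matrix.fromBlocks Z 0 0 0
  | false, true, Z => Matrix.fromBlocks 0 Z 0 0
  | true, false, Z => Matrix.fromBlocks 0 0 Z 0
  | true, true, Z => Matrix.fromBlocks 0 0 0 Z

omit [DecidableEq K] in
theorem emb_mul {R : Type*} [Ring R] (r c c' : Bool) (Z Z' : Matrix K K R) :
    emb r c Z * emb c c' Z' = emb r c' (Z * Z') := by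
  cases r <;> cases c <;> cases c' <;>
    simp [emb, Matrix.fromBlocks_multiply]

omit [DecidableEq K] in
theorem emb_mul_ne {R : Type*} [Ring R] (r c c' : Bool) (Z Z' : Matrix K K R) :
    emb r c Z * emb (!c) c' Z' = 0 := by
  cases r <;> cases c <;> cases c' <;>
    simp [emb, Matrix.fromBlocks_multiply, Matrix.fromBlocks_zero]

omit [Fintype K] [DecidableEq K] in
theorem emb_zero {R : Type*} [Zero R] (r c : Bool) : emb r c (0 : Matrix K K R) = 0 := by
  cases r <;> cases c <;> exact Matrix.fromBlocks_zero

/-- the block letters of a pair of matrices -/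
def letters (t : K → Ω) (M : Bool → Matrix K K (MonoidAlgebra A G)) :
    Set (Matrix (K ⊕ K) (K ⊕ K) (MonoidAlgebra A G)) :=
  {x | ∃ (b : Bool) (P P' : Ω → Prop), x = emb b (!b) (prP A G t P * M b * prP A G t P')}

/-- product of letters -/
private theorem letters_prod (M : Bool → Matrix K K (MonoidAlgebra A G)) :
    ∀ (L : List (Matrix (K ⊕ K) (K ⊕ K) (MonoidAlgebra A G))), (∀ x ∈ L, x ∈ letters t M) →
      L ≠ [] → L.prod = 0 ∨ ∃ (b : Bool) (l : List (Ω → Prop)) (P' : Ω → Prop),
        l.length = L.length ∧ L.prod = emb b (par L.length b) (wPL t M l b * prP A G t P')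
  | [], _, h => absurd rfl h
  | [x], hx, _ => by
    obtain ⟨b, P, P', rfl⟩ := hx x (by simp)
    refine Or.inr ⟨b, [P], P', rfl, ?_⟩
    simp [wPL, par]
  | x :: y :: L, hx, _ => by
    obtain ⟨b, P, P', rfl⟩ := hx x (by simp)
    rcases letters_prod M (y :: L) (fun z hz => hx z (List.mem_cons_of_mem _ hz)) (by simp) with
      h | ⟨b', l, P'', hl, h⟩
    · left
      rw [List.prod_cons, h, mul_zero]
    · rw [List.prod_cons, h]
      by_cases hb : b' = !b
      · subst hb
        right
        cases l with
        | nil => simp at hl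
        | cons Q l =>
          refine ⟨b, P :: (fun ω => P' ω ∧ Q ω) :: l, P'', by simpa using hl, ?_⟩
          rw [emb_mul]
          have e1 : par (y :: L).length (!b) = par ((emb b (!b)
              (prP A G t P * M b * prP A G t P')) :: y :: L).length b := rfl
          rw [← e1]
          congr 1
          show prP A G t P * M b * prP A G t P' *
            (prP A G t Q * M (!b) * wPL t M l (!(!b)) * prP A G t P'') =
            prP A G t P * M b * (prP A G t (fun ω => P' ω ∧ Q ω) * M (!b) * wPL t M l (!(!b))) *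
              prP A G t P''
          rw [← prP_mul_prP]
          simp only [Matrix.mul_assoc]
      · left
        have hb' : b' = !(!b) := by
          cases b <;> cases b' <;> simp_all
        subst hb'
        exact emb_mul_ne b (!b) _ _ _

/-- **all long words in the block letters vanish** -/
theorem letters_nil (hE : E.Geo) {M : Bool → Matrix K K (MonoidAlgebra A G)}
    (hM : ∀ b, OnS E b t t (M b)) (hn : ∃ N : ℕ, (M true * M false) ^ N = 0) :
    ∃ N : ℕ, spanC (letters t M) N = ⊥ := by
  obtain ⟨N, hN⟩ := pattern_nil hE hM hn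
  refine ⟨N + 1, ?_⟩
  rw [spanC, AddSubgroup.closure_eq_bot_iff]
  rintro x ⟨L, hL, hLS, rfl⟩
  have hne : L ≠ [] := by
    rintro rfl
    simp at hL
  rcases letters_prod M L hLS hne with h | ⟨b, l, P', hl, h⟩
  · exact h
  · have h0 : wPL t M l b = 0 := hN l b (by omega)
    rw [h0, Matrix.zero_mul, emb_zero] at h
    exact h

omit [DecidableEq K] in
theorem mem_letters (t : K → Ω) (M : Bool → Matrix K K (MonoidAlgebra A G)) (b : Bool)
    (P P' : Ω → Prop) : emb b (!b) (prP A G t P * M b * prP A G t P') ∈ letters t M :=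
  ⟨b, P, P', rfl⟩

theorem mem_letters_left (t : K → Ω) (M : Bool → Matrix K K (MonoidAlgebra A G)) (b : Bool)
    (P : Ω → Prop) : emb b (!b) (prP A G t P * M b) ∈ letters t M :=
  ⟨b, P, fun _ => True, by rw [prP_true, Matrix.mul_one]⟩

theorem mem_letters_right (t : K → Ω) (M : Bool → Matrix K K (MonoidAlgebra A G)) (b : Bool)
    (P : Ω → Prop) : emb b (!b) (M b * prP A G t P) ∈ letters t M :=
  ⟨b, fun _ => True, P, by rw [prP_true, Matrix.one_mul]⟩

end

end Pool.Agent.MIX
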